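import Pool.Agent.Helper39.HD2.Gadget

/-!
# Two families of colours
-/

namespace Pool.Agent.Helper39.HD

open Equiv

/-- A state with two families of colours, rows and columns. -/
structure Bi (V K1 K2 D : Type*) where
  row : K1 → D
  col : K2 → D
  rc : ∀ c d, row c ≠ col d
  nu : D → Perm V
  a : Perm V
  b : Perm V
  ca : V → ℤ
  cb : V → ℤ
  ab : ∀ x, a (b x) = b (a x)
  ca_a : ∀ x, ca (a x) = ca x + 1
  ca_b : ∀ x, ca (b x) = ca x
  cb_a : ∀ x, cb (a x) = cb x
  cb_b : ∀ x, cb (b x) = cb x + 1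
  cb_row : ∀ c x, cb (nu (row c) x) = cb x
  ca_col : ∀ d x, ca (nu (col d) x) = ca x
  row_b : ∀ c x, nu (row c) (b x) = b ((nu (row c))⁻¹ x)
  col_a : ∀ d x, nu (col d) (a x) = a ((nu (col d))⁻¹ x)
  row_a2 : ∀ c x, nu (row c) (a (a x)) = a (a (nu (row c) x))
  col_b2 : ∀ d x, nu (col d) (b (b x)) = b (b (nu (col d) x))
  ga : ∀ x, ∃ c, nu (row c) x = a x ∨ nu (row c) (a x) = x
  gb : ∀ x, ∃ d, nu (col d) x = b x ∨ nu (col d) (b x) = x
  rstep : ∀ c x, ca (nu (row c) x) = ca x ∨ nu (row c) x = a x ∨ a (nu (row c) x) = x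
  cstep : ∀ d x, cb (nu (col d) x) = cb x ∨ nu (col d) x = b x ∨ b (nu (col d) x) = x
  rsg : K1 → V → Bool
  csg : K2 → V → Bool
  rsg_nu : ∀ c x, rsg c (nu (row c) x) = rsg c x
  csg_nu : ∀ d x, csg d (nu (col d) x) = csg d x
  rsg_b : ∀ c x, rsg c (b x) = !rsg c x
  csg_a : ∀ d x, csg d (a x) = !csg d x
  rtr : ∀ c x, ∃ k : ℕ, 0 < k ∧ (rsg c x = true → (nu (row c) ^ (k : ℤ)) x = a (a x)) ∧
    (rsg c x = false → (nu (row c) ^ (-(k : ℤ))) x = a (a x))
  ctr : ∀ d x, ∃ k : ℕ, 0 < k ∧ (csg d x = true → (nu (col d) ^ (k : ℤ)) x = b (b x)) ∧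
    (csg d x = false → (nu (col d) ^ (-(k : ℤ))) x = b (b x))
  rsg_t : ∀ c x, nu (row c) x = a x → rsg c x = true
  csg_t : ∀ d x, nu (col d) x = b x → csg d x = true
  rsg_f : ∀ c x, nu (row c) (a x) = x → rsg c x = false
  csg_f : ∀ d x, nu (col d) (b x) = x → csg d x = false
  r_once : ∀ c x y, (nu (row c) x = a x ∨ nu (row c) (a x) = x) →
    (nu (row c) y = a y ∨ nu (row c) (a y) = y) → ca x = ca y →
    (nu (row c)).SameCycle x y → x = y
  c_once : ∀ d x y, (nu (col d) x = b x ∨ nu (col d) (b x) = x) →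
    (nu (col d) y = b y ∨ nu (col d) (b y) = y) → cb x = cb y →
    (nu (col d)).SameCycle x y → x = y

namespace Bi

variable {V K1 K2 D : Type*} (S : Bi V K1 K2 D)

/-- exchange of rows and columns -/
def swap : Bi V K2 K1 D where
  row := S.col
  col := S.row
  rc := fun c d h => S.rc d c h.symm
  nu := S.nu
  a := S.b
  b := S.a
  ca := S.cb
  cb := S.ca
  ab := fun x => (S.ab x).symm
  ca_a := S.cb_b
  ca_b := S.cb_a
  cb_a := S.ca_b
  cb_b := S.ca_a
  cb_row := S.ca_col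
  ca_col := S.cb_row
  row_b := S.col_a
  col_a := S.row_b
  row_a2 := S.col_b2
  col_b2 := S.row_a2
  ga := S.gb
  gb := S.ga
  rstep := S.cstep
  cstep := S.rstep
  rsg := S.csg
  csg := S.rsg
  rsg_nu := S.csg_nu
  csg_nu := S.rsg_nu
  rsg_b := S.csg_a
  csg_a := S.rsg_b
  rtr := S.ctr
  ctr := S.rtr
  rsg_t := S.csg_t
  csg_t := S.rsg_t
  rsg_f := S.csg_f
  csg_f := S.rsg_f
  r_once := S.c_once
  c_once := S.r_once

/-- direct link along an edge of a column colour -/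
def Direct (c : K1) (x y : V) : Prop :=
  ∃ d, (S.nu (S.col d) x = y ∨ S.nu (S.col d) y = x) ∧ S.nu (S.row c) x = S.a x ∧
    S.nu (S.row c) (S.a y) = y

/-- link by the gadget along an edge of a row colour -/
def Gad (c : K1) (x y : V) : Prop :=
  ∃ c', (S.nu (S.row c') x = y ∨ S.nu (S.row c') y = x) ∧ S.ca x = S.ca y ∧
    (S.a ((S.nu (S.row c))⁻¹ x) = x ∨ (S.nu (S.row c))⁻¹ x = S.a x) ∧
    (S.nu (S.row c) y = S.a y ∨ S.a (S.nu (S.row c) y) = y)

/-- the elementary links of a row colour -/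
def RowRel (c : K1) (x y : V) : Prop :=
  (S.nu (S.row c)).SameCycle x y ∨ (y = S.b x ∨ x = S.b y) ∨ (S.Direct c x y ∨ S.Direct c y x) ∨
    (S.Gad c x y ∨ S.Gad c y x)

/-! ### basic facts -/

/-- `b` or its inverse -/
def IsB (e : Perm V) : Prop := e = S.b ∨ e = S.b⁻¹

variable {S}

theorem inv_b (x : V) : S.b⁻¹ (S.b x) = x := S.b.symm_apply_apply x

theorem b_inv (x : V) : S.b (S.b⁻¹ x) = x := S.b.apply_symm_apply x

theorem nu_inv (d : D) (x : V) : (S.nu d)⁻¹ (S.nu d x) = x := (S.nu d).symm_apply_apply x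

theorem inv_nu (d : D) (x : V) : S.nu d ((S.nu d)⁻¹ x) = x := (S.nu d).apply_symm_apply x

theorem row_e {e : Perm V} (he : S.IsB e) (c : K1) (x : V) :
    S.nu (S.row c) (e x) = e ((S.nu (S.row c))⁻¹ x) := by
  rcases he with rfl | rfl
  · exact S.row_b c x
  · have h := S.row_b c (S.b⁻¹ ((S.nu (S.row c))⁻¹ x))
    rw [b_inv] at h
    -- A A⁻¹x... 
    have h2 : x = S.b ((S.nu (S.row c))⁻¹ (S.b⁻¹ ((S.nu (S.row c))⁻¹ x))) := by
      rw [← h, inv_nu]
    have h3 : S.b⁻¹ x = (S.nu (S.row c))⁻¹ (S.b⁻¹ ((S.nu (S.row c))⁻¹ x)) := by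
      conv_lhs => rw [h2]
      rw [inv_b]
    rw [h3, inv_nu]

theorem row_e_inv {e : Perm V} (he : S.IsB e) (c : K1) (x : V) :
    (S.nu (S.row c))⁻¹ (e x) = e (S.nu (S.row c) x) := by
  rw [Perm.inv_eq_iff_eq, row_e he, nu_inv]

theorem row_e_zpow {e : Perm V} (he : S.IsB e) (c : K1) (k : ℤ) (x : V) :
    (S.nu (S.row c) ^ k) (e x) = e ((S.nu (S.row c) ^ (-k)) x) := by
  induction k using Int.induction_on with
  | zero => simp
  | succ n ih =>
    rw [add_comm, zpow_apply_add, ih, zpow_one, row_e he, neg_add, zpow_apply_add _ (-1),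
      zpow_neg_one]
  | pred n ih =>
    have e1 : (-((-(n : ℤ)) - 1)) = 1 + -(-(n : ℤ)) := by ring
    rw [sub_eq_neg_add, zpow_apply_add, ih, zpow_neg_one, row_e_inv he, ← sub_eq_neg_add, e1,
      zpow_apply_add _ 1, zpow_one]

theorem ca_e {e : Perm V} (he : S.IsB e) (x : V) : S.ca (e x) = S.ca x := by
  rcases he with rfl | rfl
  · exact S.ca_b x
  · have := S.ca_b (S.b⁻¹ x)
    rw [b_inv] at this
    exact this.symm

theorem a_e {e : Perm V} (he : S.IsB e) (x : V) : S.a (e x) = e (S.a x) := by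
  rcases he with rfl | rfl
  · exact S.ab x
  · have := S.ab (S.b⁻¹ x)
    rw [b_inv] at this
    rw [this, inv_b]

theorem ge {e : Perm V} (he : S.IsB e) (x : V) :
    ∃ d, S.nu (S.col d) x = e x ∨ S.nu (S.col d) (e x) = x := by
  rcases he with rfl | rfl
  · exact S.gb x
  · obtain ⟨d, h⟩ := S.gb (S.b⁻¹ x)
    rw [b_inv] at h
    exact ⟨d, h.symm⟩

theorem cb_e_ne {e : Perm V} (he : S.IsB e) (x : V) : S.cb (e x) ≠ S.cb x := by
  rcases he with rfl | rfl
  · rw [S.cb_b]; omega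
  · have := S.cb_b (S.b⁻¹ x)
    rw [b_inv] at this
    omega

/-- columns in neighbouring positions -/
theorem col_side (d : K2) {z w z1 w1 : V} (hz : (z1 = S.a z ∧ w1 = S.a w) ∨
    (z = S.a z1 ∧ w = S.a w1)) (h : S.nu (S.col d) z = w) : S.nu (S.col d) w1 = z1 := by
  rcases hz with ⟨rfl, rfl⟩ | ⟨rfl, rfl⟩
  · rw [S.col_a, ← h, nu_inv]
  · rw [S.col_a] at h
    have := S.a.injective h
    rw [Perm.inv_eq_iff_eq] at this
    exact this.symm

theorem cb_row_zpow (c : K1) (k : ℤ) (x : V) : S.cb ((S.nu (S.row c) ^ k) x) = S.cb x := by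
  have h : ∀ x, S.cb ((S.nu (S.row c))⁻¹ x) = S.cb x := by
    intro x
    have := S.cb_row c ((S.nu (S.row c))⁻¹ x)
    rw [inv_nu] at this
    exact this.symm
  induction k using Int.induction_on with
  | zero => simp
  | succ n ih => rw [add_comm, zpow_apply_add, zpow_one, S.cb_row, ih]
  | pred n ih => rw [sub_eq_neg_add, zpow_apply_add, zpow_neg_one, h, ih]

theorem cb_of_cycle {c : K1} {x y : V} (h : (S.nu (S.row c)).SameCycle x y) :
    S.cb x = S.cb y := by
  obtain ⟨k, rfl⟩ := h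
  rw [cb_row_zpow]

theorem ca_of_cycle {d : K2} {x y : V} (h : (S.nu (S.col d)).SameCycle x y) :
    S.ca x = S.ca y := cb_of_cycle (S := S.swap) h

theorem rsg_zpow (c : K1) (k : ℤ) (x : V) : S.rsg c ((S.nu (S.row c) ^ k) x) = S.rsg c x := by
  have h : ∀ x, S.rsg c ((S.nu (S.row c))⁻¹ x) = S.rsg c x := by
    intro x
    have := S.rsg_nu c ((S.nu (S.row c))⁻¹ x)
    rw [inv_nu] at this
    exact this.symm
  induction k using Int.induction_on with
  | zero => simp
  | succ n ih => rw [add_comm, zpow_apply_add, zpow_one, S.rsg_nu, ih]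
  | pred n ih => rw [sub_eq_neg_add, zpow_apply_add, zpow_neg_one, h, ih]

theorem rsg_cycle (c : K1) (x y : V) (h : (S.nu (S.row c)).SameCycle x y) :
    S.rsg c x = S.rsg c y := by
  obtain ⟨k, rfl⟩ := h
  rw [rsg_zpow]

/-- a row orbit avoids `W` as soon as its height does -/
theorem av_row {c : K1} {W : Set V} {x : V} (h : ∀ w ∈ W, S.cb w ≠ S.cb x) :
    Av (S.nu (S.row c)) W x := by
  intro k hk
  exact h _ hk (cb_row_zpow c k x)

theorem av_col {d : K2} {W : Set V} {x : V} (h : ∀ w ∈ W, S.ca w ≠ S.ca x) :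
    Av (S.nu (S.col d)) W x := av_row (S := S.swap) h

/-! ### translations -/

/-- translation by two -/
def t (S : Bi V K1 K2 D) : Perm V := S.a * S.a

theorem t_apply (x : V) : S.t x = S.a (S.a x) := rfl

theorem nu_row_t (c : K1) (m : ℤ) (x : V) :
    S.nu (S.row c) ((S.t ^ m) x) = (S.t ^ m) (S.nu (S.row c) x) := by
  have h : Commute (S.nu (S.row c)) S.t := by
    ext x
    exact S.row_a2 c x
  have := congrArg (fun f : Perm V => f x) (h.zpow_right m).eq
  exact this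

theorem nu_col_t (d : K2) (m : ℤ) (x : V) :
    S.nu (S.col d) ((S.t ^ m) x) = (S.t ^ m) (S.nu (S.col d) x) := by
  have h : Commute (S.nu (S.col d)) S.t := by
    ext x
    show S.nu (S.col d) (S.a (S.a x)) = S.a (S.a (S.nu (S.col d) x))
    rw [S.col_a]
    congr 1
    rw [Perm.inv_eq_iff_eq, S.col_a, nu_inv]
  have := congrArg (fun f : Perm V => f x) (h.zpow_right m).eq
  exact this

theorem a_t (m : ℤ) (x : V) : S.a ((S.t ^ m) x) = (S.t ^ m) (S.a x) := by
  have h : Commute S.a S.t := by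
    ext x
    rfl
  have := congrArg (fun f : Perm V => f x) (h.zpow_right m).eq
  exact this

theorem b_t (m : ℤ) (x : V) : S.b ((S.t ^ m) x) = (S.t ^ m) (S.b x) := by
  have h : Commute S.b S.t := by
    ext x
    show S.b (S.a (S.a x)) = S.a (S.a (S.b x))
    rw [S.ab, S.ab]
  have := congrArg (fun f : Perm V => f x) (h.zpow_right m).eq
  exact this

theorem ca_t (m : ℤ) (x : V) : S.ca ((S.t ^ m) x) = S.ca x + 2 * m := by
  have h : ∀ x, S.ca (S.t⁻¹ x) = S.ca x - 2 := by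
    intro x
    have h1 : S.t (S.t⁻¹ x) = x := S.t.apply_symm_apply x
    have h2 := S.ca_a (S.t⁻¹ x)
    have h3 := S.ca_a (S.a (S.t⁻¹ x))
    rw [← t_apply, h1] at h3
    omega
  induction m using Int.induction_on with
  | zero => simp
  | succ n ih =>
    rw [add_comm, zpow_apply_add, zpow_one, t_apply, S.ca_a, S.ca_a, ih]
    ring
  | pred n ih =>
    rw [sub_eq_neg_add, zpow_apply_add, zpow_neg_one, h, ih]
    ring

theorem cb_t (m : ℤ) (x : V) : S.cb ((S.t ^ m) x) = S.cb x := by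
  have h : ∀ x, S.cb (S.t⁻¹ x) = S.cb x := by
    intro x
    have h1 : S.t (S.t⁻¹ x) = x := S.t.apply_symm_apply x
    have h2 := S.cb_a (S.t⁻¹ x)
    have h3 := S.cb_a (S.a (S.t⁻¹ x))
    rw [← t_apply, h1] at h3
    omega
  induction m using Int.induction_on with
  | zero => simp
  | succ n ih =>
    rw [add_comm, zpow_apply_add, zpow_one, t_apply, S.cb_a, S.cb_a, ih]
  | pred n ih =>
    rw [sub_eq_neg_add, zpow_apply_add, zpow_neg_one, h, ih]

theorem comm_row_t (c : K1) (k m : ℤ) (x : V) :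
    (S.nu (S.row c) ^ k) ((S.t ^ m) x) = (S.t ^ m) ((S.nu (S.row c) ^ k) x) := by
  have h : Commute (S.nu (S.row c)) S.t := by
    ext x
    exact S.row_a2 c x
  have := congrArg (fun f : Perm V => f x) (h.zpow_zpow k m).eq
  exact this

/-- the translation along a row: `σ = 1` if the row is directed forwards -/
theorem row_tr (c : K1) (x : V) : ∃ k : ℕ, 0 < k ∧ ∀ m : ℤ,
    (S.rsg c x = true → (S.nu (S.row c) ^ ((k : ℤ) * m)) x = (S.t ^ m) x) ∧
    (S.rsg c x = false → (S.nu (S.row c) ^ (-((k : ℤ) * m))) x = (S.t ^ m) x) := by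
  obtain ⟨k, hk, h1, h2⟩ := S.rtr c x
  refine ⟨k, hk, fun m => ?_⟩
  have key : ∀ q : ℤ, (S.nu (S.row c) ^ q) x = S.t x → ∀ m : ℤ,
      (S.nu (S.row c) ^ (q * m)) x = (S.t ^ m) x := by
    intro q hq m
    induction m using Int.induction_on with
    | zero => simp
    | succ n ih =>
      rw [mul_add, mul_one, add_comm, zpow_apply_add, ih, comm_row_t, hq]
      rw [zpow_apply_add S.t (n : ℤ) 1, zpow_one]
    | pred n ih =>
      have h3 : (S.nu (S.row c) ^ (-q)) x = S.t⁻¹ x := by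
        have h4 := comm_row_t (S := S) c (-q) (-1) (S.t x)
        have h5 : (S.t ^ (-1 : ℤ)) (S.t x) = x := by
          rw [zpow_neg_one]; exact S.t.symm_apply_apply x
        rw [h5, ← hq, ← zpow_apply_add] at h4
        rw [h4]
        simp
      have e1 : q * (-(n : ℤ) - 1) = -q + q * (-(n : ℤ)) := by ring
      have e2 : -(n : ℤ) - 1 = -(n : ℤ) + -1 := by ring
      rw [e1, zpow_apply_add, ih, comm_row_t, h3, e2, zpow_apply_add S.t, zpow_neg_one]
  refine ⟨fun h => key _ (h1 h) m, fun h => ?_⟩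
  have := key _ (h2 h) m
  rwa [neg_mul] at this

end Bi

end Pool.Agent.Helper39.HD
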