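import Pool.Agent.Helper39.HD2.Bi

/-!
# Links in a state with two families of colours
-/

namespace Pool.Agent.Helper39.HD

open Equiv

theorem Lnk.congr {V D : Type*} {G : SimpleGraph V} {ν0 : D → Perm V} {sgn : V → Bool} {d : D}
    {x y x' y' : V} (h : Lnk G ν0 sgn d x y) (hx : Fam ν0 sgn d x x') (hy : Fam ν0 sgn d y y') :
    Lnk G ν0 sgn d x' y' := by
  intro ν hν B hB
  obtain ⟨ν', h1, h2, h3, w, z1, z2, h4, h5, h6⟩ := h ν hν B hB
  exact ⟨ν', h1, h2, h3, w, z1, z2, hx.symm.trans h4, hy.symm.trans h5, h6⟩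

namespace Bi

variable {V K1 K2 D : Type*} {S : Bi V K1 K2 D} {G : SimpleGraph V}

theorem ca_bound (S : Bi V K1 K2 D) {W : Set V} (hW : W.Finite) :
    ∃ M : ℕ, ∀ w ∈ W, (S.ca w).natAbs ≤ M := by
  obtain ⟨M, hM⟩ := (hW.image fun w => (S.ca w).natAbs).bddAbove
  exact ⟨M, fun w hw => hM ⟨w, hw, rfl⟩⟩

theorem fwd_step (c : K1) (x : V) {W : Set V} (hW : W.Finite) (N : ℕ) :
    ∃ i : ℕ, N ≤ i ∧
      (S.nu (S.row c) ((S.nu (S.row c) ^ (i : ℤ)) x) = S.a ((S.nu (S.row c) ^ (i : ℤ)) x) ∨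
        S.a (S.nu (S.row c) ((S.nu (S.row c) ^ (i : ℤ)) x)) = (S.nu (S.row c) ^ (i : ℤ)) x) ∧
      (∀ w ∈ W, S.ca w ≠ S.ca ((S.nu (S.row c) ^ (i : ℤ)) x)) ∧
      (∀ w ∈ W, S.ca w ≠ S.ca (S.nu (S.row c) ((S.nu (S.row c) ^ (i : ℤ)) x))) := by
  set A := S.nu (S.row c) with hA
  obtain ⟨k, hk, htr⟩ := row_tr (S := S) c x
  obtain ⟨M, hM⟩ := S.ca_bound hW
  obtain ⟨σ, hσ, hs⟩ : ∃ σ : ℤ, (σ = 1 ∨ σ = -1) ∧ ∀ m : ℤ, (A ^ ((k : ℤ) * m)) x =
      (S.t ^ (σ * m)) x := by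
    cases h : S.rsg c x
    · refine ⟨-1, Or.inr rfl, fun m => ?_⟩
      have := (htr (-m)).2 h
      rw [show -((k : ℤ) * -m) = (k : ℤ) * m by ring] at this
      rw [this]
      congr 2
      ring
    · refine ⟨1, Or.inl rfl, fun m => ?_⟩
      have := (htr m).1 h
      rw [this, one_mul]
  -- an `a`-step
  obtain ⟨i0, -, hi0⟩ : ∃ i0 : ℕ, i0 < k ∧
      S.ca ((A ^ ((i0 : ℤ) + 1)) x) ≠ S.ca ((A ^ (i0 : ℤ)) x) := by
    by_contra hcon
    push Not at hcon
    have h1 : ∀ j : ℕ, j ≤ k → S.ca ((A ^ (j : ℤ)) x) = S.ca x := by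
      intro j
      induction j with
      | zero => intro _; simp
      | succ j ih =>
        intro hj
        have := hcon j (by omega)
        push_cast
        rw [this, ih (by omega)]
    have h2 := h1 k le_rfl
    have h3 := hs 1
    rw [mul_one] at h3
    rw [h3, ca_t] at h2
    rcases hσ with rfl | rfl <;> omega
  set z0 := (A ^ (i0 : ℤ)) x with hz0
  have hz1 : A z0 = (A ^ ((i0 : ℤ) + 1)) x := by rw [hz0, apply_zpow]
  rw [← hz1] at hi0
  have hst : A z0 = S.a z0 ∨ S.a (A z0) = z0 := by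
    rcases S.rstep c z0 with h | h | h
    · exact absurd h hi0
    · exact Or.inl h
    · exact Or.inr h
  set m : ℕ := N + M + (S.ca z0).natAbs + (S.ca (A z0)).natAbs + 1 with hm
  have hz : (A ^ (((i0 + k * m : ℕ) : ℤ))) x = (S.t ^ (σ * m)) z0 := by
    push_cast
    rw [zpow_apply_add, hs, comm_row_t]
  have hAz : A ((S.t ^ (σ * m)) z0) = (S.t ^ (σ * m)) (A z0) := nu_row_t c _ _
  refine ⟨i0 + k * m, ?_, ?_, ?_, ?_⟩
  · have : 1 * m ≤ k * m := Nat.mul_le_mul_right m hk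
    omega
  · rw [hz, hAz]
    rcases hst with h | h
    · left
      rw [h, a_t]
    · right
      rw [a_t, h]
  · intro w hw
    have := hM w hw
    rw [hz, ca_t]
    rcases hσ with rfl | rfl <;> omega
  · intro w hw
    have := hM w hw
    rw [hz, hAz, ca_t]
    rcases hσ with rfl | rfl <;> omega

theorem ca_ne_of_step {z z1 : V} (h : z1 = S.a z ∨ z = S.a z1) : S.ca z ≠ S.ca z1 := by
  rcases h with rfl | rfl
  · rw [S.ca_a]; omega
  · rw [S.ca_a]; omega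

theorem adj_e {e : Perm V} (he : S.IsB e) (c : K1) (x : V) :
    AdjFar S.nu (S.row c) x (e x) := by
  intro W hW N
  obtain ⟨i, hi, hst, h1, h2⟩ := fwd_step (S := S) c x hW N
  refine ⟨i, i + 1, hi, by omega, ?_⟩
  have e1 : (S.nu (S.row c) ^ (-((i + 1 : ℕ) : ℤ))) (e x) =
      e (S.nu (S.row c) ((S.nu (S.row c) ^ (i : ℤ)) x)) := by
    rw [row_e_zpow he, neg_neg, apply_zpow]
    push_cast
    rfl
  rw [e1]
  set z := (S.nu (S.row c) ^ (i : ℤ)) x with hz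
  set z1 := S.nu (S.row c) z with hz1
  have hst' : z1 = S.a z ∨ z = S.a z1 := by
    rcases hst with h | h
    · exact Or.inl h
    · exact Or.inr h.symm
  have hzz : (z1 = S.a z ∧ e z1 = S.a (e z)) ∨ (z = S.a z1 ∧ e z = S.a (e z1)) := by
    rcases hst' with h | h
    · exact Or.inl ⟨h, by rw [h, a_e he]⟩
    · exact Or.inr ⟨h, by rw [a_e he, ← h]⟩
  obtain ⟨d, hd⟩ := ge he z
  have h3 : (S.nu (S.col d) z = e z ∧ S.nu (S.col d) (e z1) = z1) ∨
      (S.nu (S.col d) (e z) = z ∧ S.nu (S.col d) z1 = e z1) := by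
    rcases hd with hd | hd
    · exact Or.inl ⟨hd, col_side d hzz hd⟩
    · refine Or.inr ⟨hd, col_side d ?_ hd⟩
      rcases hzz with ⟨h, h'⟩ | ⟨h, h'⟩
      · exact Or.inl ⟨h', h⟩
      · exact Or.inr ⟨h', h⟩
  obtain ⟨p', q', hpq, hex⟩ := exch_square (ν := S.nu) (d := S.row c) (d' := S.col d)
    (P := z) (P1 := z1) (R := e z) (R1 := e z1) rfl (by rw [row_e he, hz1, nu_inv]) h3
  refine ⟨S.col d, (S.rc c d).symm, p', q', hex, ?_, ?_, ?_⟩
  · intro h
    have h := ca_of_cycle h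
    have h4 := ca_ne_of_step hst'
    rcases hpq with ⟨rfl, rfl⟩ | ⟨rfl, rfl⟩
    · rw [ca_e he] at h; exact h4 h
    · rw [ca_e he] at h; exact h4 h
  · apply av_col
    rcases hpq with ⟨rfl, rfl⟩ | ⟨rfl, rfl⟩
    · exact h1
    · rw [ca_e he]; exact h1
  · apply av_col
    rcases hpq with ⟨rfl, rfl⟩ | ⟨rfl, rfl⟩
    · rw [ca_e he]; exact h2
    · exact h2

theorem near_b (c : K1) (x : V) : Near S.nu (S.rsg c) (S.row c) x (S.b x) := by
  refine Or.inr ⟨adj_e (Or.inl rfl) c x, ?_, ?_⟩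
  · have := adj_e (S := S) (e := S.b⁻¹) (Or.inr rfl) c (S.b x)
    rwa [inv_b] at this
  · rw [S.rsg_b]
    cases S.rsg c x <;> simp

theorem fam_b (c : K1) (x : V) : Fam S.nu (S.rsg c) (S.row c) x (S.b x) := Fam.of_near (near_b c x)

theorem near_direct (c : K1) {x y : V} (h : S.Direct c x y) :
    Near S.nu (S.rsg c) (S.row c) x y := by
  obtain ⟨d, hd, hx, hy⟩ := h
  have sx : S.rsg c x = true := S.rsg_t c x hx
  have sy : S.rsg c y = false := S.rsg_f c y hy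
  have hca : S.ca x = S.ca y := by
    rcases hd with h | h
    · exact ca_of_cycle (cyc1 h)
    · exact ca_of_cycle (cyc1' h)
  have hd' : (S.nu (S.col d) x = y ∧ S.nu (S.col d) (S.a y) = S.a x) ∨
      (S.nu (S.col d) y = x ∧ S.nu (S.col d) (S.a x) = S.a y) := by
    rcases hd with h | h
    · exact Or.inl ⟨h, col_side d (Or.inl ⟨rfl, rfl⟩) h⟩
    · exact Or.inr ⟨h, col_side d (Or.inl ⟨rfl, rfl⟩) h⟩
  -- translated version
  have hdt : ∀ m : ℤ, (S.nu (S.col d) ((S.t ^ m) x) = (S.t ^ m) y ∧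
        S.nu (S.col d) (S.a ((S.t ^ m) y)) = S.a ((S.t ^ m) x)) ∨
      (S.nu (S.col d) ((S.t ^ m) y) = (S.t ^ m) x ∧
        S.nu (S.col d) (S.a ((S.t ^ m) x)) = S.a ((S.t ^ m) y)) := by
    intro m
    rw [a_t, a_t, nu_col_t, nu_col_t, nu_col_t, nu_col_t]
    rcases hd' with ⟨h, h'⟩ | ⟨h, h'⟩
    · exact Or.inl ⟨by rw [h], by rw [h']⟩
    · exact Or.inr ⟨by rw [h], by rw [h']⟩
  have hxt : ∀ m : ℤ, S.nu (S.row c) ((S.t ^ m) x) = S.a ((S.t ^ m) x) := by
    intro m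
    rw [nu_row_t, hx, a_t]
  have hyt : ∀ m : ℤ, S.nu (S.row c) (S.a ((S.t ^ m) y)) = (S.t ^ m) y := by
    intro m
    rw [a_t, nu_row_t, hy]
  obtain ⟨k1, hk1, tr1⟩ := row_tr (S := S) c x
  obtain ⟨k2, hk2, tr2⟩ := row_tr (S := S) c y
  have tr1 := fun m => (tr1 m).1 sx
  have tr2 := fun m => (tr2 m).2 sy
  refine Or.inr ⟨?_, ?_, by rw [sx, sy]; simp⟩
  · intro W hW N
    obtain ⟨M, hM⟩ := S.ca_bound hW
    set m : ℕ := N + M + (S.ca x).natAbs + 2 with hm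
    have m1 : 1 * m ≤ k1 * m := Nat.mul_le_mul_right m hk1
    have m2 : 1 * m ≤ k2 * m := Nat.mul_le_mul_right m hk2
    refine ⟨k1 * m, k2 * m + 1, by omega, by omega, S.col d, (S.rc c d).symm, ?_⟩
    have e1 : (S.nu (S.row c) ^ ((k1 * m : ℕ) : ℤ)) x = (S.t ^ (m : ℤ)) x := by
      push_cast
      exact tr1 m
    have e2 : (S.nu (S.row c) ^ (-((k2 * m + 1 : ℕ) : ℤ))) y = S.a ((S.t ^ (m : ℤ)) y) := by
      push_cast
      rw [show -((k2 : ℤ) * m + 1) = -1 + -((k2 : ℤ) * m) by ring, zpow_apply_add, tr2,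
        zpow_neg_one, Perm.inv_eq_iff_eq]
      exact (hyt m).symm
    rw [e1, e2]
    obtain ⟨p', q', hpq, hex⟩ := exch_square (ν := S.nu) (d := S.row c) (d' := S.col d)
      (P := (S.t ^ (m : ℤ)) x) (P1 := S.a ((S.t ^ (m : ℤ)) x)) (R := (S.t ^ (m : ℤ)) y)
      (R1 := S.a ((S.t ^ (m : ℤ)) y)) (hxt m) (hyt m) (hdt m)
    refine ⟨p', q', hex, ?_, ?_, ?_⟩
    · intro h
      have h := ca_of_cycle h
      rcases hpq with ⟨rfl, rfl⟩ | ⟨rfl, rfl⟩ <;>
        · simp only [S.ca_a, ca_t] at h; omega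
    · apply av_col
      intro w hw
      have := hM w hw
      rcases hpq with ⟨rfl, rfl⟩ | ⟨rfl, rfl⟩ <;>
        · simp only [ca_t]; omega
    · apply av_col
      intro w hw
      have := hM w hw
      rcases hpq with ⟨rfl, rfl⟩ | ⟨rfl, rfl⟩ <;>
        · simp only [S.ca_a, ca_t]; omega
  · intro W hW N
    obtain ⟨M, hM⟩ := S.ca_bound hW
    set m : ℕ := N + M + (S.ca x).natAbs + 2 with hm
    have m1 : 1 * m ≤ k1 * m := Nat.mul_le_mul_right m hk1
    have m2 : 1 * m ≤ k2 * m := Nat.mul_le_mul_right m hk2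
    refine ⟨k2 * m - 1, k1 * m, by omega, by omega, S.col d, (S.rc c d).symm, ?_⟩
    have e1 : (S.nu (S.row c) ^ (-((k1 * m : ℕ) : ℤ))) x = (S.t ^ (-(m : ℤ))) x := by
      have := tr1 (-m)
      push_cast
      rw [← this, mul_neg]
    have e2 : (S.nu (S.row c) ^ ((k2 * m - 1 : ℕ) : ℤ)) y = S.a ((S.t ^ (-(m : ℤ))) y) := by
      rw [Nat.cast_sub (by omega)]
      push_cast
      rw [show ((k2 : ℤ) * m - 1) = -1 + -((k2 : ℤ) * (-m)) by ring, zpow_apply_add, tr2,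
        zpow_neg_one, Perm.inv_eq_iff_eq]
      exact (hyt (-m)).symm
    rw [e1, e2]
    have h3 := hdt (-(m : ℤ))
    obtain ⟨p', q', hpq, hex⟩ := exch_square (ν := S.nu) (d := S.row c) (d' := S.col d)
      (P := S.a ((S.t ^ (-(m : ℤ))) y)) (P1 := (S.t ^ (-(m : ℤ))) y)
      (R := S.a ((S.t ^ (-(m : ℤ))) x))
      (R1 := (S.t ^ (-(m : ℤ))) x) (hyt (-m)) (hxt (-m)) (by
        rcases h3 with ⟨h, h'⟩ | ⟨h, h'⟩
        · exact Or.inl ⟨h', h⟩
        · exact Or.inr ⟨h', h⟩)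
    refine ⟨p', q', hex, ?_, ?_, ?_⟩
    · intro h
      have h := ca_of_cycle h
      rcases hpq with ⟨rfl, rfl⟩ | ⟨rfl, rfl⟩ <;>
        · simp only [S.ca_a, ca_t] at h; omega
    · apply av_col
      intro w hw
      have := hM w hw
      rcases hpq with ⟨rfl, rfl⟩ | ⟨rfl, rfl⟩ <;>
        · simp only [S.ca_a, ca_t]; omega
    · apply av_col
      intro w hw
      have := hM w hw
      rcases hpq with ⟨rfl, rfl⟩ | ⟨rfl, rfl⟩ <;>
        · simp only [ca_t]; omega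

/-- translation along `a` and `b` -/
theorem fam_t (c : K1) (m : ℤ) (x : V) : Fam S.nu (S.rsg c) (S.row c) x ((S.t ^ m) x) := by
  obtain ⟨k, hk, tr⟩ := row_tr (S := S) c x
  apply Fam.of_cycle
  cases h : S.rsg c x
  · exact ⟨_, (tr m).2 h⟩
  · exact ⟨_, (tr m).1 h⟩

theorem fam_bz (c : K1) (m : ℤ) (x : V) : Fam S.nu (S.rsg c) (S.row c) x ((S.b ^ m) x) := by
  induction m using Int.induction_on with
  | zero => simpa using Fam.refl x
  | succ n ih =>
    rw [add_comm, zpow_apply_add, zpow_one]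
    exact ih.trans (fam_b c _)
  | pred n ih =>
    rw [sub_eq_neg_add, zpow_apply_add, zpow_neg_one]
    refine ih.trans (Fam.symm ?_)
    have := fam_b (S := S) c (S.b⁻¹ ((S.b ^ (-(n : ℤ))) x))
    rwa [b_inv] at this

theorem fam_t' (c : K1) (m : ℤ) (x : V) : Fam S.nu (S.rsg c) (S.row c) x ((S.swap.t ^ m) x) := by
  have h : (S.swap.t ^ m) x = (S.b ^ (2 * m)) x := by
    have : S.swap.t = S.b ^ (2 : ℤ) := by
      rw [show (2 : ℤ) = 1 + 1 by norm_num, zpow_add, zpow_one]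
      rfl
    rw [this, ← zpow_mul]
  rw [h]
  exact fam_bz c _ x

theorem gad_flip (c : K1) {x y : V} (h : S.Gad c x y) : S.Gad c (S.b y) (S.b x) := by
  obtain ⟨c', h1, h2, h3, h4⟩ := h
  refine ⟨c', ?_, ?_, ?_, ?_⟩
  · rcases h1 with h | h
    · left
      rw [S.row_b, ← h, nu_inv]
    · right
      rw [S.row_b, ← h, nu_inv]
  · rw [S.ca_b, S.ca_b, h2]
  · have e := row_e_inv (S := S) (Or.inl rfl : S.IsB S.b) c y
    rw [e]
    rcases h4 with h | h
    · right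
      rw [h, S.ab]
    · left
      rw [S.ab, h]
  · rw [S.row_b]
    rcases h3 with h | h
    · right
      rw [S.ab, h]
    · left
      rw [h, S.ab]

theorem lnk_gad (c : K1) {x y : V} (h : S.Gad c x y) (hF : ¬ Fam S.nu (S.rsg c) (S.row c) x y) :
    Lnk G S.nu (S.rsg c) (S.row c) x y := by
  obtain ⟨c', hxy, hca, hx1, hy1⟩ := h
  intro ν hν B hB
  obtain ⟨W0, hW0, hag⟩ := hν.fin
  set W := W0 ∪ B with hWdef
  have hW : W.Finite := hW0.union hB
  have hag' : AgreeOn Wᶜ S.nu ν := hag.mono fun x hx hx' => hx (Or.inl hx')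
  obtain ⟨Ma, hMa⟩ := S.ca_bound hW
  obtain ⟨Mb, hMb⟩ := S.swap.ca_bound hW
  have hcb : S.cb x = S.cb y := by
    rcases hxy with h | h
    · exact cb_of_cycle (cyc1 h)
    · exact cb_of_cycle (cyc1' h)
  set m : ℕ := Ma + (S.ca x).natAbs + 2 with hm
  set n : ℕ := Mb + (S.cb x).natAbs + 2 with hn
  -- translated points
  have gR : ∀ (c : K1) (z : V), S.nu (S.row c) ((S.t ^ (m : ℤ)) ((S.swap.t ^ (n : ℤ)) z)) =
      (S.t ^ (m : ℤ)) ((S.swap.t ^ (n : ℤ)) (S.nu (S.row c) z)) := by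
    intro c z
    rw [nu_row_t]
    congr 1
    exact nu_col_t (S := S.swap) c _ _
  have gRi : ∀ (c : K1) (z : V), (S.nu (S.row c))⁻¹ ((S.t ^ (m : ℤ)) ((S.swap.t ^ (n : ℤ)) z)) =
      (S.t ^ (m : ℤ)) ((S.swap.t ^ (n : ℤ)) ((S.nu (S.row c))⁻¹ z)) := by
    intro c z
    rw [Perm.inv_eq_iff_eq, gR, inv_nu]
  have gA : ∀ (z : V), S.a ((S.t ^ (m : ℤ)) ((S.swap.t ^ (n : ℤ)) z)) =
      (S.t ^ (m : ℤ)) ((S.swap.t ^ (n : ℤ)) (S.a z)) := by
    intro z
    rw [a_t]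
    congr 1
    exact b_t (S := S.swap) _ _
  set X := (S.t ^ (m : ℤ)) ((S.swap.t ^ (n : ℤ)) x) with hX
  set Y := (S.t ^ (m : ℤ)) ((S.swap.t ^ (n : ℤ)) y) with hY
  have caX : S.ca X = S.ca x + 2 * m := by
    rw [hX, ca_t]
    congr 1
    exact cb_t (S := S.swap) _ _
  have caY : S.ca Y = S.ca x + 2 * m := by
    rw [hY, ca_t, hca]
    congr 1
    exact cb_t (S := S.swap) _ _
  have cbX : S.cb X = S.cb x + 2 * n := by
    rw [hX, cb_t]
    exact ca_t (S := S.swap) _ _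
  have cbY : S.cb Y = S.cb x + 2 * n := by
    rw [hY, cb_t, hcb]
    exact ca_t (S := S.swap) _ _
  have famX : Fam S.nu (S.rsg c) (S.row c) x X := (fam_t' c _ x).trans (fam_t c _ _)
  have famY : Fam S.nu (S.rsg c) (S.row c) y Y := (fam_t' c _ y).trans (fam_t c _ _)
  have hXY : S.nu (S.row c') X = Y ∨ S.nu (S.row c') Y = X := by
    rcases hxy with h | h
    · left; rw [hX, gR, h]
    · right; rw [hY, gR, h]
  have hX1 : S.a ((S.nu (S.row c))⁻¹ X) = X ∨ (S.nu (S.row c))⁻¹ X = S.a X := by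
    rw [hX, gRi, gA, gA]
    rcases hx1 with h | h
    · left; rw [h]
    · right; rw [h]
  have hY1 : S.nu (S.row c) Y = S.a Y ∨ S.a (S.nu (S.row c) Y) = Y := by
    rw [hY, gR, gA, gA]
    rcases hy1 with h | h
    · left; rw [h]
    · right; rw [h]
  clear_value X Y
  set P1 := (S.nu (S.row c))⁻¹ X with hP1
  set Q1 := S.nu (S.row c) Y with hQ1
  have stX : P1 = S.a X ∨ X = S.a P1 := by
    rcases hX1 with h | h
    · exact Or.inr h.symm
    · exact Or.inl h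
  have stY : Q1 = S.a Y ∨ Y = S.a Q1 := by
    rcases hY1 with h | h
    · exact Or.inl h
    · exact Or.inr h.symm
  have cbP1 : S.cb P1 = S.cb X := by
    have := S.cb_row c P1
    rw [hP1, inv_nu] at this
    rw [hP1]
    exact this.symm
  have cbQ1 : S.cb Q1 = S.cb Y := S.cb_row c Y
  have caP1 : S.ca P1 = S.ca X + 1 ∨ S.ca P1 = S.ca X - 1 := by
    rcases stX with h | h
    · left; rw [h, S.ca_a]
    · right
      have := S.ca_a P1
      rw [← h] at this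
      omega
  have caQ1 : S.ca Q1 = S.ca Y + 1 ∨ S.ca Q1 = S.ca Y - 1 := by
    rcases stY with h | h
    · left; rw [h, S.ca_a]
    · right
      have := S.ca_a Q1
      rw [← h] at this
      omega
  -- families
  have fP1 : Fam S.nu (S.rsg c) (S.row c) X P1 := by
    apply Fam.of_cycle
    exact ⟨-1, by rw [zpow_neg_one]⟩
  have fQ1 : Fam S.nu (S.rsg c) (S.row c) Y Q1 := Fam.of_cycle (cyc1 rfl)
  have nf : ∀ p q, Fam S.nu (S.rsg c) (S.row c) X p → Fam S.nu (S.rsg c) (S.row c) Y q →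
      ¬ (S.nu (S.row c)).SameCycle p q := by
    intro p q hp hq h
    exact hF (famX.trans (hp.trans ((Fam.of_cycle h).trans (hq.symm.trans famY.symm))))
  have hne : S.row c' ≠ S.row c := by
    intro h
    apply hF
    rcases hxy with h' | h'
    · rw [h] at h'; exact Fam.of_cycle (cyc1 h')
    · rw [h] at h'; exact Fam.of_cycle (cyc1' h')
  -- the column colours
  obtain ⟨d1, hd1⟩ := S.gb P1
  obtain ⟨d2, hd2⟩ := S.gb Y
  have sX : (X = S.a P1 ∧ S.b X = S.a (S.b P1)) ∨ (P1 = S.a X ∧ S.b P1 = S.a (S.b X)) := by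
    rcases stX with h | h
    · exact Or.inr ⟨h, by rw [S.ab, ← h]⟩
    · exact Or.inl ⟨h, by rw [S.ab, ← h]⟩
  have sX' : (S.b X = S.a (S.b P1) ∧ X = S.a P1) ∨ (S.b P1 = S.a (S.b X) ∧ P1 = S.a X) := by
    rcases sX with ⟨h, h'⟩ | ⟨h, h'⟩
    · exact Or.inl ⟨h', h⟩
    · exact Or.inr ⟨h', h⟩
  have sY : (Q1 = S.a Y ∧ S.b Q1 = S.a (S.b Y)) ∨ (Y = S.a Q1 ∧ S.b Y = S.a (S.b Q1)) := by
    rcases stY with h | h
    · exact Or.inl ⟨h, by rw [S.ab, ← h]⟩
    · exact Or.inr ⟨h, by rw [S.ab, ← h]⟩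
  have sY' : (S.b Q1 = S.a (S.b Y) ∧ Q1 = S.a Y) ∨ (S.b Y = S.a (S.b Q1) ∧ Y = S.a Q1) := by
    rcases sY with ⟨h, h'⟩ | ⟨h, h'⟩
    · exact Or.inl ⟨h', h⟩
    · exact Or.inr ⟨h', h⟩
  have v1 : (S.nu (S.col d1) P1 = S.b P1 ∧ S.nu (S.col d1) (S.b X) = X) ∨
      (S.nu (S.col d1) (S.b P1) = P1 ∧ S.nu (S.col d1) X = S.b X) := by
    rcases hd1 with h | h
    · exact Or.inl ⟨h, col_side d1 sX h⟩
    · exact Or.inr ⟨h, col_side d1 sX' h⟩
  have v2 : (S.nu (S.col d2) Y = S.b Y ∧ S.nu (S.col d2) (S.b Q1) = Q1) ∨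
      (S.nu (S.col d2) (S.b Y) = Y ∧ S.nu (S.col d2) Q1 = S.b Q1) := by
    rcases hd2 with h | h
    · exact Or.inl ⟨h, col_side d2 sY h⟩
    · exact Or.inr ⟨h, col_side d2 sY' h⟩
  have v3 : (S.nu (S.row c') X = Y ∧ S.nu (S.row c') (S.b Y) = S.b X) ∨
      (S.nu (S.row c') Y = X ∧ S.nu (S.row c') (S.b X) = S.b Y) := by
    rcases hXY with h | h
    · exact Or.inl ⟨h, by rw [S.row_b, ← h, nu_inv]⟩
    · exact Or.inr ⟨h, by rw [S.row_b, ← h, nu_inv]⟩
  have cbne : ∀ {c : K1} {p q : V}, S.cb p ≠ S.cb q → ¬ (S.nu (S.row c)).SameCycle p q :=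
    fun h h' => h (cb_of_cycle h')
  have cane : ∀ {d : K2} {p q : V}, S.ca p ≠ S.ca q → ¬ (S.nu (S.col d)).SameCycle p q :=
    fun h h' => h (ca_of_cycle h')
  have avR : ∀ (c : K1) (p : V), S.cb p = S.cb x + 2 * n ∨ S.cb p = S.cb x + 2 * n + 1 →
      Av (S.nu (S.row c)) W p := by
    intro c p hp
    apply av_row
    intro w hw
    have : (S.cb w).natAbs ≤ Mb := hMb w hw
    omega
  have avC : ∀ (d : K2) (p : V), S.ca p = S.ca x + 2 * m ∨ S.ca p = S.ca x + 2 * m + 1 ∨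
      S.ca p = S.ca x + 2 * m - 1 → Av (S.nu (S.col d)) W p := by
    intro d p hp
    apply av_col
    intro w hw
    have : (S.ca w).natAbs ≤ Ma := hMa w hw
    omega
  obtain ⟨ν', g1, g2, g3, w, g4, g5⟩ := gadget (G := G) (ν0 := S.nu) hν hag'
    (B := B) (fun t ht => Or.inr ht) (c := S.row c) (e1 := S.col d1) (e2 := S.col d2)
    (c' := S.row c') (S.rc c d1).symm (S.rc c d2).symm hne (S.rc c' d1) (S.rc c' d2)
    (P := X) (P1 := P1) (Pb := S.b X) (P1b := S.b P1) (Q := Y) (Q1 := Q1) (Qb := S.b Y)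
    (Q1b := S.b Q1) (by rw [hP1, inv_nu]) (S.row_b c X) rfl (by rw [S.row_b, hQ1, nu_inv])
    v1 v2 v3
    (cbne (by rw [S.cb_b]; omega)) (cbne (by rw [S.cb_b]; omega))
    (nf _ _ fP1 (Fam.refl _)) (nf _ _ fP1 (fQ1.trans (fam_b c _)))
    (nf _ _ (fam_b c _) (Fam.refl _)) (nf _ _ (fam_b c _) (fQ1.trans (fam_b c _)))
    (cane (by omega)) (cane (by omega))
    (by
      intro he
      have hnu : S.nu (S.col d2) = S.nu (S.col d1) := by rw [he]
      refine ⟨cane (by omega), ?_, ?_, cane (by omega)⟩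
      · intro h
        have h1 : S.nu (S.col d1) Q1 = S.b Q1 ∨ S.nu (S.col d1) (S.b Q1) = Q1 := by
          rw [← hnu]
          rcases v2 with ⟨-, h⟩ | ⟨-, h⟩
          · exact Or.inr h
          · exact Or.inl h
        have h2 := S.c_once d1 P1 Q1 hd1 h1 (by omega) h
        exact nf P1 Q1 fP1 fQ1 (h2 ▸ Perm.SameCycle.refl _ _)
      · intro h
        have h0 : S.nu (S.col d1) X = S.b X ∨ S.nu (S.col d1) (S.b X) = X := by
          rcases v1 with ⟨-, h⟩ | ⟨-, h⟩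
          · exact Or.inr h
          · exact Or.inl h
        have h1 : S.nu (S.col d1) Y = S.b Y ∨ S.nu (S.col d1) (S.b Y) = Y := by
          rw [← hnu]
          exact hd2
        have h2 := S.c_once d1 X Y h0 h1 (by omega) h
        exact nf X Y (Fam.refl _) (Fam.refl _) (h2 ▸ Perm.SameCycle.refl _ _))
    (cbne (by rw [S.cb_b]; omega))
    (avR _ _ (by omega)) (avR _ _ (by rw [S.cb_b]; omega)) (avR _ _ (by omega))
    (avR _ _ (by rw [S.cb_b]; omega))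
    (avC _ _ (by omega)) (avC _ _ (by omega)) (avC _ _ (by omega)) (avC _ _ (by omega))
    (avR _ _ (by omega)) (avR _ _ (by rw [S.cb_b]; omega))
  exact ⟨ν', g1, g2, g3, w, S.b X, S.b Q1, famX.trans (fam_b c _),
    famY.trans (fQ1.trans (fam_b c _)), g4, g5⟩

theorem lnk_gad' (c : K1) {x y : V} (h : S.Gad c x y) (hF : ¬ Fam S.nu (S.rsg c) (S.row c) x y) :
    Lnk G S.nu (S.rsg c) (S.row c) y x := by
  have h1 : ¬ Fam S.nu (S.rsg c) (S.row c) (S.b y) (S.b x) := fun h' =>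
    hF (((fam_b c y).trans (h'.trans (fam_b c x).symm)).symm)
  exact (lnk_gad (G := G) c (gad_flip c h) h1).congr (fam_b c y).symm (fam_b c x).symm

/-- all elementary links are usable -/
theorem rel_of_rowRel (c : K1) {x y : V} (h : S.RowRel c x y) :
    Relation.ReflTransGen (fun x y => Near S.nu (S.rsg c) (S.row c) x y ∨
      Lnk G S.nu (S.rsg c) (S.row c) x y) x y := by
  have up : ∀ x y, Fam S.nu (S.rsg c) (S.row c) x y → Relation.ReflTransGen (fun x y =>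
      Near S.nu (S.rsg c) (S.row c) x y ∨ Lnk G S.nu (S.rsg c) (S.row c) x y) x y :=
    fun x y h => Relation.ReflTransGen.mono (fun _ _ h => Or.inl h) x y h
  rcases h with h | (rfl | rfl) | (h | h) | (h | h)
  · exact up _ _ (Fam.of_cycle h)
  · exact up _ _ (fam_b c _)
  · exact up _ _ (fam_b c _).symm
  · exact up _ _ (Fam.of_near (near_direct c h))
  · exact up _ _ (Fam.of_near (near_direct c h).symm)
  · by_cases hF : Fam S.nu (S.rsg c) (S.row c) x y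
    · exact up _ _ hF
    · exact Relation.ReflTransGen.single (Or.inr (lnk_gad c h hF))
  · by_cases hF : Fam S.nu (S.rsg c) (S.row c) y x
    · exact up _ _ hF.symm
    · exact Relation.ReflTransGen.single (Or.inr (lnk_gad' c h hF))

theorem fresh (c : K1) (x : V) (s : Bool) {W : Set V} (hW : W.Finite) :
    ∃ r, Fam S.nu (S.rsg c) (S.row c) x r ∧ S.rsg c r = s ∧
      ∀ k : ℤ, (S.nu (S.row c) ^ k) r ∉ W := by
  obtain ⟨M, hM⟩ := S.swap.ca_bound hW
  have hcb : ∀ k : ℤ, S.cb ((S.b ^ k) x) = S.cb x + k := by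
    intro k
    have h : ∀ x, S.cb (S.b⁻¹ x) = S.cb x - 1 := by
      intro x
      have h2 := S.cb_b (S.b⁻¹ x)
      rw [b_inv] at h2
      omega
    induction k using Int.induction_on with
    | zero => simp
    | succ n ih =>
      rw [add_comm, zpow_apply_add, zpow_one, S.cb_b, ih]
      ring
    | pred n ih =>
      rw [sub_eq_neg_add, zpow_apply_add, zpow_neg_one, h, ih]
      ring
  set m : ℕ := M + (S.cb x).natAbs + 1 with hm
  have av : ∀ k : ℤ, (m : ℤ) ≤ k → Av (S.nu (S.row c)) W ((S.b ^ k) x) := by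
    intro k hk
    apply av_row
    intro w hw
    have : (S.cb w).natAbs ≤ M := hM w hw
    rw [hcb]
    omega
  by_cases h : S.rsg c ((S.b ^ (m : ℤ)) x) = s
  · exact ⟨_, fam_bz c _ x, h, av m le_rfl⟩
  · refine ⟨(S.b ^ ((m : ℤ) + 1)) x, fam_bz c _ x, ?_, av _ (by omega)⟩
    rw [add_comm, zpow_apply_add, zpow_one, S.rsg_b]
    revert h
    cases S.rsg c ((S.b ^ (m : ℤ)) x) <;> cases s <;> simp

theorem lift (c : K1) (x y : V) (h : Relation.ReflTransGen (S.RowRel c) x y) :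
    Relation.ReflTransGen (fun x y =>
      Near S.nu (S.rsg c) (S.row c) x y ∨ Lnk G S.nu (S.rsg c) (S.row c) x y) x y := by
  induction h with
  | refl => exact Relation.ReflTransGen.refl
  | tail _ hbc ih => exact ih.trans (rel_of_rowRel c hbc)

/-- the merging theorem for two families of colours -/
theorem main [Countable V] [Nonempty V] [Countable D] (S : Bi V K1 K2 D) (h0 : Good G S.nu S.nu)
    (cover : ∀ e : D, (∃ c, S.row c = e) ∨ ∃ d, S.col d = e) (sgn : D → V → Bool)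
    (hr : ∀ c, sgn (S.row c) = S.rsg c) (hc : ∀ d, sgn (S.col d) = S.csg d)
    (hrow : ∀ c x y, Relation.ReflTransGen (S.RowRel c) x y)
    (hcol : ∀ d x y, Relation.ReflTransGen (S.swap.RowRel d) x y) :
    ∃ f : D → ℤ → V, (∀ d, Function.Bijective (f d)) ∧
      (∀ d n, G.Adj (f d n) (f d (n + 1))) ∧
      ∀ e ∈ G.edgeSet, ∃! p : D × ℤ, s(f p.1 p.2, f p.1 (p.2 + 1)) = e := by
  refine merge_all h0 sgn ?_ ?_ ?_
  · intro e
    rcases cover e with ⟨c, rfl⟩ | ⟨d, rfl⟩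
    · rw [hr]; exact rsg_cycle c
    · rw [hc]; exact rsg_cycle (S := S.swap) d
  · intro e
    rcases cover e with ⟨c, rfl⟩ | ⟨d, rfl⟩
    · rw [hr]
      intro x s W hW
      exact fresh c x s hW
    · rw [hc]
      intro x s W hW
      exact fresh (S := S.swap) d x s hW
  · intro e
    rcases cover e with ⟨c, rfl⟩ | ⟨d, rfl⟩
    · rw [hr]
      intro x y
      exact lift (S := S) c x y (hrow c x y)
    · rw [hc]
      intro x y
      exact lift (S := S.swap) d x y (hcol d x y)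

end Bi

end Pool.Agent.Helper39.HD
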