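import Pool.Agent.Helper39.HD2.State

/-!
# The concrete two-family state
-/

namespace Pool.Agent.Helper39.HD

open Equiv Block

theorem uniq_left {A B : Type*} {p : A × Bool → Prop} {q : (A ⊕ B) × Bool → Prop}
    (h : ∃! x, p x) (hp : ∀ a β, q (Sum.inl a, β) ↔ p (a, β)) (hq : ∀ b β, ¬ q (Sum.inr b, β)) :
    ∃! x, q x := by
  obtain ⟨⟨a, β⟩, h1, h2⟩ := h
  refine ⟨(Sum.inl a, β), (hp a β).2 h1, ?_⟩
  rintro ⟨a' | b, β'⟩ h3
  · have := h2 (a', β') ((hp a' β').1 h3)
    simp only [Prod.mk.injEq] at this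
    obtain ⟨rfl, rfl⟩ := this
    rfl
  · exact absurd h3 (hq b β')

theorem uniq_right {A B : Type*} {p : B × Bool → Prop} {q : (A ⊕ B) × Bool → Prop}
    (h : ∃! x, p x) (hp : ∀ b β, q (Sum.inr b, β) ↔ p (b, β)) (hq : ∀ a β, ¬ q (Sum.inl a, β)) :
    ∃! x, q x := by
  obtain ⟨⟨b, β⟩, h1, h2⟩ := h
  refine ⟨(Sum.inr b, β), (hp b β).2 h1, ?_⟩
  rintro ⟨a' | b', β'⟩ h3
  · exact absurd h3 (hq a' β')
  · have := h2 (b', β') ((hp b' β').1 h3)
    simp only [Prod.mk.injEq] at this
    obtain ⟨rfl, rfl⟩ := this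
    rfl

namespace Block

variable {Γ L K : Type*} [AddCommGroup Γ] {a b : Γ} {lab : L → Γ}
  {D : ForestData Γ L K (fun l => Equiv.addRight (lab l))} {lev : Γ → Bool} (H : Hyp D a b lev)

theorem Hyp.uniq_a (hla : ∀ l, lab l ≠ a) (hla' : ∀ l, lab l ≠ -a) (h2a : a ≠ -a) (x : Γ) :
    ∃! p : K × Bool, if p.2 then H.U p.1 x = x + a else H.U p.1 (x + a) = x := by
  obtain ⟨k, hk, hu⟩ := H.U_none_unique hla hla' x
  refine ⟨(k, true), by simpa using hk, ?_⟩
  rintro ⟨k', _ | _⟩ h
  · exfalso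
    simp only [Bool.false_eq_true, if_false] at h
    rcases H.U_cases k' (x + a) with h1 | ⟨l, h1, -⟩
    · rw [h1, add_assoc] at h
      have h3 : a + a = 0 := by simpa using h
      exact h2a (eq_neg_of_add_eq_zero_left h3)
    · rw [h1, add_assoc] at h
      have h3 : a + step lab l = 0 := by simpa using h
      rcases l with ⟨l, _ | _⟩
      · simp only [step, Bool.false_eq_true, if_false] at h3
        exact hla l (by rw [← sub_eq_add_neg] at h3; exact (sub_eq_zero.1 h3).symm)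
      · simp only [step, if_true] at h3
        exact hla' l (eq_neg_of_add_eq_zero_right h3)
  · simp only [if_true] at h
    rw [hu k' h]

theorem Hyp.not_other {g : Γ} (h1 : g ≠ a) (h1' : g ≠ -a) (h2 : ∀ l, lab l ≠ g)
    (h2' : ∀ l, lab l ≠ -g) (k : K) (x : Γ) : H.U k x ≠ x + g ∧ H.U k (x + g) ≠ x := by
  constructor
  · intro h
    rcases H.U_cases k x with h3 | ⟨⟨l, _ | _⟩, h3, -⟩
    · rw [h3] at h
      exact h1 (add_left_cancel h).symm
    · rw [h3] at h
      have h4 := add_left_cancel h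
      simp only [step, Bool.false_eq_true, if_false] at h4
      exact h2' l (by rw [← h4, neg_neg])
    · rw [h3] at h
      have h4 := add_left_cancel h
      simp only [step, if_true] at h4
      exact h2 l h4
  · intro h
    rcases H.U_cases k (x + g) with h3 | ⟨⟨l, _ | _⟩, h3, -⟩
    · rw [h3, add_assoc] at h
      have h4 : g + a = 0 := by simpa using h
      exact h1' (eq_neg_of_add_eq_zero_left h4)
    · rw [h3, add_assoc] at h
      have h4 : g + step lab (l, false) = 0 := by simpa using h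
      simp only [step, Bool.false_eq_true, if_false] at h4
      exact h2 l (by rw [← sub_eq_add_neg] at h4; exact (sub_eq_zero.1 h4).symm)
    · rw [h3, add_assoc] at h
      have h4 : g + step lab (l, true) = 0 := by simpa using h
      simp only [step, if_true] at h4
      exact h2' l (eq_neg_of_add_eq_zero_right h4)

end Block

/-- forest data for rows and for columns, with signs -/
structure D2Data (T P L K1 K2 : Type*) [AddCommGroup T] (lp : P → T) (ll : L → T) where
  F1 : ForestData T P K1 (fun p => Equiv.addRight (lp p))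
  F2 : ForestData T L K2 (fun l => Equiv.addRight (ll l))
  th : K1 → T → Bool
  rh : K2 → T → Bool
  hth : ∀ c x l, F1.nx c x = some l → th c (x + step lp l) = th c x
  hrh : ∀ d x l, F2.nx d x = some l → rh d (x + step ll l) = rh d x

namespace D2Data

variable {T P L K1 K2 : Type*} [AddCommGroup T] {lp : P → T} {ll : L → T}

/-- exchange of rows and columns -/
def swap (X : D2Data T P L K1 K2 lp ll) : D2Data T L P K2 K1 ll lp :=
  ⟨X.F2, X.F1, X.rh, X.th, X.hrh, X.hth⟩

variable (X : D2Data T P L K1 K2 lp ll)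

theorem th_dd (β : Bool) (c : K1) (x : T) (l : P × Bool) (h : dd X.F1 β c x = some l) :
    X.th c (x + step lp l) = X.th c x := by
  cases β
  · have h1 := (dd_inv X.F1 false c x l).1 h
    have h2 := X.hth c _ _ h1
    rw [step_flp, add_neg_cancel_right] at h2
    exact h2.symm
  · exact X.hth c x l h

/-- the signs of rows -/
def rsg (c : K1) (x : T × ℤ × ℤ) : Bool := xor (X.th c x.1) (levB x)

/-- the signs of columns -/
def csg (d : K2) (x : T × ℤ × ℤ) : Bool := xor (X.rh d x.1) (levA x)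

theorem rsg_U (c : K1) (x : T × ℤ × ℤ) : X.rsg c ((hypA X.F1).U c x) = X.rsg c x := by
  rcases (hypA X.F1).U_cases c x with h | ⟨l, h, h'⟩
  · rw [h]
    simp [rsg, gA, levB]
  · rw [h, step_emb]
    rw [pb_dd] at h'
    have := X.th_dd _ _ _ _ h'
    simp [rsg, levB, this]

theorem csg_U (d : K2) (x : T × ℤ × ℤ) : X.csg d ((hypB X.F2).U d x) = X.csg d x := by
  rcases (hypB X.F2).U_cases d x with h | ⟨l, h, h'⟩
  · rw [h]
    simp [csg, gB, levA]
  · rw [h, step_emb]
    rw [pb_dd] at h'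
    have := X.swap.th_dd _ _ _ _ h'
    change X.rh d (x.1 + step ll l) = X.rh d x.1 at this
    simp [csg, levA, this]

theorem rsg_a (c : K1) (x : T × ℤ × ℤ) : X.rsg c (x + gA T) = X.rsg c x := by
  simp [rsg, gA, levB]

theorem rsg_b (c : K1) (x : T × ℤ × ℤ) : X.rsg c (x + gB T) = !X.rsg c x := by
  have h1 := (hypB X.F2).lev_a x
  have h2 : (x + gB T).1 = x.1 := by simp [gB]
  unfold rsg
  rw [h1, h2]
  cases X.th c x.1 <;> cases levB x <;> rfl

theorem csg_b (d : K2) (x : T × ℤ × ℤ) : X.csg d (x + gB T) = X.csg d x := by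
  simp [csg, gB, levA]

theorem csg_a (d : K2) (x : T × ℤ × ℤ) : X.csg d (x + gA T) = !X.csg d x := by
  have h1 := (hypA X.F1).lev_a x
  have h2 : (x + gA T).1 = x.1 := by simp [gA]
  unfold csg
  rw [h1, h2]
  cases X.rh d x.1 <;> cases levA x <;> rfl

/-- the permutation of a row -/
def rowP (c : K1) : Perm (T × ℤ × ℤ) := tw ((hypA X.F1).U c) (X.rsg c) (X.rsg_U c)

/-- the permutation of a column -/
def colP (d : K2) : Perm (T × ℤ × ℤ) := tw ((hypB X.F2).U d) (X.csg d) (X.csg_U d)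

theorem embl_ne_a (lp : P → T) (p : P) : embl lp p ≠ gA T := by
  intro h
  have := congrArg (fun x : T × ℤ × ℤ => x.2.1) h
  simp [embl, gA] at this

theorem embl_ne_a' (lp : P → T) (p : P) : embl lp p ≠ -gA T := by
  intro h
  have := congrArg (fun x : T × ℤ × ℤ => x.2.1) h
  simp [embl, gA] at this

theorem embl_ne_b (lp : P → T) (p : P) : embl lp p ≠ gB T := by
  intro h
  have := congrArg (fun x : T × ℤ × ℤ => x.2.2) h
  simp [embl, gB] at this

theorem embl_ne_b' (lp : P → T) (p : P) : embl lp p ≠ -gB T := by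
  intro h
  have := congrArg (fun x : T × ℤ × ℤ => x.2.2) h
  simp [embl, gB] at this

theorem a_ne_neg : gA T ≠ -gA T := by
  intro h
  have := congrArg (fun x : T × ℤ × ℤ => x.2.1) h
  simp [gA] at this

theorem b_ne_neg : gB T ≠ -gB T := by
  intro h
  have := congrArg (fun x : T × ℤ × ℤ => x.2.2) h
  simp [gB] at this

theorem rowP_cases (c : K1) (x : T × ℤ × ℤ) : X.rowP c x = x + gA T ∨ X.rowP c x = x - gA T ∨
    ∃ l γ, X.rowP c x = x + (step lp l, 0, 0) ∧ dd X.F1 γ c x.1 = some l := by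
  rcases (hypA X.F1).tw_cases' (X.rsg_U c) x with h | h | ⟨l, γ, h, h'⟩
  · exact Or.inl h
  · exact Or.inr (Or.inl h)
  · refine Or.inr (Or.inr ⟨l, γ, ?_, by rwa [pb_dd] at h'⟩)
    rw [step_emb] at h
    exact h

theorem colP_cases (d : K2) (x : T × ℤ × ℤ) : X.colP d x = x + gB T ∨ X.colP d x = x - gB T ∨
    ∃ l γ, X.colP d x = x + (step ll l, 0, 0) ∧ dd X.F2 γ d x.1 = some l := by
  rcases (hypB X.F2).tw_cases' (X.csg_U d) x with h | h | ⟨l, γ, h, h'⟩
  · exact Or.inl h
  · exact Or.inr (Or.inl h)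
  · refine Or.inr (Or.inr ⟨l, γ, ?_, by rwa [pb_dd] at h'⟩)
    rw [step_emb] at h
    exact h

theorem rowP_add_iff (c : K1) (x : T × ℤ × ℤ) :
    X.rowP c x = x + gA T ↔ X.rsg c x = true ∧ dd X.F1 (levA x) c x.1 = none := by
  have := (hypA X.F1).tw_add_iff (X.rsg_U c) (embl_ne_a lp) (embl_ne_a' lp) a_ne_neg x
  rwa [pb_dd] at this

theorem rowP_sub_iff (c : K1) (x : T × ℤ × ℤ) :
    X.rowP c (x + gA T) = x ↔ X.rsg c x = false ∧ dd X.F1 (levA x) c x.1 = none := by
  have := (hypA X.F1).tw_sub_iff (X.rsg_U c) (embl_ne_a lp) (embl_ne_a' lp) a_ne_neg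
    (X.rsg_a c) x
  rwa [pb_dd] at this

theorem colP_add_iff (d : K2) (x : T × ℤ × ℤ) :
    X.colP d x = x + gB T ↔ X.csg d x = true ∧ dd X.F2 (levB x) d x.1 = none := by
  have := (hypB X.F2).tw_add_iff (X.csg_U d) (embl_ne_b ll) (embl_ne_b' ll) b_ne_neg x
  rwa [pb_dd] at this

theorem colP_sub_iff (d : K2) (x : T × ℤ × ℤ) :
    X.colP d (x + gB T) = x ↔ X.csg d x = false ∧ dd X.F2 (levB x) d x.1 = none := by
  have := (hypB X.F2).tw_sub_iff (X.csg_U d) (embl_ne_b ll) (embl_ne_b' ll) b_ne_neg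
    (X.csg_b d) x
  rwa [pb_dd] at this

/-- two ends of a path in the same direction are equal -/
theorem row_once (c : K1) (x y : T × ℤ × ℤ) (hx : dd X.F1 (levA x) c x.1 = none)
    (hy : dd X.F1 (levA y) c y.1 = none) (h1 : x.2.1 = y.2.1)
    (h : (X.rowP c).SameCycle x y) (h2 : x.2.2 = y.2.2) : x = y := by
  obtain ⟨E, e1, e2⟩ := exists_end X.F1 (levA x) c
  have hE : ∀ z, E (X.rowP c z).1 = E z.1 := by
    intro z
    rcases X.rowP_cases c z with h | h | ⟨l, γ, h, h'⟩
    · rw [h]; simp [gA]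
    · rw [h]; simp [gA]
    · rw [h]
      exact e1 _ _ _ h'
  have hE' : ∀ z, E ((X.rowP c)⁻¹ z).1 = E z.1 := by
    intro z
    have := hE ((X.rowP c)⁻¹ z)
    rw [show X.rowP c ((X.rowP c)⁻¹ z) = z from (X.rowP c).apply_symm_apply z] at this
    exact this.symm
  have hEn : ∀ n : ℤ, ∀ z, E ((X.rowP c ^ n) z).1 = E z.1 := by
    intro n z
    induction n using Int.induction_on with
    | zero => simp
    | succ n ih => rw [add_comm, zpow_apply_add, zpow_one, hE, ih]
    | pred n ih => rw [sub_eq_neg_add, zpow_apply_add, zpow_neg_one, hE', ih]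
  obtain ⟨n, hn⟩ := h
  have h3 : E x.1 = E y.1 := by rw [← hn, hEn]
  have h4 : levA y = levA x := by simp [levA, h1]
  rw [e2 _ hx, e2 _ (by rw [← h4]; exact hy)] at h3
  exact Prod.ext h3 (Prod.ext h1 h2)

theorem col_once (d : K2) (x y : T × ℤ × ℤ) (hx : dd X.F2 (levB x) d x.1 = none)
    (hy : dd X.F2 (levB y) d y.1 = none) (h1 : x.2.2 = y.2.2)
    (h : (X.colP d).SameCycle x y) (h2 : x.2.1 = y.2.1) : x = y := by
  obtain ⟨E, e1, e2⟩ := exists_end X.F2 (levB x) d
  have hE : ∀ z, E (X.colP d z).1 = E z.1 := by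
    intro z
    rcases X.colP_cases d z with h | h | ⟨l, γ, h, h'⟩
    · rw [h]; simp [gB]
    · rw [h]; simp [gB]
    · rw [h]
      exact e1 _ _ _ h'
  have hE' : ∀ z, E ((X.colP d)⁻¹ z).1 = E z.1 := by
    intro z
    have := hE ((X.colP d)⁻¹ z)
    rw [show X.colP d ((X.colP d)⁻¹ z) = z from (X.colP d).apply_symm_apply z] at this
    exact this.symm
  have hEn : ∀ n : ℤ, ∀ z, E ((X.colP d ^ n) z).1 = E z.1 := by
    intro n z
    induction n using Int.induction_on with
    | zero => simp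
    | succ n ih => rw [add_comm, zpow_apply_add, zpow_one, hE, ih]
    | pred n ih => rw [sub_eq_neg_add, zpow_apply_add, zpow_neg_one, hE', ih]
  obtain ⟨n, hn⟩ := h
  have h3 : E x.1 = E y.1 := by rw [← hn, hEn]
  have h4 : levB y = levB x := by simp [levB, h1]
  rw [e2 _ hx, e2 _ (by rw [← h4]; exact hy)] at h3
  exact Prod.ext h3 (Prod.ext h2 h1)

theorem rowP_cb (c : K1) (x : T × ℤ × ℤ) : (X.rowP c x).2.2 = x.2.2 := by
  rcases X.rowP_cases c x with h | h | ⟨l, γ, h, h'⟩ <;> rw [h] <;> simp [gA]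

theorem colP_ca (d : K2) (x : T × ℤ × ℤ) : (X.colP d x).2.1 = x.2.1 := by
  rcases X.colP_cases d x with h | h | ⟨l, γ, h, h'⟩ <;> rw [h] <;> simp [gB]

/-- the two-family state -/
def bi : Bi (T × ℤ × ℤ) K1 K2 (K1 ⊕ K2) where
  row := Sum.inl
  col := Sum.inr
  rc := fun c d => Sum.inl_ne_inr
  nu := Sum.elim X.rowP X.colP
  a := Equiv.addRight (gA T)
  b := Equiv.addRight (gB T)
  ca := fun x => x.2.1
  cb := fun x => x.2.2
  ab := fun x => add_right_comm _ _ _
  ca_a := fun x => by simp [gA]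
  ca_b := fun x => by simp [gB]
  cb_a := fun x => by simp [gA]
  cb_b := fun x => by simp [gB]
  cb_row := fun c x => X.rowP_cb c x
  ca_col := fun d x => X.colP_ca d x
  row_b := fun c x => (hypA X.F1).tw_flip (X.rsg_U c) (X.rsg_b c) x
  col_a := fun d x => (hypB X.F2).tw_flip (X.csg_U d) (X.csg_a d) x
  row_a2 := fun c x => (hypA X.F1).tw_a2 (X.rsg_U c) (X.rsg_a c) x
  col_b2 := fun d x => (hypB X.F2).tw_a2 (X.csg_U d) (X.csg_b d) x
  ga := fun x => by
    obtain ⟨c, hc, -⟩ := dd_none X.F1 (levA x) x.1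
    refine ⟨c, ?_⟩
    cases h : X.rsg c x
    · exact Or.inr ((X.rowP_sub_iff c x).2 ⟨h, hc⟩)
    · exact Or.inl ((X.rowP_add_iff c x).2 ⟨h, hc⟩)
  gb := fun x => by
    obtain ⟨d, hd, -⟩ := dd_none X.F2 (levB x) x.1
    refine ⟨d, ?_⟩
    cases h : X.csg d x
    · exact Or.inr ((X.colP_sub_iff d x).2 ⟨h, hd⟩)
    · exact Or.inl ((X.colP_add_iff d x).2 ⟨h, hd⟩)
  rstep := fun c x => by
    rcases X.rowP_cases c x with h | h | ⟨l, γ, h, -⟩
    · exact Or.inr (Or.inl h)
    · refine Or.inr (Or.inr ?_)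
      change X.rowP c x + gA T = x
      rw [h, sub_add_cancel]
    · left
      change (X.rowP c x).2.1 = x.2.1
      rw [h]
      simp
  cstep := fun d x => by
    rcases X.colP_cases d x with h | h | ⟨l, γ, h, -⟩
    · exact Or.inr (Or.inl h)
    · refine Or.inr (Or.inr ?_)
      change X.colP d x + gB T = x
      rw [h, sub_add_cancel]
    · left
      change (X.colP d x).2.2 = x.2.2
      rw [h]
      simp
  rsg := X.rsg
  csg := X.csg
  rsg_nu := fun c x => tw_const (h := X.rsg_U c) x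
  csg_nu := fun d x => tw_const (h := X.csg_U d) x
  rsg_b := X.rsg_b
  csg_a := X.csg_a
  rtr := fun c x => (hypA X.F1).tw_tr (X.rsg_U c) x
  ctr := fun d x => (hypB X.F2).tw_tr (X.csg_U d) x
  rsg_t := fun c x h => ((X.rowP_add_iff c x).1 h).1
  csg_t := fun d x h => ((X.colP_add_iff d x).1 h).1
  rsg_f := fun c x h => ((X.rowP_sub_iff c x).1 h).1
  csg_f := fun d x h => ((X.colP_sub_iff d x).1 h).1
  r_once := fun c x y hx hy h1 h => by
    have hcb : ∀ n : ℤ, ((X.rowP c ^ n) x).2.2 = x.2.2 := by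
      intro n
      have h0 : ∀ z, ((X.rowP c)⁻¹ z).2.2 = z.2.2 := by
        intro z
        have := X.rowP_cb c ((X.rowP c)⁻¹ z)
        rw [show X.rowP c ((X.rowP c)⁻¹ z) = z from (X.rowP c).apply_symm_apply z] at this
        exact this.symm
      induction n using Int.induction_on with
      | zero => simp
      | succ n ih => rw [add_comm, zpow_apply_add, zpow_one, X.rowP_cb, ih]
      | pred n ih => rw [sub_eq_neg_add, zpow_apply_add, zpow_neg_one, h0, ih]
    refine X.row_once c x y ?_ ?_ h1 h ?_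
    · rcases hx with hx | hx
      · exact ((X.rowP_add_iff c x).1 hx).2
      · exact ((X.rowP_sub_iff c x).1 hx).2
    · rcases hy with hy | hy
      · exact ((X.rowP_add_iff c y).1 hy).2
      · exact ((X.rowP_sub_iff c y).1 hy).2
    · obtain ⟨n, hn⟩ := h
      rw [← hn]
      exact (hcb n).symm
  c_once := fun d x y hx hy h1 h => by
    have hcb : ∀ n : ℤ, ((X.colP d ^ n) x).2.1 = x.2.1 := by
      intro n
      have h0 : ∀ z, ((X.colP d)⁻¹ z).2.1 = z.2.1 := by
        intro z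
        have := X.colP_ca d ((X.colP d)⁻¹ z)
        rw [show X.colP d ((X.colP d)⁻¹ z) = z from (X.colP d).apply_symm_apply z] at this
        exact this.symm
      induction n using Int.induction_on with
      | zero => simp
      | succ n ih => rw [add_comm, zpow_apply_add, zpow_one, X.colP_ca, ih]
      | pred n ih => rw [sub_eq_neg_add, zpow_apply_add, zpow_neg_one, h0, ih]
    refine X.col_once d x y ?_ ?_ h1 h ?_
    · rcases hx with hx | hx
      · exact ((X.colP_add_iff d x).1 hx).2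
      · exact ((X.colP_sub_iff d x).1 hx).2
    · rcases hy with hy | hy
      · exact ((X.colP_add_iff d y).1 hy).2
      · exact ((X.colP_sub_iff d y).1 hy).2
    · obtain ⟨n, hn⟩ := h
      rw [← hn]
      exact (hcb n).symm

end D2Data

end Pool.Agent.Helper39.HD
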