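import Pool.Agent.Helper39.HD2.Conc

/-!
# Connectivity and the theorem for the product with `ℤ × ℤ`
-/

namespace Pool.Agent.Helper39.HD

open Equiv Block

/-- the generators of the product -/
def gens {T P L : Type*} [AddCommGroup T] (lp : P → T) (ll : L → T) :
    Option P ⊕ Option L → T × ℤ × ℤ
  | Sum.inl none => gA T
  | Sum.inl (some p) => embl lp p
  | Sum.inr none => gB T
  | Sum.inr (some l) => embl ll l

namespace D2Data

variable {T P L K1 K2 : Type*} [AddCommGroup T] {lp : P → T} {ll : L → T}
  (X : D2Data T P L K1 K2 lp ll)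

theorem embl_inj {lp : P → T} {ll : L → T} {p : P} {l : L} (h : embl lp p = embl ll l) :
    lp p = ll l := congrArg Prod.fst h

theorem embl_inj' {lp : P → T} {ll : L → T} {p : P} {l : L} (h : embl lp p = -embl ll l) :
    lp p = -ll l := congrArg Prod.fst h

theorem gens_spec (hinj : Function.Injective (Sum.elim lp ll))
    (hneg : ∀ i j, Sum.elim lp ll i ≠ -Sum.elim lp ll j) :
    Function.Injective (gens lp ll) ∧ (∀ i j, gens lp ll i ≠ -gens lp ll j) ∧
      ∀ i, gens lp ll i ≠ 0 := by
  have ab : gA T ≠ gB T := by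
    intro h
    have := congrArg (fun x : T × ℤ × ℤ => x.2.1) h
    simp [gA, gB] at this
  have ab' : gA T ≠ -gB T := by
    intro h
    have := congrArg (fun x : T × ℤ × ℤ => x.2.1) h
    simp [gA, gB] at this
  have ba' : gB T ≠ -gA T := by
    intro h
    have := congrArg (fun x : T × ℤ × ℤ => x.2.1) h
    simp [gA, gB] at this
  refine ⟨?_, ?_, ?_⟩
  · rintro ((_ | p) | (_ | l)) ((_ | p') | (_ | l')) h
    · rfl
    · exact absurd h.symm (embl_ne_a lp p')
    · exact absurd h ab
    · exact absurd h.symm (embl_ne_a ll l')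
    · exact absurd h (embl_ne_a lp p)
    · have := hinj (a₁ := Sum.inl p) (a₂ := Sum.inl p') (embl_inj h)
      rw [Sum.inl.inj this]
    · exact absurd h (embl_ne_b lp p)
    · have := hinj (a₁ := Sum.inl p) (a₂ := Sum.inr l') (embl_inj h)
      simp at this
    · exact absurd h.symm ab
    · exact absurd h.symm (embl_ne_b lp p')
    · rfl
    · exact absurd h.symm (embl_ne_b ll l')
    · exact absurd h (embl_ne_a ll l)
    · have := hinj (a₁ := Sum.inr l) (a₂ := Sum.inl p') (embl_inj h)
      simp at this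
    · exact absurd h (embl_ne_b ll l)
    · have := hinj (a₁ := Sum.inr l) (a₂ := Sum.inr l') (embl_inj h)
      rw [Sum.inr.inj this]
  · rintro ((_ | p) | (_ | l)) ((_ | p') | (_ | l')) h
    · exact a_ne_neg h
    · exact embl_ne_a' lp p' (by rw [show gA T = -embl lp p' from h, neg_neg])
    · exact ab' h
    · exact embl_ne_a' ll l' (by rw [show gA T = -embl ll l' from h, neg_neg])
    · exact embl_ne_a' lp p h
    · exact hneg (Sum.inl p) (Sum.inl p') (embl_inj' h)
    · exact embl_ne_b' lp p h
    · exact hneg (Sum.inl p) (Sum.inr l') (embl_inj' h)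
    · exact ba' h
    · exact embl_ne_b' lp p' (by rw [show gB T = -embl lp p' from h, neg_neg])
    · exact b_ne_neg h
    · exact embl_ne_b' ll l' (by rw [show gB T = -embl ll l' from h, neg_neg])
    · exact embl_ne_a' ll l h
    · exact hneg (Sum.inr l) (Sum.inl p') (embl_inj' h)
    · exact embl_ne_b' ll l h
    · exact hneg (Sum.inr l) (Sum.inr l') (embl_inj' h)
  · rintro ((_ | p) | (_ | l)) h
    · have := congrArg (fun x : T × ℤ × ℤ => x.2.1) h
      simp [gA, gens] at this
    · have h1 : lp p = 0 := congrArg Prod.fst h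
      exact hneg (Sum.inl p) (Sum.inl p) (by simp [h1])
    · have := congrArg (fun x : T × ℤ × ℤ => x.2.2) h
      simp [gB, gens] at this
    · have h1 : ll l = 0 := congrArg Prod.fst h
      exact hneg (Sum.inr l) (Sum.inr l) (by simp [h1])

theorem good (hinj : Function.Injective (Sum.elim lp ll))
    (hneg : ∀ i j, Sum.elim lp ll i ≠ -Sum.elim lp ll j) :
    Good (SimpleGraph.circulantGraph (Set.range (gens lp ll))) X.bi.nu X.bi.nu := by
  obtain ⟨g1, g2, g3⟩ := gens_spec hinj hneg
  let U' : K1 ⊕ K2 → Perm (T × ℤ × ℤ) := Sum.elim (hypA X.F1).U (hypB X.F2).U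
  have n0 : gens lp ll (Sum.inl none) = gA T := rfl
  have n1 : gens lp ll (Sum.inr none) = gB T := rfl
  have hinj1 : Function.Injective (embl lp) := by
    intro p p' h
    have := hinj (a₁ := Sum.inl p) (a₂ := Sum.inl p') (embl_inj h)
    exact Sum.inl.inj this
  have hinj2 : Function.Injective (embl ll) := by
    intro p p' h
    have := hinj (a₁ := Sum.inr p) (a₂ := Sum.inr p') (embl_inj h)
    exact Sum.inr.inj this
  have hneg1 : ∀ p p', embl lp p ≠ -embl lp p' := fun p p' =>
    g2 (Sum.inl (some p)) (Sum.inl (some p'))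
  have hneg2 : ∀ p p', embl ll p ≠ -embl ll p' := fun p p' =>
    g2 (Sum.inr (some p)) (Sum.inr (some p'))
  obtain ⟨e1, e2⟩ := edge_good U' (gens lp ll) g1 g2 g3 (by
    rintro (c | d) x
    · rcases (hypA X.F1).U_cases c x with h | ⟨⟨p, _ | _⟩, h, -⟩
      · exact ⟨Sum.inl none, Or.inl h⟩
      · refine ⟨Sum.inl (some p), Or.inr ?_⟩
        change x = (hypA X.F1).U c x + embl lp p
        rw [h]
        simp [step]
      · exact ⟨Sum.inl (some p), Or.inl h⟩
    · rcases (hypB X.F2).U_cases d x with h | ⟨⟨p, _ | _⟩, h, -⟩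
      · exact ⟨Sum.inr none, Or.inl h⟩
      · refine ⟨Sum.inr (some p), Or.inr ?_⟩
        change x = (hypB X.F2).U d x + embl ll p
        rw [h]
        simp [step]
      · exact ⟨Sum.inr (some p), Or.inl h⟩) (by
    intro x j
    have hrow : ∀ {g : T × ℤ × ℤ}, g = gB T ∨ (∃ l, g = embl ll l) → ∀ (k : K1) (β : Bool),
        ¬ (if β then (hypA X.F1).U k x = x + g else (hypA X.F1).U k (x + g) = x) := by
      intro g hg k β h
      have key : (hypA X.F1).U k x ≠ x + g ∧ (hypA X.F1).U k (x + g) ≠ x := by
        rcases hg with rfl | ⟨l, rfl⟩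
        · refine (hypA X.F1).not_other ?_ ?_ (embl_ne_b lp) (embl_ne_b' lp) k x
          · exact fun h => g1.ne (a₁ := Sum.inr none) (a₂ := Sum.inl none) (by simp) h
          · exact g2 (Sum.inr none) (Sum.inl none)
        · refine (hypA X.F1).not_other (embl_ne_a ll l) (embl_ne_a' ll l) ?_ ?_ k x
          · intro p h
            exact g1.ne (a₁ := Sum.inl (some p)) (a₂ := Sum.inr (some l)) (by simp) h
          · intro p
            exact g2 (Sum.inl (some p)) (Sum.inr (some l))
      cases β
      · exact key.2 (by simpa using h)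
      · exact key.1 (by simpa using h)
    have hcol : ∀ {g : T × ℤ × ℤ}, g = gA T ∨ (∃ l, g = embl lp l) → ∀ (k : K2) (β : Bool),
        ¬ (if β then (hypB X.F2).U k x = x + g else (hypB X.F2).U k (x + g) = x) := by
      intro g hg k β h
      have key : (hypB X.F2).U k x ≠ x + g ∧ (hypB X.F2).U k (x + g) ≠ x := by
        rcases hg with rfl | ⟨l, rfl⟩
        · refine (hypB X.F2).not_other ?_ ?_ (embl_ne_a ll) (embl_ne_a' ll) k x
          · exact fun h => g1.ne (a₁ := Sum.inl none) (a₂ := Sum.inr none) (by simp) h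
          · exact g2 (Sum.inl none) (Sum.inr none)
        · refine (hypB X.F2).not_other (embl_ne_b lp l) (embl_ne_b' lp l) ?_ ?_ k x
          · intro p h
            exact g1.ne (a₁ := Sum.inr (some p)) (a₂ := Sum.inl (some l)) (by simp) h
          · intro p
            exact g2 (Sum.inr (some p)) (Sum.inl (some l))
      cases β
      · exact key.2 (by simpa using h)
      · exact key.1 (by simpa using h)
    rcases j with (_ | p) | (_ | l)
    · exact uniq_left ((hypA X.F1).uniq_a (embl_ne_a lp) (embl_ne_a' lp) a_ne_neg x)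
        (fun a β => Iff.rfl) (fun b β => hcol (Or.inl rfl) b β)
    · exact uniq_left ((hypA X.F1).U_dart hinj1 hneg1 (embl_ne_a lp) (embl_ne_a' lp) x p)
        (fun a β => Iff.rfl) (fun b β => hcol (Or.inr ⟨p, rfl⟩) b β)
    · exact uniq_right ((hypB X.F2).uniq_a (embl_ne_b ll) (embl_ne_b' ll) b_ne_neg x)
        (fun a β => Iff.rfl) (fun b β => hrow (Or.inl rfl) b β)
    · exact uniq_right ((hypB X.F2).U_dart hinj2 hneg2 (embl_ne_b ll) (embl_ne_b' ll) x l)
        (fun a β => Iff.rfl) (fun b β => hrow (Or.inr ⟨l, rfl⟩) b β))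
  have key : ∃ π : Perm ((K1 ⊕ K2) × (T × ℤ × ℤ)), edge X.bi.nu = edge U' ∘ π := by
    refine ⟨Equiv.prodShear (Equiv.refl _) (fun d => match d with
      | Sum.inl c => twr ((hypA X.F1).U c) (X.rsg c) (X.rsg_U c)
      | Sum.inr d => twr ((hypB X.F2).U d) (X.csg d) (X.csg_U d)), ?_⟩
    funext ⟨d, x⟩
    rcases d with c | d
    · exact tw_edge x
    · exact tw_edge x
  obtain ⟨π, hπ⟩ := key
  refine ⟨?_, ?_, ?_, ⟨∅, Set.finite_empty, AgreeOn.refl _ _⟩⟩
  · rintro (c | d)
    · exact Bi.aper_row (S := X.bi) c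
    · exact Bi.aper_row (S := X.bi.swap) d
  · rw [hπ]; exact e1.comp π.injective
  · rw [hπ, π.surjective.range_comp, e2]

/-- the elementary links between points of `T` -/
def TRel (c : K1) (x y : T) : Prop :=
  (∃ γ l, dd X.F1 γ c x = some l ∧ y = x + step lp l) ∨
  (∃ l : L × Bool, y = x + step ll l ∧ X.th c x ≠ X.th c y ∧
    ∃ β, dd X.F1 β c x = none ∧ dd X.F1 β c y = none) ∨
  ∃ p : P × Bool, y = x + step lp p ∧ ∃ β γ, dd X.F1 β c x = none ∧ dd X.F1 γ c y = none ∧
    xor β (X.th c x) ≠ xor γ (X.th c y)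

theorem rowRel_symm {V K1 K2 D : Type*} {S : Bi V K1 K2 D} {c : K1} {x y : V}
    (h : S.RowRel c x y) : S.RowRel c y x := by
  rcases h with h | h | h | h
  · exact Or.inl h.symm
  · exact Or.inr (Or.inl h.symm)
  · exact Or.inr (Or.inr (Or.inl h.symm))
  · exact Or.inr (Or.inr (Or.inr h.symm))

theorem rtg_symm {V K1 K2 D : Type*} {S : Bi V K1 K2 D} {c : K1} {x y : V}
    (h : Relation.ReflTransGen (S.RowRel c) x y) : Relation.ReflTransGen (S.RowRel c) y x := by
  induction h with
  | refl => exact Relation.ReflTransGen.refl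
  | tail _ hbc ih => exact Relation.ReflTransGen.head (rowRel_symm hbc) ih

/-- twisted edges -/
theorem tw_edge_or {V : Type*} {f : Perm V} {s : V → Bool} {h : ∀ x, s (f x) = s x} {x y : V}
    (hxy : f x = y ∨ f y = x) : tw f s h x = y ∨ tw f s h y = x := by
  rcases hxy with rfl | rfl
  · cases hs : s x
    · right
      rw [tw_false (by rw [h, hs])]
      simp
    · left; rw [tw_true hs]
  · cases hs : s y
    · left
      rw [tw_false (by rw [h, hs])]
      simp
    · right; rw [tw_true hs]

theorem row_edge {γ : Bool} {c : K1} {x : T × ℤ × ℤ} {l : P × Bool}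
    (h : dd X.F1 γ c x.1 = some l) :
    X.rowP c x = x + (step lp l, 0, 0) ∨ X.rowP c (x + (step lp l, 0, 0)) = x := by
  apply tw_edge_or
  by_cases hγ : γ = levA x
  · left
    have h1 : dd (pb X.F1) (levA x) c x = some l := by rw [pb_dd, ← hγ]; exact h
    have := uf_some (a := gA T) h1
    rw [step_emb] at this
    exact this
  · right
    have hγ' : γ = !levA x := by revert hγ; cases γ <;> cases levA x <;> simp
    have h1 : dd (pb X.F1) (!levA x) c x = some l := by rw [pb_dd, ← hγ']; exact h
    have := vf_some (a := gA T) h1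
    rw [step_emb] at this
    have h2 := (hypA X.F1).uf_vf c x
    rw [this] at h2
    exact h2

theorem col_edge {γ : Bool} {d : K2} {x : T × ℤ × ℤ} {l : L × Bool}
    (h : dd X.F2 γ d x.1 = some l) :
    X.colP d x = x + (step ll l, 0, 0) ∨ X.colP d (x + (step ll l, 0, 0)) = x := by
  apply tw_edge_or
  by_cases hγ : γ = levB x
  · left
    have h1 : dd (pb X.F2) (levB x) d x = some l := by rw [pb_dd, ← hγ]; exact h
    have := uf_some (a := gB T) h1
    rw [step_emb] at this
    exact this
  · right
    have hγ' : γ = !levB x := by revert hγ; cases γ <;> cases levB x <;> simp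
    have h1 : dd (pb X.F2) (!levB x) d x = some l := by rw [pb_dd, ← hγ']; exact h
    have := vf_some (a := gB T) h1
    rw [step_emb] at this
    have h2 := (hypB X.F2).uf_vf d x
    rw [this] at h2
    exact h2

theorem exists_levels (α β : Bool) : ∃ i j : ℤ, ∀ v : T, levA (v, i, j) = α ∧
    levB (v, i, j) = β := by
  refine ⟨cond α 0 1, cond β 0 1, fun v => ?_⟩
  cases α <;> cases β <;> simp [levA, levB]

theorem conn_ab (c : K1) (x y : T × ℤ × ℤ) (h : x.1 = y.1) :
    Relation.ReflTransGen (X.bi.RowRel c) x y := by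
  have ha1 : ∀ z : T × ℤ × ℤ, Relation.ReflTransGen (X.bi.RowRel c) z (z + gA T) := fun z =>
    Relation.ReflTransGen.single (Or.inl ((hypA X.F1).tw_key (X.rsg_U c) z))
  have hb1 : ∀ z : T × ℤ × ℤ, Relation.ReflTransGen (X.bi.RowRel c) z (z + gB T) := fun z =>
    Relation.ReflTransGen.single (Or.inr (Or.inl (Or.inl rfl)))
  have ha : ∀ (z : T × ℤ × ℤ) (n : ℤ),
      Relation.ReflTransGen (X.bi.RowRel c) z (z + (0, n, 0)) := by
    intro z n
    induction n using Int.induction_on with
    | zero =>
      have : z + (0, 0, 0) = z := by ext <;> simp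
      rw [this]
    | succ n ih =>
      refine ih.trans ?_
      have : z + (0, (n : ℤ) + 1, 0) = z + (0, (n : ℤ), 0) + gA T := by
        ext <;> simp [gA, add_assoc]
      rw [this]
      exact ha1 _
    | pred n ih =>
      refine ih.trans (rtg_symm ?_)
      have : z + (0, -(n : ℤ), 0) = z + (0, -(n : ℤ) - 1, 0) + gA T := by
        ext <;> simp [gA, add_assoc]
      rw [this]
      exact ha1 _
  have hb : ∀ (z : T × ℤ × ℤ) (n : ℤ),
      Relation.ReflTransGen (X.bi.RowRel c) z (z + (0, 0, n)) := by
    intro z n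
    induction n using Int.induction_on with
    | zero =>
      have : z + (0, 0, 0) = z := by ext <;> simp
      rw [this]
    | succ n ih =>
      refine ih.trans ?_
      have : z + (0, 0, (n : ℤ) + 1) = z + (0, 0, (n : ℤ)) + gB T := by
        ext <;> simp [gB, add_assoc]
      rw [this]
      exact hb1 _
    | pred n ih =>
      refine ih.trans (rtg_symm ?_)
      have : z + (0, 0, -(n : ℤ)) = z + (0, 0, -(n : ℤ) - 1) + gB T := by
        ext <;> simp [gB, add_assoc]
      rw [this]
      exact hb1 _
  have hy : y = x + (0, y.2.1 - x.2.1, 0) + (0, 0, y.2.2 - x.2.2) := by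
    ext
    · simp [h]
    · simp
    · simp
  rw [hy]
  exact (ha x _).trans (hb _ _)

theorem conn_row (c : K1) (h : ∀ x y, Relation.ReflTransGen (X.TRel c) x y)
    (x y : T × ℤ × ℤ) : Relation.ReflTransGen (X.bi.RowRel c) x y := by
  have key : ∀ v w : T, X.TRel c v w → ∃ i j i' j' : ℤ,
      Relation.ReflTransGen (X.bi.RowRel c) (v, i, j) (w, i', j') := by
    intro v w hvw
    rcases hvw with ⟨γ, l, h1, rfl⟩ | ⟨l, rfl, hth, β, h1, h2⟩ | ⟨p, rfl, β, γ, h1, h2, hth⟩
    · refine ⟨0, 0, 0, 0, Relation.ReflTransGen.single (Or.inl ?_)⟩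
      have h2 := X.row_edge (x := (v, 0, 0)) h1
      have h3 : ((v, 0, 0) : T × ℤ × ℤ) + (step lp l, 0, 0) = (v + step lp l, 0, 0) := by
        ext <;> simp
      rw [h3] at h2
      rcases h2 with h2 | h2
      · exact ⟨1, by rw [zpow_one]; exact h2⟩
      · exact ⟨-1, by rw [zpow_neg_one, Perm.inv_eq_iff_eq]; exact h2.symm⟩
    · obtain ⟨i, j, hij⟩ := exists_levels (T := T) β (!X.th c v)
      refine ⟨i, j, i, j, Relation.ReflTransGen.single (Or.inr (Or.inr (Or.inl (Or.inl ?_))))⟩
      obtain ⟨⟨d, δ⟩, hd, -⟩ := X.F2.dart v l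
      have hd' : dd X.F2 δ d v = some l := hd
      have h3 := X.col_edge (x := (v, i, j)) hd'
      have h4 : ((v, i, j) : T × ℤ × ℤ) + (step ll l, 0, 0) = (v + step ll l, i, j) := by
        ext <;> simp
      rw [h4] at h3
      refine ⟨d, h3, ?_, ?_⟩
      · refine (X.rowP_add_iff c (v, i, j)).2 ⟨?_, ?_⟩
        · simp only [rsg, (hij v).2]
          cases X.th c v <;> rfl
        · rw [(hij v).1]; exact h1
      · refine (X.rowP_sub_iff c (v + step ll l, i, j)).2 ⟨?_, ?_⟩
        · simp only [rsg, (hij _).2]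
          revert hth
          cases X.th c v <;> cases X.th c (v + step ll l) <;> simp
        · rw [(hij _).1]; exact h2
    · obtain ⟨i, j, hij⟩ := exists_levels (T := T) (!(xor β (X.th c v))) true
      refine ⟨i, j, i, j, Relation.ReflTransGen.single (Or.inr (Or.inr (Or.inr (Or.inl ?_))))⟩
      obtain ⟨⟨c', δ⟩, hc', -⟩ := X.F1.dart v p
      have hc'' : dd X.F1 δ c' v = some p := hc'
      have h3 := X.row_edge (x := (v, i, j)) hc''
      have h4 : ((v, i, j) : T × ℤ × ℤ) + (step lp p, 0, 0) = (v + step lp p, i, j) := by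
        ext <;> simp
      rw [h4] at h3
      have hneg : ∀ z : T × ℤ × ℤ, levA (z - gA T) = !levA z := (hypA X.F1).lev_neg
      have hfst : ∀ z : T × ℤ × ℤ, (z - gA T).1 = z.1 := by intro z; simp [gA]
      have hrs : ∀ z : T × ℤ × ℤ, X.rsg c (z - gA T) = X.rsg c z := by
        intro z
        have := X.rsg_a c (z - gA T)
        rw [sub_add_cancel] at this
        exact this.symm
      have r1 : X.rsg c (v, i, j) = !X.th c v := by
        simp only [rsg, (hij v).2]
        cases X.th c v <;> rfl
      have r2 : X.rsg c (v + step lp p, i, j) = !X.th c (v + step lp p) := by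
        simp only [rsg, (hij _).2]
        cases X.th c (v + step lp p) <;> rfl
      have hl1 := (hij v).1
      have hl2 : levA (v + step lp p, i, j) = xor γ (X.th c (v + step lp p)) := by
        rw [(hij _).1]
        revert hth
        cases xor β (X.th c v) <;> cases xor γ (X.th c (v + step lp p)) <;> simp
      refine ⟨c', h3, rfl, ?_, ?_⟩
      · cases ht : X.th c v
        · left
          have h5 := (X.rowP_add_iff c ((v, i, j) - gA T)).2 ⟨by rw [hrs, r1, ht]; rfl, by
            rw [hneg, hfst, hl1, ht]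
            simpa using h1⟩
          rw [sub_add_cancel] at h5
          change (X.rowP c)⁻¹ (v, i, j) + gA T = (v, i, j)
          have h6 : (X.rowP c)⁻¹ (v, i, j) = (v, i, j) - gA T := by
            rw [Perm.inv_eq_iff_eq]; exact h5.symm
          rw [h6, sub_add_cancel]
        · right
          have h5 := (X.rowP_sub_iff c (v, i, j)).2 ⟨by rw [r1, ht]; rfl, by
            rw [hl1, ht]
            simpa using h1⟩
          change (X.rowP c)⁻¹ (v, i, j) = (v, i, j) + gA T
          rw [Perm.inv_eq_iff_eq]; exact h5.symm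
      · cases ht : X.th c (v + step lp p)
        · left
          exact (X.rowP_add_iff c _).2 ⟨by rw [r2, ht]; rfl, by
            rw [hl2, ht]
            simpa using h2⟩
        · right
          have h5 := (X.rowP_sub_iff c ((v + step lp p, i, j) - gA T)).2
            ⟨by rw [hrs, r2, ht]; rfl, by
              rw [hneg, hfst, hl2, ht]
              simpa using h2⟩
          rw [sub_add_cancel] at h5
          change X.rowP c (v + step lp p, i, j) + gA T = (v + step lp p, i, j)
          rw [h5, sub_add_cancel]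
  have key2 : ∀ v w : T, Relation.ReflTransGen (X.TRel c) v w →
      Relation.ReflTransGen (X.bi.RowRel c) (v, 0, 0) (w, 0, 0) := by
    intro v w hvw
    induction hvw with
    | refl => exact Relation.ReflTransGen.refl
    | @tail w w' _ hbc ih =>
      obtain ⟨i, j, i', j', h⟩ := key _ _ hbc
      exact ih.trans ((X.conn_ab c (w, 0, 0) (w, i, j) rfl).trans
        (h.trans (X.conn_ab c (w', i', j') (w', 0, 0) rfl)))
  exact (X.conn_ab c x (x.1, 0, 0) rfl).trans
    ((key2 _ _ (h x.1 y.1)).trans (X.conn_ab c (y.1, 0, 0) y rfl))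

theorem conn_ab' (d : K2) (x y : T × ℤ × ℤ) (h : x.1 = y.1) :
    Relation.ReflTransGen (X.bi.swap.RowRel d) x y := by
  have hb1 : ∀ z : T × ℤ × ℤ, Relation.ReflTransGen (X.bi.swap.RowRel d) z (z + gB T) := fun z =>
    Relation.ReflTransGen.single (Or.inl ((hypB X.F2).tw_key (X.csg_U d) z))
  have ha1 : ∀ z : T × ℤ × ℤ, Relation.ReflTransGen (X.bi.swap.RowRel d) z (z + gA T) := fun z =>
    Relation.ReflTransGen.single (Or.inr (Or.inl (Or.inl rfl)))
  have ha : ∀ (z : T × ℤ × ℤ) (n : ℤ),
      Relation.ReflTransGen (X.bi.swap.RowRel d) z (z + (0, n, 0)) := by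
    intro z n
    induction n using Int.induction_on with
    | zero =>
      have : z + (0, 0, 0) = z := by ext <;> simp
      rw [this]
    | succ n ih =>
      refine ih.trans ?_
      have : z + (0, (n : ℤ) + 1, 0) = z + (0, (n : ℤ), 0) + gA T := by
        ext <;> simp [gA, add_assoc]
      rw [this]
      exact ha1 _
    | pred n ih =>
      refine ih.trans (rtg_symm ?_)
      have : z + (0, -(n : ℤ), 0) = z + (0, -(n : ℤ) - 1, 0) + gA T := by
        ext <;> simp [gA, add_assoc]
      rw [this]
      exact ha1 _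
  have hb : ∀ (z : T × ℤ × ℤ) (n : ℤ),
      Relation.ReflTransGen (X.bi.swap.RowRel d) z (z + (0, 0, n)) := by
    intro z n
    induction n using Int.induction_on with
    | zero =>
      have : z + (0, 0, 0) = z := by ext <;> simp
      rw [this]
    | succ n ih =>
      refine ih.trans ?_
      have : z + (0, 0, (n : ℤ) + 1) = z + (0, 0, (n : ℤ)) + gB T := by
        ext <;> simp [gB, add_assoc]
      rw [this]
      exact hb1 _
    | pred n ih =>
      refine ih.trans (rtg_symm ?_)
      have : z + (0, 0, -(n : ℤ)) = z + (0, 0, -(n : ℤ) - 1) + gB T := by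
        ext <;> simp [gB, add_assoc]
      rw [this]
      exact hb1 _
  have hy : y = x + (0, y.2.1 - x.2.1, 0) + (0, 0, y.2.2 - x.2.2) := by
    ext
    · simp [h]
    · simp
    · simp
  rw [hy]
  exact (ha x _).trans (hb _ _)

theorem conn_col (d : K2) (h : ∀ x y, Relation.ReflTransGen (X.swap.TRel d) x y)
    (x y : T × ℤ × ℤ) : Relation.ReflTransGen (X.bi.swap.RowRel d) x y := by
  have key : ∀ v w : T, X.swap.TRel d v w → ∃ i j i' j' : ℤ,
      Relation.ReflTransGen (X.bi.swap.RowRel d) (v, i, j) (w, i', j') := by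
    intro v w hvw
    rcases hvw with ⟨γ, l, h1, rfl⟩ | ⟨l, rfl, hth, β, h1, h2⟩ | ⟨p, rfl, β, γ, h1, h2, hth⟩
    · refine ⟨0, 0, 0, 0, Relation.ReflTransGen.single (Or.inl ?_)⟩
      have h2 := X.col_edge (x := (v, 0, 0)) h1
      have h3 : ((v, 0, 0) : T × ℤ × ℤ) + (step ll l, 0, 0) = (v + step ll l, 0, 0) := by
        ext <;> simp
      rw [h3] at h2
      rcases h2 with h2 | h2
      · exact ⟨1, by rw [zpow_one]; exact h2⟩
      · exact ⟨-1, by rw [zpow_neg_one, Perm.inv_eq_iff_eq]; exact h2.symm⟩
    · change X.rh d v ≠ X.rh d (v + step lp l) at hth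
      obtain ⟨i, j, hij⟩ := exists_levels (T := T) (!X.rh d v) β
      refine ⟨i, j, i, j, Relation.ReflTransGen.single (Or.inr (Or.inr (Or.inl (Or.inl ?_))))⟩
      obtain ⟨⟨c, δ⟩, hc, -⟩ := X.F1.dart v l
      have hc' : dd X.F1 δ c v = some l := hc
      have h3 := X.row_edge (x := (v, i, j)) hc'
      have h4 : ((v, i, j) : T × ℤ × ℤ) + (step lp l, 0, 0) = (v + step lp l, i, j) := by
        ext <;> simp
      rw [h4] at h3
      refine ⟨c, h3, ?_, ?_⟩
      · refine (X.colP_add_iff d (v, i, j)).2 ⟨?_, ?_⟩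
        · simp only [csg, (hij v).1]
          cases X.rh d v <;> rfl
        · rw [(hij v).2]; exact h1
      · refine (X.colP_sub_iff d (v + step lp l, i, j)).2 ⟨?_, ?_⟩
        · simp only [csg, (hij _).1]
          revert hth
          cases X.rh d v <;> cases X.rh d (v + step lp l) <;> simp
        · rw [(hij _).2]; exact h2
    · change xor β (X.rh d v) ≠ xor γ (X.rh d (v + step ll p)) at hth
      change dd X.F2 β d v = none at h1
      change dd X.F2 γ d (v + step ll p) = none at h2
      obtain ⟨i, j, hij⟩ := exists_levels (T := T) true (!(xor β (X.rh d v)))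
      refine ⟨i, j, i, j, Relation.ReflTransGen.single (Or.inr (Or.inr (Or.inr (Or.inl ?_))))⟩
      obtain ⟨⟨c', δ⟩, hc', -⟩ := X.F2.dart v p
      have hc'' : dd X.F2 δ c' v = some p := hc'
      have h3 := X.col_edge (x := (v, i, j)) hc''
      have h4 : ((v, i, j) : T × ℤ × ℤ) + (step ll p, 0, 0) = (v + step ll p, i, j) := by
        ext <;> simp
      rw [h4] at h3
      have hneg : ∀ z : T × ℤ × ℤ, levB (z - gB T) = !levB z := (hypB X.F2).lev_neg
      have hfst : ∀ z : T × ℤ × ℤ, (z - gB T).1 = z.1 := by intro z; simp [gB]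
      have hrs : ∀ z : T × ℤ × ℤ, X.csg d (z - gB T) = X.csg d z := by
        intro z
        have := X.csg_b d (z - gB T)
        rw [sub_add_cancel] at this
        exact this.symm
      have r1 : X.csg d (v, i, j) = !X.rh d v := by
        simp only [csg, (hij v).1]
        cases X.rh d v <;> rfl
      have r2 : X.csg d (v + step ll p, i, j) = !X.rh d (v + step ll p) := by
        simp only [csg, (hij _).1]
        cases X.rh d (v + step ll p) <;> rfl
      have hl1 := (hij v).2
      have hl2 : levB (v + step ll p, i, j) = xor γ (X.rh d (v + step ll p)) := by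
        rw [(hij _).2]
        revert hth
        cases xor β (X.rh d v) <;> cases xor γ (X.rh d (v + step ll p)) <;> simp
      refine ⟨c', h3, rfl, ?_, ?_⟩
      · cases ht : X.rh d v
        · left
          have h5 := (X.colP_add_iff d ((v, i, j) - gB T)).2 ⟨by rw [hrs, r1, ht]; rfl, by
            rw [hneg, hfst, hl1, ht]
            simpa using h1⟩
          rw [sub_add_cancel] at h5
          change (X.colP d)⁻¹ (v, i, j) + gB T = (v, i, j)
          have h6 : (X.colP d)⁻¹ (v, i, j) = (v, i, j) - gB T := by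
            rw [Perm.inv_eq_iff_eq]; exact h5.symm
          rw [h6, sub_add_cancel]
        · right
          have h5 := (X.colP_sub_iff d (v, i, j)).2 ⟨by rw [r1, ht]; rfl, by
            rw [hl1, ht]
            simpa using h1⟩
          change (X.colP d)⁻¹ (v, i, j) = (v, i, j) + gB T
          rw [Perm.inv_eq_iff_eq]; exact h5.symm
      · cases ht : X.rh d (v + step ll p)
        · left
          exact (X.colP_add_iff d _).2 ⟨by rw [r2, ht]; rfl, by
            rw [hl2, ht]
            simpa using h2⟩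
        · right
          have h5 := (X.colP_sub_iff d ((v + step ll p, i, j) - gB T)).2
            ⟨by rw [hrs, r2, ht]; rfl, by
              rw [hneg, hfst, hl2, ht]
              simpa using h2⟩
          rw [sub_add_cancel] at h5
          change X.colP d (v + step ll p, i, j) + gB T = (v + step ll p, i, j)
          rw [h5, sub_add_cancel]
  have key2 : ∀ v w : T, Relation.ReflTransGen (X.swap.TRel d) v w →
      Relation.ReflTransGen (X.bi.swap.RowRel d) (v, 0, 0) (w, 0, 0) := by
    intro v w hvw
    induction hvw with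
    | refl => exact Relation.ReflTransGen.refl
    | @tail w w' _ hbc ih =>
      obtain ⟨i, j, i', j', h⟩ := key _ _ hbc
      exact ih.trans ((X.conn_ab' d (w, 0, 0) (w, i, j) rfl).trans
        (h.trans (X.conn_ab' d (w', i', j') (w', 0, 0) rfl)))
  exact (X.conn_ab' d x (x.1, 0, 0) rfl).trans
    ((key2 _ _ (h x.1 y.1)).trans (X.conn_ab' d (y.1, 0, 0) y rfl))

/-- two compatible connected families of linear forests give a Hamilton decomposition -/
theorem hamilton {T P L K1 K2 : Type} [AddCommGroup T] [Countable T] [Countable K1]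
    [Countable K2] {lp : P → T} {ll : L → T} (X : D2Data T P L K1 K2 lp ll)
    (hinj : Function.Injective (Sum.elim lp ll))
    (hneg : ∀ i j, Sum.elim lp ll i ≠ -Sum.elim lp ll j)
    (hrow : ∀ c x y, Relation.ReflTransGen (X.TRel c) x y)
    (hcol : ∀ d x y, Relation.ReflTransGen (X.swap.TRel d) x y) :
    HasHamiltonDecomposition (SimpleGraph.circulantGraph (Set.range (gens lp ll))) := by
  have hne : Nonempty (T × ℤ × ℤ) := ⟨(0, 0, 0)⟩
  obtain ⟨f, h1, h2, h3⟩ := X.bi.main (X.good hinj hneg) (by
    rintro (c | d)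
    · exact Or.inl ⟨c, rfl⟩
    · exact Or.inr ⟨d, rfl⟩) (Sum.elim X.rsg X.csg) (fun c => rfl) (fun d => rfl)
    (fun c => X.conn_row c (hrow c)) (fun d => X.conn_col d (hcol d))
  exact ⟨K1 ⊕ K2, f, h1, h2, h3⟩

end D2Data

end Pool.Agent.Helper39.HD
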