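import Pool.Agent.Helper39.HD2.Top2
import Pool.Agent.Helper43.LA.Top3
import Pool.Agent.Helper43.LA.ColConn
import Pool.Agent.Helper82.CI.Group

/-!
# Final assembly
-/

namespace Pool.Agent.Helper39.HD

open Equiv Block Pool.Agent.Helper43.LA Pool.Agent.Helper82

/-- The finite statement for one finite abelian group `T` and a generating set `S`: `S` splits into
`P` and a chain independent set `L` such that the Cayley graph of `P` has the wanted linear
forests. -/
def Rows (T : Type) [AddCommGroup T] [DecidableEq T] (S : Set T) : Prop :=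
  ∃ (P : Set T) (L : Finset T), P ∪ L = S ∧ Disjoint P (L : Set T) ∧
    AddSubgroup.closure P = ⊤ ∧ Part.CI (fun x : T => AddSubgroup.zmultiples x) ⊥ L ∧
    LinearForestDecomposable (SimpleGraph.circulantGraph P) (P.ncard + 1) ∧
    (L.Nonempty → ConnForests (SimpleGraph.circulantGraph P) (P.ncard + 1))

theorem crel_of_plink {T L C : Type} [AddCommGroup T] {a : L → T} {P : Set T}
    {D : ForestData T L C (fun l => Equiv.addRight (a l))} {k : C} {x y : T}
    (h : PLink a P D k x y) : CRel D (fun p : P => (p : T)) k x y := by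
  rcases h with ⟨l, h1, rfl⟩ | ⟨l, h1, rfl⟩ | ⟨h1, h2, l, rfl⟩ | ⟨h1, s, hs, h2⟩
  · exact Or.inl ⟨true, l, h1, stp_apply _ _ _⟩
  · exact Or.inl ⟨false, l, h1, stp_apply _ _ _⟩
  · refine Or.inr (Or.inr ⟨l, stp_apply _ _ _, ?_⟩)
    obtain ⟨β, hβ⟩ : ∃ β, dd D β k x = none := by
      rcases h1 with h1 | h1
      · exact ⟨true, h1⟩
      · exact ⟨false, h1⟩
    obtain ⟨γ, hγ⟩ : ∃ β, dd D β k (stp (fun l => Equiv.addRight (a l)) l x) = none := by
      rcases h2 with h2 | h2
      · exact ⟨true, h2⟩
      · exact ⟨false, h2⟩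
    exact ⟨β, γ, hβ, hγ⟩
  · have h3 : ∃ β, dd D β k x = none ∧ dd D β k y = none := by
      rcases h1 with h1 | h1
      · exact ⟨true, h1⟩
      · exact ⟨false, h1⟩
    refine Or.inr (Or.inl ?_)
    rcases h2 with h2 | h2
    · exact ⟨(⟨s, hs⟩, true), by simpa [step] using h2, h3⟩
    · refine ⟨(⟨s, hs⟩, false), ?_, h3⟩
      simp only [step, Bool.false_eq_true, if_false]
      rw [h2]
      abel

/-- the columns -/
theorem exists_cols {T : Type} [AddCommGroup T] [Finite T] [DecidableEq T] {L : Finset T}
    (hL : Part.CI (fun x : T => AddSubgroup.zmultiples x) ⊥ L) {P : Set T}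
    (hP : AddSubgroup.closure P = ⊤) :
    ∃ (C : Type) (_ : Countable C)
      (D : ForestData T L C (fun l : L => Equiv.addRight (l : T))),
      ∀ k x y, Relation.ReflTransGen (CRel D (fun p : P => (p : T)) k) x y := by
  obtain ⟨C, hC, D, hD⟩ := exists_col (f := fun x : T => x) hL P hP
  refine ⟨C, hC, D, fun k x y => ?_⟩
  have h := hD k x y
  clear hD
  induction h with
  | refl => exact Relation.ReflTransGen.refl
  | tail _ hbc ih => exact ih.tail (crel_of_plink hbc)

theorem ci_image {Γ : Type} [AddCommGroup Γ] [DecidableEq Γ] {T : AddSubgroup Γ}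
    [DecidableEq T] {L : Finset T}
    (hL : Part.CI (fun x : T => AddSubgroup.zmultiples x) ⊥ L) :
    Part.CI (fun x : Γ => AddSubgroup.zmultiples x) ⊥ (L.image (Subtype.val : T → Γ)) := by
  induction hL with
  | empty =>
    rw [Finset.image_empty]
    exact Part.CI.empty
  | @insert x B hB hx ih =>
    rw [Finset.image_insert]
    refine Part.CI.insert ih ?_
    intro hle
    apply hx
    rw [bot_sup_eq, AddSubgroup.zmultiples_le] at hle ⊢
    rw [Part.sup_zmultiples] at hle ⊢
    rw [Finset.coe_image] at hle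
    have h1 : AddSubgroup.closure ((Subtype.val : T → Γ) '' (B : Set T)) =
        (AddSubgroup.closure (B : Set T)).map T.subtype := by
      rw [AddMonoidHom.map_closure]
      rfl
    rw [h1, AddSubgroup.mem_map] at hle
    obtain ⟨y, hy, hyx⟩ := hle
    have h2 : y = x := Subtype.ext hyx
    rwa [← h2]

theorem hamilton_of_rows {Γ : Type} [AddCommGroup Γ] [Countable Γ] (S : Set Γ) (hfin : S.Finite)
    (hS : ∀ s ∈ S, -s ∉ S) (hgen : AddSubgroup.closure S = ⊤)
    (hrank : ∃ x y : Γ, ∀ i j : ℤ, i • x = j • y → i = 0 ∧ j = 0)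
    (hrows : ∀ (T : Type) [AddCommGroup T] [Finite T] [DecidableEq T] (S : Set T),
      (∀ s ∈ S, -s ∉ S) → AddSubgroup.closure S = ⊤ → Rows T S) :
    HasHamiltonDecomposition (SimpleGraph.circulantGraph S) := by
  classical
  set T := AddSubgroup.closure (Sfin S) with hT
  have hSfin : (Sfin S).Finite := hfin.subset (Set.sep_subset _ _)
  obtain ⟨htor, hTfin⟩ := closure_torsion (P := Sfin S) hSfin (fun s hs => hs.2)
  rw [← hT] at htor hTfin
  let S' : Set T := (fun x : T => (x : Γ)) ⁻¹' (Sfin S)
  have hS'neg : ∀ s ∈ S', -s ∉ S' := by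
    intro s hs hs'
    exact hS _ hs.1 hs'.1
  have himg : (Subtype.val : T → Γ) '' S' = Sfin S := by
    ext x
    constructor
    · rintro ⟨y, hy, rfl⟩
      exact hy
    · intro hx
      exact ⟨⟨x, AddSubgroup.subset_closure hx⟩, hx, rfl⟩
  have hS'gen : AddSubgroup.closure S' = ⊤ := by
    apply AddSubgroup.map_injective (f := T.subtype) Subtype.val_injective
    rw [AddMonoidHom.map_closure, ← AddMonoidHom.range_eq_map]
    change AddSubgroup.closure ((Subtype.val : T → Γ) '' S') = _
    rw [himg]
    exact (AddSubgroup.range_subtype T).symm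
  obtain ⟨P, L, hPL, hdisj, hPgen, hLci, hLF, hCF⟩ := hrows T S' hS'neg hS'gen
  have hPS : ∀ p ∈ P, (p : Γ) ∈ Sfin S := by
    intro p hp
    have : p ∈ S' := hPL ▸ Or.inl hp
    exact this
  have hLS : ∀ p ∈ L, (p : Γ) ∈ Sfin S := by
    intro p hp
    have : p ∈ S' := hPL ▸ Or.inr hp
    exact this
  have hdj : ∀ p, p ∈ P → p ∉ L := fun p hp hp' => Set.disjoint_left.1 hdisj hp hp'
  -- at least two generators of infinite order
  have h2le : 2 ≤ (Sinf S).ncard := by
    obtain ⟨b, hb, -, hcard⟩ := group_theory S hfin hS hgen hrank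
    obtain ⟨e1, e2⟩ := sinf_split hfin hb
    omega
  by_cases h2 : (Sinf S).ncard = 2
  · by_cases hLne : L.Nonempty
    · obtain ⟨C, hC, D, hD⟩ := exists_cols (L := L) hLci hPgen
      refine top2' S hfin hS hgen hrank h2 T rfl P L C (fun l : L => (l : T)) ?_ ?_ (hCF hLne) D hD
      · rintro (p | l) (p' | l') h
        · have h : (p : T) = p' := h
          rw [Subtype.ext h]
        · have h : (p : T) = l' := h
          exact absurd (h ▸ l'.2) (hdj _ p.2)
        · have h : (l : T) = p' := h
          exact absurd (h ▸ l.2) (hdj _ p'.2)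
        · have h : (l : T) = l' := h
          rw [Subtype.ext h]
      · intro x
        constructor
        · intro hx
          have h3 : (⟨x, AddSubgroup.subset_closure hx⟩ : T) ∈ P ∪ (L : Set T) := by
            rw [hPL]; exact hx
          rcases h3 with h3 | h3
          · exact ⟨Sum.inl ⟨_, h3⟩, rfl⟩
          · exact ⟨Sum.inr ⟨_, h3⟩, rfl⟩
        · rintro ⟨p | l, rfl⟩
          · exact hPS _ p.2
          · exact hLS _ l.2
    · have hL0 : (L : Set T) = ∅ := by
        rw [Finset.not_nonempty_iff_eq_empty.1 hLne]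
        simp
      rw [hL0, Set.union_empty] at hPL
      refine main_theorem S hfin hS hgen hrank 1 (Or.inl le_rfl) (fun _ => Sfin S) ?_ ?_ ?_
      · exact Set.iUnion_const _
      · intro i j hij
        exact absurd (Subsingleton.elim i j) hij
      · intro i
        refine Or.inr ?_
        rw [hPL] at hLF
        have : S'.ncard = (Sfin S).ncard := by
          rw [← himg, Set.ncard_image_of_injective _ Subtype.val_injective]
        rw [this] at hLF
        exact hLF
  · -- at least three
    set P' : Set Γ := (Subtype.val : T → Γ) '' P with hP'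
    set L' : Finset Γ := L.image (Subtype.val : T → Γ) with hL'
    refine top3 S hfin hS hgen hrank (by omega) P' L' ?_ ?_ T hTfin ?_ ?_ (ci_image hLci)
    · rw [hP', hL', Finset.coe_image, ← Set.image_union, hPL, himg]
    · rw [hP', hL', Finset.coe_image]
      exact (Set.disjoint_image_iff Subtype.val_injective).2 hdisj
    · rintro _ ⟨p, -, rfl⟩
      exact p.2
    · have h0 : (0 : T) ∉ P := by
        intro h
        have h1 := (hPS _ h).1
        apply hS _ h1
        rw [AddSubgroup.coe_zero, neg_zero]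
        exact h1
      have hneg : ∀ s ∈ P, -s ∉ P := fun s hs hs' => hS _ (hPS s hs).1 (hPS _ hs').1
      obtain ⟨D⟩ := forestData_of_linearForests P h0 hneg hLF
      have h1 : HasFD T (fun p : P => (p : T)) := ⟨_, inferInstance, ⟨D⟩⟩
      let e : {s : Γ // s ∈ P' ∧ s ∈ T} ≃ P :=
        { toFun := fun s => ⟨⟨s.1, s.2.2⟩, by
            obtain ⟨p, hp, hps⟩ := s.2.1
            have : (⟨s.1, s.2.2⟩ : T) = p := Subtype.ext hps.symm
            rw [this]
            exact hp⟩
          invFun := fun p => ⟨p.1, ⟨p.1, p.2, rfl⟩, p.1.2⟩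
          left_inv := fun s => rfl
          right_inv := fun p => rfl }
      exact h1.comap id e (fun l y => rfl)

end Pool.Agent.Helper39.HD
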