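import Pool.Agent.Helper39.HD2.MergeAll
import Pool.Agent.Helper39.HD.Std

/-!
# The abstract three-switch gadget
-/

namespace Pool.Agent.Helper39.HD

open Equiv

variable {V D : Type*} {G : SimpleGraph V} {ν0 ν : D → Perm V}

/-- the orbit avoids a set -/
def Av (f : Perm V) (W : Set V) (x : V) : Prop := ∀ k : ℤ, (f ^ k) x ∉ W

theorem Av.of_cycle {f : Perm V} {W : Set V} {x y : V} (h : Av f W x) (hxy : f.SameCycle x y) :
    Av f W y := by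
  obtain ⟨m, rfl⟩ := hxy
  intro k
  rw [← zpow_apply_add]
  exact h _

theorem Av.not_mem {f : Perm V} {W : Set V} {x : V} (h : Av f W x) : x ∉ W := by
  simpa using h 0

theorem cyc1 {f : Perm V} {x y : V} (h : f x = y) : f.SameCycle x y := ⟨1, by simpa using h⟩

theorem cyc1' {f : Perm V} {x y : V} (h : f x = y) : f.SameCycle y x := (cyc1 h).symm

theorem gadget (hν : Good G ν0 ν) {B W : Set V} (hag : AgreeOn Wᶜ ν0 ν)
    (hBW : B ⊆ W) {c e1 e2 c' : D} (hc1 : e1 ≠ c) (hc2 : e2 ≠ c) (hcc : c' ≠ c) (hce1 : c' ≠ e1)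
    (hce2 : c' ≠ e2) {P P1 Pb P1b Q Q1 Qb Q1b : V}
    (f1 : ν0 c P1 = P) (f2 : ν0 c Pb = P1b) (f3 : ν0 c Q = Q1) (f4 : ν0 c Q1b = Qb)
    (v1 : (ν0 e1 P1 = P1b ∧ ν0 e1 Pb = P) ∨ (ν0 e1 P1b = P1 ∧ ν0 e1 P = Pb))
    (v2 : (ν0 e2 Q = Qb ∧ ν0 e2 Q1b = Q1) ∨ (ν0 e2 Qb = Q ∧ ν0 e2 Q1 = Q1b))
    (v3 : (ν0 c' P = Q ∧ ν0 c' Qb = Pb) ∨ (ν0 c' Q = P ∧ ν0 c' Pb = Qb))
    (s1 : ¬ (ν0 c).SameCycle P1 Pb) (s2 : ¬ (ν0 c).SameCycle Q Q1b)
    (s3 : ¬ (ν0 c).SameCycle P1 Q) (s4 : ¬ (ν0 c).SameCycle P1 Q1b)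
    (s5 : ¬ (ν0 c).SameCycle Pb Q) (s6 : ¬ (ν0 c).SameCycle Pb Q1b)
    (t1 : ¬ (ν0 e1).SameCycle P1 P) (t2 : ¬ (ν0 e2).SameCycle Q Q1)
    (t3 : e1 = e2 → ¬ (ν0 e1).SameCycle P1 Q ∧ ¬ (ν0 e1).SameCycle P1 Q1 ∧
      ¬ (ν0 e1).SameCycle P Q ∧ ¬ (ν0 e1).SameCycle P Q1)
    (t4 : ¬ (ν0 c').SameCycle P Pb)
    (wP1 : Av (ν0 c) W P1) (wPb : Av (ν0 c) W Pb) (wQ : Av (ν0 c) W Q) (wQ1b : Av (ν0 c) W Q1b)
    (xP1 : Av (ν0 e1) W P1) (xP : Av (ν0 e1) W P) (xQ : Av (ν0 e2) W Q) (xQ1 : Av (ν0 e2) W Q1)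
    (yP : Av (ν0 c') W P) (yPb : Av (ν0 c') W Pb) :
    ∃ ν', Good G ν0 ν' ∧ AgreeOn B ν ν' ∧
      (∀ t ∈ B, ∀ z, (FT (ν c) (ν0 c) t z → FT (ν' c) (ν0 c) t z) ∧
        (BT (ν c) (ν0 c) t z → BT (ν' c) (ν0 c) t z)) ∧
      ∃ w, BT (ν' c) (ν0 c) w Pb ∧ FT (ν' c) (ν0 c) w Q1b := by
  classical
  -- untouched orbits
  have unt : ∀ (d : D) (x : V), Av (ν0 d) W x → ∀ k : ℤ,
      (ν d ^ k) x = (ν0 d ^ k) x := fun d x hx =>
    zpow_eq_of_avoid (fun x hx => (hag d x hx).1) (fun x hx => (hag d x hx).2) hx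
  have unt1 : ∀ (d : D) (x : V), Av (ν0 d) W x → ν d x = ν0 d x := fun d x hx => by
    have := unt d x hx 1
    simpa using this
  have untS : ∀ (d : D) (x y : V), Av (ν0 d) W x → (ν d).SameCycle x y →
      (ν0 d).SameCycle x y := by
    rintro d x y hx ⟨k, hk⟩
    exact ⟨k, by rw [← unt d x hx, hk]⟩
  have offB : ∀ t ∈ B, ∀ x, Av (ν0 c) W x → ¬ (ν c).SameCycle t x := by
    intro t ht x hx h
    obtain ⟨k, hk⟩ := h.symm
    rw [unt c x hx] at hk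
    exact hx k (hBW (hk ▸ ht))
  -- more avoidance
  have cP1P1b : (ν0 e1).SameCycle P1 P1b := by
    rcases v1 with ⟨h, -⟩ | ⟨h, -⟩
    · exact cyc1 h
    · exact cyc1' h
  have cPPb : (ν0 e1).SameCycle P Pb := by
    rcases v1 with ⟨-, h⟩ | ⟨-, h⟩
    · exact cyc1' h
    · exact cyc1 h
  have cQQb : (ν0 e2).SameCycle Q Qb := by
    rcases v2 with ⟨h, -⟩ | ⟨h, -⟩
    · exact cyc1 h
    · exact cyc1' h
  have cQ1Q1b : (ν0 e2).SameCycle Q1 Q1b := by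
    rcases v2 with ⟨-, h⟩ | ⟨-, h⟩
    · exact cyc1' h
    · exact cyc1 h
  have xP1b : Av (ν0 e1) W P1b := xP1.of_cycle cP1P1b
  have xPb : Av (ν0 e1) W Pb := xP.of_cycle cPPb
  have xQb : Av (ν0 e2) W Qb := xQ.of_cycle cQQb
  have xQ1b : Av (ν0 e2) W Q1b := xQ1.of_cycle cQ1Q1b
  have wP : Av (ν0 c) W P := wP1.of_cycle (cyc1 f1)
  have wP1b : Av (ν0 c) W P1b := wPb.of_cycle (cyc1 f2)
  have wQ1 : Av (ν0 c) W Q1 := wQ.of_cycle (cyc1 f3)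
  have wQb : Av (ν0 c) W Qb := wQ1b.of_cycle (cyc1 f4)
  have cPQ : (ν0 c').SameCycle P Q := by
    rcases v3 with ⟨h, -⟩ | ⟨h, -⟩
    · exact cyc1 h
    · exact cyc1' h
  have cPbQb : (ν0 c').SameCycle Pb Qb := by
    rcases v3 with ⟨-, h⟩ | ⟨-, h⟩
    · exact cyc1' h
    · exact cyc1 h
  have yQ : Av (ν0 c') W Q := yP.of_cycle cPQ
  have yQb : Av (ν0 c') W Qb := yPb.of_cycle cPbQb
  -- switch 1
  have f_p1 : ν c P1 = P := (unt1 c _ wP1).trans f1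
  have f_bP : ν c Pb = P1b := (unt1 c _ wPb).trans f2
  obtain ⟨x1, y1, hxy1, ex1⟩ := exch_square (ν := ν) (d := c) (d' := e1) (P := P1)
    (P1 := P) (R1 := Pb) (R := P1b) f_p1 f_bP (by
      rw [unt1 e1 _ xP1, unt1 e1 _ xPb, unt1 e1 _ xP1b, unt1 e1 _ xP]
      exact v1)
  have g1s : ¬ (ν c).SameCycle P1 Pb := fun h => s1 (untS c _ _ wP1 h)
  have vx1 : Av (ν0 e1) W x1 ∧ Av (ν0 e1) W y1 := by
    rcases hxy1 with ⟨rfl, rfl⟩ | ⟨rfl, rfl⟩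
    · exact ⟨xP1, xPb⟩
    · exact ⟨xP1b, xP⟩
  have g1s' : ¬ (ν e1).SameCycle x1 y1 := by
    intro h
    have h := untS e1 _ _ vx1.1 h
    rcases hxy1 with ⟨rfl, rfl⟩ | ⟨rfl, rfl⟩
    · exact t1 (h.trans cPPb.symm)
    · exact t1 (cP1P1b.trans h)
  have g1 := hν.switch (d := c) (d' := e1) hc1 ex1 g1s g1s'
  set ν1 := sw ν c e1 P1 Pb x1 y1 with hν1
  have ν1c : ν1 c = ν c * swap P1 Pb := sw_self hc1 _ _ _ _
  have ν1n : ν1 e1 = ν e1 * swap x1 y1 := sw_self' _ _ _ _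
  have ν1e : ∀ e, e ≠ c → e ≠ e1 → ν1 e = ν e := fun e h h' => sw_of_ne h h' _ _ _ _
  -- orbits of the second pair are off the first pair
  have off1 : ∀ x, Av (ν0 c) W x → ∀ y, ¬ (ν0 c).SameCycle x y → ¬ (ν c).SameCycle x y :=
    fun x hx y hxy h => hxy (untS c _ _ hx h)
  have off_Q_p1 := off1 Q wQ P1 (fun h => s3 h.symm)
  have off_Q_bP := off1 Q wQ Pb (fun h => s5 h.symm)
  have off_bq1_p1 := off1 Q1b wQ1b P1 (fun h => s4 h.symm)
  have off_bq1_bP := off1 Q1b wQ1b Pb (fun h => s6 h.symm)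
  have ne_of_off : ∀ {x y : V}, ¬ (ν c).SameCycle x y → x ≠ y := by
    rintro x y h rfl
    exact h (Perm.SameCycle.refl _ _)
  have f1_Q : ν1 c Q = Q1 := by
    rw [ν1c, Perm.mul_apply, swap_apply_of_ne_of_ne (ne_of_off off_Q_p1) (ne_of_off off_Q_bP)]
    exact (unt1 c _ wQ).trans f3
  have f1_bq1 : ν1 c Q1b = Qb := by
    rw [ν1c, Perm.mul_apply, swap_apply_of_ne_of_ne (ne_of_off off_bq1_p1)
      (ne_of_off off_bq1_bP)]
    exact (unt1 c _ wQ1b).trans f4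
  -- the colour `e2`
  have off2 : ∀ x, ((ν0 e2).SameCycle Q x ∨ (ν0 e2).SameCycle Q1 x) → e1 = e2 →
      ¬ (ν e2).SameCycle x x1 ∧ ¬ (ν e2).SameCycle x y1 := by
    intro x hx he
    subst he
    obtain ⟨a1, a2, a3, a4⟩ := t3 rfl
    have hAx : Av (ν0 e1) W x := by
      rcases hx with h | h
      · exact xQ.of_cycle h
      · exact xQ1.of_cycle h
    constructor
    · intro h
      have h := untS e1 _ _ hAx h
      rcases hxy1 with ⟨rfl, rfl⟩ | ⟨rfl, rfl⟩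
      · rcases hx with hx | hx
        · exact a1 (hx.trans h).symm
        · exact a2 (hx.trans h).symm
      · rcases hx with hx | hx
        · exact a1 (cP1P1b.trans (hx.trans h).symm)
        · exact a2 (cP1P1b.trans (hx.trans h).symm)
    · intro h
      have h := untS e1 _ _ hAx h
      rcases hxy1 with ⟨rfl, rfl⟩ | ⟨rfl, rfl⟩
      · rcases hx with hx | hx
        · exact a3 (cPPb.trans (hx.trans h).symm)
        · exact a4 (cPPb.trans (hx.trans h).symm)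
      · rcases hx with hx | hx
        · exact a3 (hx.trans h).symm
        · exact a4 (hx.trans h).symm
  have n1 : ∀ x, ((ν0 e2).SameCycle Q x ∨ (ν0 e2).SameCycle Q1 x) → ν1 e2 x = ν e2 x := by
    intro x hx
    by_cases he : e1 = e2
    · obtain ⟨a1, a2⟩ := off2 x hx he
      subst he
      rw [ν1n, Perm.mul_apply, swap_apply_of_ne_of_ne]
      · rintro rfl; exact a1 (Perm.SameCycle.refl _ _)
      · rintro rfl; exact a2 (Perm.SameCycle.refl _ _)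
    · rw [ν1e e2 hc2 (Ne.symm he)]
  have n1S : ∀ x y, ((ν0 e2).SameCycle Q x ∨ (ν0 e2).SameCycle Q1 x) →
      (ν1 e2).SameCycle x y → (ν e2).SameCycle x y := by
    intro x y hx h
    by_cases he : e1 = e2
    · obtain ⟨a1, a2⟩ := off2 x hx he
      subst he
      rw [ν1n, swap_off_sameCycle a1 a2] at h
      exact h
    · rwa [ν1e e2 hc2 (Ne.symm he)] at h
  have rQ : (ν0 e2).SameCycle Q Q := Perm.SameCycle.refl _ _
  have rQ1 : (ν0 e2).SameCycle Q1 Q1 := Perm.SameCycle.refl _ _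
  obtain ⟨x2, y2, hxy2, ex2⟩ := exch_square (ν := ν1) (d := c) (d' := e2) (P := Q)
    (P1 := Q1) (R1 := Q1b) (R := Qb) f1_Q f1_bq1 (by
      rw [n1 _ (Or.inl rQ), n1 _ (Or.inr cQ1Q1b), n1 _ (Or.inl cQQb), n1 _ (Or.inr rQ1),
        unt1 e2 _ xQ, unt1 e2 _ xQ1b, unt1 e2 _ xQb, unt1 e2 _ xQ1]
      exact v2)
  have g2s : ¬ (ν1 c).SameCycle Q Q1b := by
    rw [ν1c, swap_off_sameCycle off_Q_p1 off_Q_bP]
    exact off1 Q wQ Q1b s2
  have hx2 : (((ν0 e2).SameCycle Q x2 ∨ (ν0 e2).SameCycle Q1 x2)) ∧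
      (((ν0 e2).SameCycle Q y2 ∨ (ν0 e2).SameCycle Q1 y2)) := by
    rcases hxy2 with ⟨rfl, rfl⟩ | ⟨rfl, rfl⟩
    · exact ⟨Or.inl rQ, Or.inr cQ1Q1b⟩
    · exact ⟨Or.inl cQQb, Or.inr rQ1⟩
  have vx2 : Av (ν0 e2) W x2 ∧ Av (ν0 e2) W y2 := by
    rcases hxy2 with ⟨rfl, rfl⟩ | ⟨rfl, rfl⟩
    · exact ⟨xQ, xQ1b⟩
    · exact ⟨xQb, xQ1⟩
  have g2s' : ¬ (ν1 e2).SameCycle x2 y2 := by
    intro h
    have h := untS e2 _ _ vx2.1 (n1S _ _ hx2.1 h)
    rcases hxy2 with ⟨rfl, rfl⟩ | ⟨rfl, rfl⟩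
    · exact t2 (h.trans cQ1Q1b.symm)
    · exact t2 (cQQb.trans h)
  have g2 := g1.switch (d := c) (d' := e2) hc2 ex2 g2s g2s'
  set ν2 := sw ν1 c e2 Q Q1b x2 y2 with hν2
  have ν2c : ν2 c = ν1 c * swap Q Q1b := sw_self hc2 _ _ _ _
  have ν2e : ∀ e, e ≠ c → e ≠ e1 → e ≠ e2 → ν2 e = ν e := fun e h h' h'' =>
    (sw_of_ne h h'' _ _ _ _).trans (ν1e e h h')
  -- tails
  have ftOf : ∀ x, Av (ν0 c) W x → FT (ν c) (ν0 c) x x ∧ BT (ν c) (ν0 c) x x := by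
    intro x hx
    refine ⟨FT.refl_of fun n => unt c x hx n, FT.refl_of fun n => ?_⟩
    rw [inv_zpow, inv_zpow, ← zpow_neg, ← zpow_neg]
    exact unt c x hx _
  have fwd : ∀ {f : Perm V} {x y z : V}, Aper f → ¬ f.SameCycle x y → FT f (ν0 c) y z →
      FT (f * swap x y) (ν0 c) x z := by
    intro f x y z hf hxy h
    refine h.of_eq 1 1 fun n => ?_
    have := swap_fwd hf hxy (n + 1) (by omega)
    rw [← zpow_natCast, ← zpow_natCast] at this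
    push_cast at this
    rw [add_comm (1 : ℤ)]
    exact this
  have bwd : ∀ {f : Perm V} {x y z : V}, Aper f → ¬ f.SameCycle x y → BT f (ν0 c) x z →
      BT (f * swap x y) (ν0 c) x z := by
    intro f x y z hf hxy h
    refine FT.of_eq h 0 0 fun n => ?_
    have := swap_bwd hf hxy n
    rw [← zpow_natCast, ← zpow_natCast] at this
    rw [zero_add]
    exact this
  have offFT : ∀ {f : Perm V} {x y t z : V}, ¬ f.SameCycle t x → ¬ f.SameCycle t y →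
      (FT f (ν0 c) t z → FT (f * swap x y) (ν0 c) t z) ∧
      (BT f (ν0 c) t z → BT (f * swap x y) (ν0 c) t z) := by
    intro f x y t z hx hy
    refine ⟨fun h => h.of_eq 0 0 fun n => swap_off hx hy _, fun h => FT.of_eq h 0 0 fun n => ?_⟩
    rw [inv_zpow, inv_zpow, ← zpow_neg, ← zpow_neg]
    exact swap_off hx hy _
  have BT1_bP : BT (ν1 c) (ν0 c) Pb Pb := by
    rw [ν1c, swap_comm]
    exact bwd (hν.aper _) (fun h => g1s h.symm) (ftOf _ wPb).2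
  have BT1_Q : BT (ν1 c) (ν0 c) Q Q := by
    rw [ν1c]
    exact (offFT off_Q_p1 off_Q_bP).2 (ftOf _ wQ).2
  have FT1_bq1 : FT (ν1 c) (ν0 c) Q1b Q1b := by
    rw [ν1c]
    exact (offFT off_bq1_p1 off_bq1_bP).1 (ftOf _ wQ1b).1
  have off_bP_Q : ¬ (ν1 c).SameCycle Pb Q := by
    intro h
    have h := h.symm
    rw [ν1c, swap_off_sameCycle off_Q_p1 off_Q_bP] at h
    exact off_Q_bP h
  have off_bP_bq1 : ¬ (ν1 c).SameCycle Pb Q1b := by
    intro h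
    have h := h.symm
    rw [ν1c, swap_off_sameCycle off_bq1_p1 off_bq1_bP] at h
    exact off_bq1_bP h
  have BT2_bP : BT (ν2 c) (ν0 c) Pb Pb := by
    rw [ν2c]
    exact (offFT off_bP_Q off_bP_bq1).2 BT1_bP
  have FT2_Q : FT (ν2 c) (ν0 c) Q Q1b := by
    rw [ν2c]
    exact fwd (g1.aper _) g2s FT1_bq1
  have BT2_Q : BT (ν2 c) (ν0 c) Q Q := by
    rw [ν2c]
    exact bwd (g1.aper _) g2s BT1_Q
  -- switch 3
  have g3s : ¬ (ν2 c).SameCycle Pb Q := by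
    intro h
    exact s5 ((BT2_bP.left h).unique BT2_Q)
  have f2_bP : ν2 c Pb = P := by
    rw [ν2c, Perm.mul_apply, swap_apply_of_ne_of_ne (ne_of_off off_Q_bP).symm
      (ne_of_off off_bq1_bP).symm, ν1c, Perm.mul_apply, swap_apply_right]
    exact f_p1
  have f2_Q : ν2 c Q = Qb := by
    rw [ν2c, Perm.mul_apply, swap_apply_left]
    exact f1_bq1
  have ν2c' : ν2 c' = ν c' := ν2e _ hcc hce1 hce2
  obtain ⟨x3, y3, hxy3, ex3⟩ := exch_square (ν := ν2) (d := c) (d' := c')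
    (P := Pb) (P1 := P) (R1 := Q) (R := Qb) f2_bP f2_Q (by
      rw [ν2c', unt1 c' _ yP, unt1 c' _ yPb, unt1 c' _ yQ, unt1 c' _ yQb]
      rcases v3 with ⟨h, h'⟩ | ⟨h, h'⟩
      · exact Or.inr ⟨h', h⟩
      · exact Or.inl ⟨h', h⟩)
  have vx3 : Av (ν0 c') W x3 ∧ Av (ν0 c') W y3 := by
    rcases hxy3 with ⟨rfl, rfl⟩ | ⟨rfl, rfl⟩
    · exact ⟨yPb, yQ⟩
    · exact ⟨yQb, yP⟩
  have g3s' : ¬ (ν2 c').SameCycle x3 y3 := by
    rw [ν2c']
    intro h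
    have h := untS c' _ _ vx3.1 h
    rcases hxy3 with ⟨rfl, rfl⟩ | ⟨rfl, rfl⟩
    · exact t4 (cPQ.trans h.symm)
    · exact t4 (h.symm.trans cPbQb.symm)
  have g3 := g2.switch (d := c) (d' := c') hcc ex3 g3s g3s'
  set ν3 := sw ν2 c c' Pb Q x3 y3 with hν3
  have ν3c : ν3 c = ν2 c * swap Pb Q := sw_self hcc _ _ _ _
  -- membership in `B`
  have nB : ∀ (d : D) (x : V), Av (ν0 d) W x → x ∉ B ∧ ν d x ∉ B := by
    intro d x hx
    constructor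
    · intro h
      exact hx.not_mem (hBW h)
    · intro h
      rw [unt1 d x hx] at h
      have := hx 1
      rw [zpow_one] at this
      exact this (hBW h)
  refine ⟨ν3, g3, ?_, ?_, ?_⟩
  · have b1 : AgreeOn B ν ν1 := by
      apply agreeOn_sw hc1 (nB c _ wP1).1 (nB c _ wPb).1
        (nB c _ wP1).2 (nB c _ wPb).2 (nB e1 _ vx1.1).1 (nB e1 _ vx1.2).1
        (nB e1 _ vx1.1).2 (nB e1 _ vx1.2).2
    have b2 : AgreeOn B ν1 ν2 := by
      apply agreeOn_sw hc2 (nB c _ wQ).1 (nB c _ wQ1b).1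
      · rw [f1_Q]; exact (nB c _ wQ1).1
      · rw [f1_bq1]; exact (nB c _ wQb).1
      · exact (nB e2 _ vx2.1).1
      · exact (nB e2 _ vx2.2).1
      · rw [n1 _ hx2.1]; exact (nB e2 _ vx2.1).2
      · rw [n1 _ hx2.2]; exact (nB e2 _ vx2.2).2
    have b3 : AgreeOn B ν2 ν3 := by
      apply agreeOn_sw hcc (nB c _ wPb).1 (nB c _ wQ).1
      · rw [f2_bP]; exact (nB c _ wP).1
      · rw [f2_Q]; exact (nB c _ wQb).1
      · exact (nB c' _ vx3.1).1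
      · exact (nB c' _ vx3.2).1
      · rw [ν2c']; exact (nB c' _ vx3.1).2
      · rw [ν2c']; exact (nB c' _ vx3.2).2
    exact (b1.trans b2).trans b3
  · intro t ht z
    have o1 := offB t ht _ wP1
    have o2 := offB t ht _ wPb
    have o3 := offB t ht _ wQ
    have o4 := offB t ht _ wQ1b
    have o3' : ¬ (ν1 c).SameCycle t Q := by
      rw [ν1c, swap_off_sameCycle o1 o2]; exact o3
    have o4' : ¬ (ν1 c).SameCycle t Q1b := by
      rw [ν1c, swap_off_sameCycle o1 o2]; exact o4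
    have o5' : ¬ (ν1 c).SameCycle t Pb := by
      rw [ν1c, swap_off_sameCycle o1 o2]; exact o2
    have o3'' : ¬ (ν2 c).SameCycle t Q := by
      rw [ν2c, swap_off_sameCycle o3' o4']; exact o3'
    have o5'' : ¬ (ν2 c).SameCycle t Pb := by
      rw [ν2c, swap_off_sameCycle o3' o4']; exact o5'
    constructor
    · intro h
      rw [ν3c]
      refine (offFT o5'' o3'').1 ?_
      rw [ν2c]
      refine (offFT o3' o4').1 ?_
      rw [ν1c]
      exact (offFT o1 o2).1 h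
    · intro h
      rw [ν3c]
      refine (offFT o5'' o3'').2 ?_
      rw [ν2c]
      refine (offFT o3' o4').2 ?_
      rw [ν1c]
      exact (offFT o1 o2).2 h
  · refine ⟨Pb, ?_, ?_⟩
    · rw [ν3c]
      exact bwd (g2.aper _) g3s BT2_bP
    · rw [ν3c]
      exact fwd (g2.aper _) g3s FT2_Q

end Pool.Agent.Helper39.HD
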