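import Pool.Agent.Helper39.HD2.Sign

/-!
# Rows from a decomposition into linear forests
-/

namespace Pool.Agent.Helper39.HD

open Equiv

open Orient Block in
theorem forestData_of_linearForests' {T : Type*} [AddCommGroup T] [Finite T] (S : Set T)
    (h0 : (0 : T) ∉ S) (hS : ∀ s ∈ S, -s ∉ S)
    (F : Fin (S.ncard + 1) → SimpleGraph T) (hF1 : ∀ i, IsLinearForest (F i))
    (hF2 : ∀ i, F i ≤ SimpleGraph.circulantGraph S)
    (hF3 : ∀ x y, (SimpleGraph.circulantGraph S).Adj x y → ∃! i, (F i).Adj x y) :
    ∃ D : ForestData T S (Fin (S.ncard + 1)) (fun s => Equiv.addRight (s : T)),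
      ∀ k x, (∀ y, (F k).Adj x y → PStep D k x y) ∧
        (((F k).neighborSet x).encard ≤ 1 → ∃ β, dd D β k x = none) := by
  classical
  set act : S → Perm T := fun s => Equiv.addRight (s : T) with hact
  have stpt : ∀ (s : S) x, stp act (s, true) x = x + s := fun s x => rfl
  have stpf : ∀ (s : S) x, stp act (s, false) x = x + -(s : T) := fun s x => rfl
  have sinv : ∀ (l : S × Bool) x, stp act (l.1, !l.2) (stp act l x) = x := by
    rintro ⟨s, _ | _⟩ x
    · simp [stpt, stpf]
    · simp [stpt, stpf]
  have hS0 : ∀ s : S, (s : T) ≠ 0 := by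
    rintro ⟨s, hs⟩ rfl
    exact h0 hs
  have sadj : ∀ (l : S × Bool) x, (SimpleGraph.circulantGraph S).Adj x (stp act l x) := by
    rintro ⟨s, _ | _⟩ x
    · rw [stpf, SimpleGraph.circulantGraph_adj]
      exact ⟨by simpa using (hS0 s), Or.inl (by simp)⟩
    · rw [stpt, SimpleGraph.circulantGraph_adj]
      exact ⟨by simpa using (hS0 s), Or.inr (by simp)⟩
  have sinj : ∀ x, Function.Injective fun l : S × Bool => stp act l x := by
    rintro x ⟨s, _ | _⟩ ⟨s', _ | _⟩ h
    · simp only [stpf, add_right_inj, neg_inj] at h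
      rw [Subtype.ext h]
    · simp only [stpf, stpt, add_right_inj] at h
      exact absurd (h ▸ s'.2) (hS _ s.2)
    · simp only [stpf, stpt, add_right_inj] at h
      exact absurd (h ▸ s.2) (hS _ s'.2)
    · simp only [stpt, add_right_inj] at h
      rw [Subtype.ext h]
  choose! c hc1 hc2 using fun x (l : S × Bool) => hF3 x (stp act l x) (sadj l x)
  -- the reversal
  let E := T × (S × Bool)
  let σf : E → E := fun e => (stp act e.2 e.1, (e.2.1, !e.2.2))
  have σσ : ∀ e, σf (σf e) = e := by
    rintro ⟨x, l⟩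
    simp only [σf, sinv, Bool.not_not]
  have cσ : ∀ x (l : S × Bool), c (stp act l x) (l.1, !l.2) = c x l := by
    intro x l
    refine (hc2 _ _ _ ?_).symm
    rw [sinv]
    exact (hc1 x l).symm
  let σ : Perm E := Function.Involutive.toPerm σf σσ
  have σ2 : σ * σ = 1 := Equiv.ext σσ
  have σ0 : ∀ e, σ e ≠ e := by
    rintro ⟨x, s, β⟩ he
    have h2 : (!β) = β := congrArg (fun e : E => e.2.2) he
    cases β <;> simp at h2
  -- the pairing
  have hcard : Nat.card (S × Bool) = 2 * S.ncard := by
    rw [Nat.card_prod, Nat.card_coe_set_eq]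
    simp [mul_comm]
  have hfib : ∀ x (l l' l'' : S × Bool), c x l' = c x l → c x l'' = c x l →
      l = l' ∨ l = l'' ∨ l' = l'' := by
    intro x l l' l'' h1 h2
    by_contra hcon
    push Not at hcon
    obtain ⟨n1, n2, n3⟩ := hcon
    have h3 : ({stp act l x, stp act l' x, stp act l'' x} : Set T).encard = 3 := by
      rw [Set.encard_eq_three]
      exact ⟨_, _, _, fun h => n1 (sinj x h), fun h => n2 (sinj x h), fun h => n3 (sinj x h), rfl⟩
    have h4 : ({stp act l x, stp act l' x, stp act l'' x} : Set T) ⊆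
        (F (c x l)).neighborSet x := by
      intro y hy
      simp only [Set.mem_insert_iff, Set.mem_singleton_iff] at hy
      rw [SimpleGraph.mem_neighborSet]
      rcases hy with rfl | rfl | rfl
      · exact hc1 x l
      · rw [← h1]; exact hc1 x l'
      · rw [← h2]; exact hc1 x l''
    have h5 := (Set.encard_le_encard h4).trans ((hF1 (c x l)).2 x)
    rw [h3] at h5
    exact absurd h5 (by decide)
  choose τ τ1 τ2 τ3 using fun x => exists_pairing (c x) (by rw [hcard]; exact even_two_mul _)
    (hfib x)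
  let τP : Perm E := Function.Involutive.toPerm (fun e : E => (e.1, τ e.1 e.2))
    (fun e => Prod.ext rfl (τ1 e.1 e.2))
  have τ4 : τP * τP = 1 := Equiv.ext fun e => Prod.ext rfl (τ1 e.1 e.2)
  obtain ⟨f, fσ, fτ⟩ := orient_two σ τP σ2 τ4 σ0 (fun e he => τ2 e.1 e.2 (congrArg Prod.snd he))
  have fσ' : ∀ x (l : S × Bool), f (stp act l x, (l.1, !l.2)) = !f (x, l) := fun x l => fσ (x, l)
  have fτ' : ∀ x (l : S × Bool), f (x, τ x l) = !f (x, l) := fun x l => fτ (x, l)
  have huniq : ∀ x (l l' : S × Bool), c x l = c x l' → f (x, l) = f (x, l') → l = l' := by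
    intro x l l' h1 h2
    by_contra hne
    have h3 := τ3 x l' l hne h1
    have h4 := fτ' x l'
    rw [h3, h2] at h4
    cases h5 : f (x, l') <;> rw [h5] at h4 <;> simp at h4
  let sel : Bool → Fin (S.ncard + 1) → T → Option (S × Bool) := fun β k x =>
    if h : ∃ l, c x l = k ∧ f (x, l) = β then some h.choose else none
  have sel_some : ∀ β k x l, sel β k x = some l ↔ c x l = k ∧ f (x, l) = β := by
    intro β k x l
    simp only [sel]
    constructor
    · intro h
      split_ifs at h with h1
      have h2 : h1.choose = l := by simpa using h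
      rw [← h2]
      exact h1.choose_spec
    · intro h
      have h1 : ∃ l, c x l = k ∧ f (x, l) = β := ⟨l, h⟩
      rw [dif_pos h1]
      congr 1
      exact huniq x _ _ (h1.choose_spec.1.trans h.1.symm) (h1.choose_spec.2.trans h.2.symm)
  have sel_none : ∀ β k x, sel β k x = none ↔ ∀ l, c x l = k → f (x, l) ≠ β := by
    intro β k x
    constructor
    · intro h l hl hf
      have := (sel_some β k x l).2 ⟨hl, hf⟩
      rw [h] at this
      simp at this
    · intro h
      cases h1 : sel β k x with
      | none => rfl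
      | some l =>
        obtain ⟨h2, h3⟩ := (sel_some β k x l).1 h1
        exact absurd h3 (h l h2)
  have sel_inv : ∀ β k x (l : S × Bool), sel β k x = some l ↔
      sel (!β) k (stp act l x) = some (l.1, !l.2) := by
    intro β k x l
    rw [sel_some, sel_some, cσ, fσ']
    cases f (x, l) <;> cases β <;> simp
  have missing : ∀ β x, ∃! k, sel β k x = none := by
    intro β x
    have h1 : ∃! k, ∀ b : {l : S × Bool // f (x, l) = β}, c x b.1 ≠ k :=
      one_missing (fun b : {l : S × Bool // f (x, l) = β} => c x b.1)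
        (fun b b' hb => Subtype.ext (huniq x _ _ hb (b.2.trans b'.2.symm)))
        (half_card (τ x) (τ1 x) (fun l => f (x, l)) (fτ' x) hcard β)
    obtain ⟨k, hk, hk'⟩ := h1
    refine ⟨k, ?_, ?_⟩
    · refine (sel_none β k x).2 ?_
      intro l hl hf
      exact hk ⟨l, hf⟩ hl
    · intro k' h2
      apply hk'
      rintro ⟨l, hl⟩ h3
      exact (sel_none β k' x).1 h2 l h3 hl
  have wf : ∀ β k, WellFounded (fun y x => ∃ l, sel β k x = some l ∧ y = stp act l x) := by
    intro β k
    have h1 := wf_of_acyclic (F k) (hF1 k).1 (fun x => (sel β k x).map fun l => stp act l x) (by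
      intro x y hy
      rw [Option.map_eq_some_iff] at hy
      obtain ⟨l, hl, rfl⟩ := hy
      rw [sel_some] at hl
      rw [← hl.1]
      exact hc1 x l) (by
      intro x y z hy hz
      rw [Option.map_eq_some_iff] at hy hz
      obtain ⟨l, hl, rfl⟩ := hy
      obtain ⟨l', hl', rfl⟩ := hz
      intro h2
      have h3 : l' = (l.1, !l.2) := sinj (stp act l x) (by
        change stp act l' (stp act l x) = stp act (l.1, !l.2) (stp act l x)
        rw [h2, sinv])
      rw [sel_inv] at hl
      rw [h3] at hl'
      have h4 := ((sel_some _ _ _ _).1 hl).2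
      have h5 := ((sel_some _ _ _ _).1 hl').2
      rw [h4] at h5
      cases β <;> simp at h5)
    refine h1.mono ?_
    rintro y x ⟨l, hl, rfl⟩
    rw [hl]; rfl
  have hsadj : ∀ k x y, (F k).Adj x y → ∃ l, y = stp act l x := by
    intro k x y h
    have h1 := hF2 k h
    rw [SimpleGraph.circulantGraph_adj] at h1
    rcases h1.2 with h2 | h2
    · refine ⟨(⟨_, h2⟩, false), ?_⟩
      rw [stpf]
      change y = x + -(x - y)
      abel
    · refine ⟨(⟨_, h2⟩, true), ?_⟩
      rw [stpt]
      change y = x + (y - x)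
      abel
  refine ⟨{
    nx := sel true
    pv := sel false
    inv := fun k x l β => sel_inv true k x (l, β)
    dart := by
      intro x l
      refine ⟨(c x l, f (x, l)), ?_, ?_⟩
      · dsimp only
        cases hf : f (x, l)
        · simp only [Bool.false_eq_true, if_false]
          exact (sel_some _ _ _ _).2 ⟨rfl, hf⟩
        · simp only [if_true]
          exact (sel_some _ _ _ _).2 ⟨rfl, hf⟩
      · rintro ⟨k, _ | _⟩ hk
        · simp only [Bool.false_eq_true, if_false] at hk
          obtain ⟨h1, h2⟩ := (sel_some _ _ _ _).1 hk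
          rw [h1, h2]
        · simp only [if_true] at hk
          obtain ⟨h1, h2⟩ := (sel_some _ _ _ _).1 hk
          rw [h1, h2]
    nx_none := missing true
    pv_none := missing false
    wf_nx := wf true
    wf_pv := wf false }, ?_⟩
  intro k x
  refine ⟨fun y hy => ?_, fun hd => ?_⟩
  · obtain ⟨l, rfl⟩ := hsadj k x y hy
    have hk : c x l = k := (hc2 x l k hy).symm
    refine ⟨f (x, l), l, ?_, stp_apply _ l x⟩
    have h1 : sel (f (x, l)) k x = some l := (sel_some _ _ _ _).2 ⟨hk, rfl⟩
    cases h2 : f (x, l) <;> rw [h2] at h1 <;> exact h1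
  · by_contra hcon
    push Not at hcon
    have h1 : sel true k x ≠ none := hcon true
    have h2 : sel false k x ≠ none := hcon false
    obtain ⟨l1, h3⟩ := Option.ne_none_iff_exists'.1 h1
    obtain ⟨l2, h4⟩ := Option.ne_none_iff_exists'.1 h2
    obtain ⟨h5, h6⟩ := (sel_some _ _ _ _).1 h3
    obtain ⟨h7, h8⟩ := (sel_some _ _ _ _).1 h4
    have hne : l1 ≠ l2 := by
      rintro rfl
      rw [h6] at h8
      simp at h8
    have ha1 : (F k).Adj x (stp act l1 x) := by rw [← h5]; exact hc1 x l1
    have ha2 : (F k).Adj x (stp act l2 x) := by rw [← h7]; exact hc1 x l2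
    rw [Set.encard_le_one_iff] at hd
    exact hne (sinj x (hd _ _ ha1 ha2))

/-- decomposition into `n` linear forests each of which becomes connected when the edges of `G`
between its vertices of degree at most one are added -/
def ConnForests {T : Type*} (G : SimpleGraph T) (n : ℕ) : Prop :=
  ∃ F : Fin n → SimpleGraph T, (∀ i, IsLinearForest (F i)) ∧ (∀ i, F i ≤ G) ∧
    (∀ x y, G.Adj x y → ∃! i, (F i).Adj x y) ∧
    ∀ i x y, Relation.ReflTransGen (fun x y => (F i).Adj x y ∨
      (G.Adj x y ∧ ((F i).neighborSet x).encard ≤ 1 ∧ ((F i).neighborSet y).encard ≤ 1)) x y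

theorem ConnForests.decomposable {T : Type*} {G : SimpleGraph T} {n : ℕ} (h : ConnForests G n) :
    LinearForestDecomposable G n := by
  obtain ⟨F, h1, h2, h3, -⟩ := h
  exact ⟨F, h1, h2, h3⟩

open Block in
/-- the rows -/
theorem ConnForests.forestData {T : Type*} [AddCommGroup T] [Finite T] {S : Set T}
    (h0 : (0 : T) ∉ S) (hS : ∀ s ∈ S, -s ∉ S)
    (h : ConnForests (SimpleGraph.circulantGraph S) (S.ncard + 1)) {L : Type*} (ll : L → T) :
    ∃ D : ForestData T S (Fin (S.ncard + 1)) (fun s => Equiv.addRight (s : T)),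
      ∀ c x y, Relation.ReflTransGen (CRel D ll c) x y := by
  obtain ⟨F, h1, h2, h3, h4⟩ := h
  obtain ⟨D, hD⟩ := forestData_of_linearForests' S h0 hS F h1 h2 h3
  refine ⟨D, fun c x y => ?_⟩
  have key : ∀ u v, ((F c).Adj u v ∨ ((SimpleGraph.circulantGraph S).Adj u v ∧
      ((F c).neighborSet u).encard ≤ 1 ∧ ((F c).neighborSet v).encard ≤ 1)) →
      CRel D ll c u v := ?_
  · have h5 := h4 c x y
    clear h4
    induction h5 with
    | refl => exact Relation.ReflTransGen.refl
    | tail _ hbc ih => exact ih.tail (key _ _ hbc)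
  rintro u v (h | ⟨h, hu, hv⟩)
  · exact Or.inl ((hD c u).1 v h)
  · obtain ⟨β, hβ⟩ := (hD c u).2 hu
    obtain ⟨γ, hγ⟩ := (hD c v).2 hv
    have hstep : ∃ p : S × Bool, v = u + step (fun s : S => (s : T)) p := by
      rw [SimpleGraph.circulantGraph_adj] at h
      rcases h.2 with h' | h'
      · refine ⟨(⟨_, h'⟩, false), ?_⟩
        simp only [step, Bool.false_eq_true, if_false]
        abel
      · refine ⟨(⟨_, h'⟩, true), ?_⟩
        simp only [step, if_true]
        abel
    obtain ⟨p, hp⟩ := hstep
    exact Or.inr (Or.inr ⟨p, hp, β, γ, hβ, hγ⟩)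

end Pool.Agent.Helper39.HD
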