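import Pool.Agent.Helper39.HD.Chain
import Pool.Agent.Helper39.HD.Limit

/-!
# The abstract merging theorem
-/

namespace Pool.Agent.Helper39.HD

open Equiv

variable {V D : Type*} {G : SimpleGraph V}

/-- same orbit, or joinable arbitrarily far away with opposite signs -/
def Near (ν0 : D → Perm V) (sgn : V → Bool) (d : D) (x y : V) : Prop :=
  (ν0 d).SameCycle x y ∨ (AdjFar ν0 d x y ∧ AdjFar ν0 d y x ∧ sgn x ≠ sgn y)

/-- the component of a vertex -/
def Fam (ν0 : D → Perm V) (sgn : V → Bool) (d : D) : V → V → Prop :=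
  Relation.ReflTransGen (Near ν0 sgn d)

variable {ν0 : D → Perm V} {sgn : V → Bool} {d : D}

theorem Near.symm {x y : V} (h : Near ν0 sgn d x y) : Near ν0 sgn d y x := by
  rcases h with h | ⟨h1, h2, h3⟩
  · exact Or.inl h.symm
  · exact Or.inr ⟨h2, h1, h3.symm⟩

theorem Fam.symm {x y : V} (h : Fam ν0 sgn d x y) : Fam ν0 sgn d y x := by
  induction h with
  | refl => exact Relation.ReflTransGen.refl
  | tail _ hbc ih => exact Relation.ReflTransGen.head hbc.symm ih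

theorem Fam.trans {x y z : V} (h : Fam ν0 sgn d x y) (h' : Fam ν0 sgn d y z) :
    Fam ν0 sgn d x z :=
  Relation.ReflTransGen.trans h h'

theorem Fam.refl (x : V) : Fam ν0 sgn d x x := Relation.ReflTransGen.refl

theorem Fam.of_cycle {x y : V} (h : (ν0 d).SameCycle x y) : Fam ν0 sgn d x y :=
  Relation.ReflTransGen.single (Or.inl h)

theorem Fam.of_near {x y : V} (h : Near ν0 sgn d x y) : Fam ν0 sgn d x y :=
  Relation.ReflTransGen.single h

/-- one can always produce a double ray with backward tail in the component of `x` and forward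
tail in the component of `y` -/
def Lnk (G : SimpleGraph V) (ν0 : D → Perm V) (sgn : V → Bool) (d : D) (x y : V) : Prop :=
  ∀ ν, Good G ν0 ν → ∀ B : Set V, B.Finite →
    ∃ ν', Good G ν0 ν' ∧ AgreeOn B ν ν' ∧
      (∀ t ∈ B, ∀ z, (FT (ν d) (ν0 d) t z → FT (ν' d) (ν0 d) t z) ∧
        (BT (ν d) (ν0 d) t z → BT (ν' d) (ν0 d) t z)) ∧
      ∃ w z1 z2, Fam ν0 sgn d x z1 ∧ Fam ν0 sgn d y z2 ∧
        BT (ν' d) (ν0 d) w z1 ∧ FT (ν' d) (ν0 d) w z2

theorem mer_fam (h00 : ∀ d, Aper (ν0 d)) (hs : ∀ x y, (ν0 d).SameCycle x y → sgn x = sgn y)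
    (hfresh : ∀ x, ∀ (s : Bool) (W : Set V), W.Finite → ∃ r, Fam ν0 sgn d x r ∧ sgn r = s ∧
      ∀ k : ℤ, (ν0 d ^ k) r ∉ W) {y y' : V} (h : Fam ν0 sgn d y y') :
    Mer G ν0 d (Fam ν0 sgn d y) (Fam ν0 sgn d y) y y' := by
  refine component_lemma h00 d (Fam ν0 sgn d y) sgn ?_ hs ?_ ?_ (Fam.refl y) h
  · intro x z hxz hx
    exact hx.trans (Fam.of_cycle hxz)
  · intro x z hx hz
    have hxz : Fam ν0 sgn d x z := hx.symm.trans hz
    clear hz h
    induction hxz with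
    | refl => exact Relation.ReflTransGen.refl
    | @tail b c hb hbc ih =>
      exact ih.tail ⟨hx.trans (hb.trans (Fam.of_near hbc)), hbc⟩
  · intro x hx s W hW
    obtain ⟨r, h1, h2, h3⟩ := hfresh x s W hW
    exact ⟨r, hx.trans h1, h2, h3⟩

theorem merge_aux (h00 : ∀ d, Aper (ν0 d)) (hs : ∀ x y, (ν0 d).SameCycle x y → sgn x = sgn y)
    (hfresh : ∀ x, ∀ (s : Bool) (W : Set V), W.Finite → ∃ r, Fam ν0 sgn d x r ∧ sgn r = s ∧
      ∀ k : ℤ, (ν0 d ^ k) r ∉ W) {x y' : V}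
    (hxy : Relation.ReflTransGen (fun x y => Near ν0 sgn d x y ∨ Lnk G ν0 sgn d x y) x y') :
    ∀ z, Fam ν0 sgn d x z → ∀ ν, Good G ν0 ν → ∀ B : Set V, B.Finite → ∀ u v,
      FT (ν d) (ν0 d) u z → BT (ν d) (ν0 d) v y' →
      ∃ ν', Good G ν0 ν' ∧ AgreeOn B ν ν' ∧ (ν' d).SameCycle u v := by
  induction hxy using Relation.ReflTransGen.head_induction_on with
  | refl =>
    intro z hz ν hν B hB u v hu hv
    obtain ⟨ν', a1, a2, a3, -⟩ := mer_fam (G := G) h00 hs hfresh hz.symm ν hν B hB u v hu hv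
    exact ⟨ν', a1, a2, a3⟩
  | @head a a' haa' hrest ih =>
    intro z hz ν hν B hB u v hu hv
    by_cases h1 : Fam ν0 sgn d z y'
    · obtain ⟨ν', a1, a2, a3, -⟩ := mer_fam (G := G) h00 hs hfresh h1 ν hν B hB u v hu hv
      exact ⟨ν', a1, a2, a3⟩
    by_cases h2 : Fam ν0 sgn d a a'
    · exact ih z (h2.symm.trans hz) ν hν B hB u v hu hv
    rcases haa' with hn | hl
    · exact absurd (Fam.of_near hn) h2
    -- link
    obtain ⟨ν1, b1, b2, b3, w, z1, z2, hz1, hz2, hbw, hfw⟩ := hl ν hν (B ∪ {u, v})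
      (hB.union (Set.toFinite {u, v}))
    have hu1 := (b3 u (by simp) z).1 hu
    have hv1 := (b3 v (by simp) y').2 hv
    have hzz1 : Fam ν0 sgn d z z1 := hz.symm.trans hz1
    obtain ⟨ν2, e1, e2, e3, e4⟩ := mer_fam (G := G) h00 hs hfresh hzz1 ν1 b1 (B ∪ {u, v, w})
      (hB.union (Set.toFinite _)) u w hu1 hbw
    have hw2 : FT (ν2 d) (ν0 d) w z2 := by
      refine (e4 w (by simp) z2).1 ?_ hfw
      intro h
      exact h2 (hz.trans (h.trans hz2.symm))
    have hv2 : BT (ν2 d) (ν0 d) v y' := (e4 v (by simp) y').2 h1 hv1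
    obtain ⟨ν3, g1, g2, g3⟩ := ih z2 hz2 ν2 e1 B hB u v (hw2.left e3.symm) hv2
    exact ⟨ν3, g1, ((b2.mono Set.subset_union_left).trans (e2.mono Set.subset_union_left)).trans g2,
      g3⟩

/-- the abstract merging theorem -/
theorem merge_all [Countable V] [Nonempty V] [Countable D] (h0 : Good G ν0 ν0)
    (sgn : D → V → Bool) (hs : ∀ d x y, (ν0 d).SameCycle x y → sgn d x = sgn d y)
    (hfresh : ∀ d x, ∀ (s : Bool) (W : Set V), W.Finite → ∃ r, Fam ν0 (sgn d) d x r ∧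
      sgn d r = s ∧ ∀ k : ℤ, (ν0 d ^ k) r ∉ W)
    (hconn : ∀ d x y, Relation.ReflTransGen
      (fun x y => Near ν0 (sgn d) d x y ∨ Lnk G ν0 (sgn d) d x y) x y) :
    ∃ f : D → ℤ → V, (∀ d, Function.Bijective (f d)) ∧
      (∀ d n, G.Adj (f d n) (f d (n + 1))) ∧
      ∀ e ∈ G.edgeSet, ∃! p : D × ℤ, s(f p.1 p.2, f p.1 (p.2 + 1)) = e := by
  refine limit_lemma G ν0 h0 ?_
  intro ν hν B hB d u v
  obtain ⟨W, hW, hag⟩ := hν.fin
  obtain ⟨y, hy⟩ := FT.exists (hν.aper d) hW (fun x hx => (hag d x hx).1) u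
  obtain ⟨y', hy'⟩ : ∃ y', BT (ν d) (ν0 d) v y' :=
    FT.exists (hν.aper d).inv hW (fun x hx => (hag d x hx).2) v
  exact merge_aux h0.aper (hs d) (hfresh d) (hconn d y y') y (Fam.refl y) ν hν B hB u v hy hy'

end Pool.Agent.Helper39.HD
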