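import Pool.Agent.Helper39.HD2.Conn

/-!
# Choice of the signs
-/

namespace Pool.Agent.Helper39.HD

open Equiv Block

/-- potentials on a connected signed graph, tight on a connected subgraph -/
theorem exists_pot {Q : Type*} (R : Q → Q → Bool → Prop) (hsymm : ∀ a b s, R a b s → R b a s)
    (hconn : ∀ a b, Relation.ReflTransGen (fun a b => ∃ s, R a b s) a b) :
    ∃ θ : Q → Bool, ∀ a b, Relation.ReflTransGen (fun a b => ∃ s, R a b s ∧ θ b = xor (θ a) s)
      a b := by
  classical
  by_cases hQ : Nonempty Q
  swap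
  · exact ⟨fun _ => false, fun a => absurd ⟨a⟩ hQ⟩
  obtain ⟨r⟩ := hQ
  let G : SimpleGraph Q := { Adj := fun a b => a ≠ b ∧ ∃ s, R a b s
                             symm := ⟨fun a b h => ⟨h.1.symm, h.2.imp fun s hs => hsymm a b s hs⟩⟩
                             loopless := ⟨fun a h => h.1 rfl⟩ }
  have hreach : ∀ a b, G.Reachable a b := by
    intro a b
    induction hconn a b with
    | refl => exact SimpleGraph.Reachable.refl _
    | @tail b c _ hbc ih =>
      by_cases h : b = c
      · rw [← h]; exact ih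
      · exact ih.trans (SimpleGraph.Adj.reachable ⟨h, hbc⟩)
  have hpar : ∀ q, q ≠ r → ∃ p s, R p q s ∧ G.dist p r < G.dist q r := by
    intro q hq
    obtain ⟨w, hw⟩ := (hreach q r).exists_walk_length_eq_dist
    cases w with
    | nil => exact absurd rfl hq
    | @cons _ p _ h w' =>
      obtain ⟨s, hs⟩ := h.2
      refine ⟨p, s, hsymm _ _ _ hs, ?_⟩
      have h1 := SimpleGraph.dist_le w'
      rw [SimpleGraph.Walk.length_cons] at hw
      omega
  choose! par sg h1 h2 using hpar
  let F : (q : Q) → ((p : Q) → G.dist p r < G.dist q r → Bool) → Bool := fun q ih =>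
    if h : q = r then false else xor (ih (par q) (h2 q h)) (sg q)
  let θ : Q → Bool := (measure fun q => G.dist q r).wf.fix F
  have hθ : ∀ q, θ q = F q fun p _ => θ p := fun q =>
    (measure fun q => G.dist q r).wf.fix_eq F q
  have hθ' : ∀ q, q ≠ r → θ q = xor (θ (par q)) (sg q) := by
    intro q hq
    rw [hθ q]
    simp only [F]
    rw [dif_neg hq]
  set R' : Q → Q → Prop := fun a b => ∃ s, R a b s ∧ θ b = xor (θ a) s with hR'
  have hsym' : ∀ a b, R' a b → R' b a := by
    rintro a b ⟨s, hs, hab⟩
    refine ⟨s, hsymm _ _ _ hs, ?_⟩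
    rw [hab]
    cases θ a <;> cases s <;> rfl
  have hroot : ∀ n : ℕ, ∀ q, G.dist q r ≤ n → Relation.ReflTransGen R' r q := by
    intro n
    induction n with
    | zero =>
      intro q hq
      have : q = r := by
        have h0 : G.dist q r = 0 := by omega
        exact ((hreach q r).dist_eq_zero_iff).1 h0
      rw [this]
    | succ n ih =>
      intro q hq
      by_cases h : q = r
      · rw [h]
      · have h3 := h2 q h
        exact (ih (par q) (by omega)).tail ⟨sg q, h1 q h, hθ' q h⟩
  have hrev : ∀ a b, Relation.ReflTransGen R' a b → Relation.ReflTransGen R' b a := by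
    intro a b h
    induction h with
    | refl => exact Relation.ReflTransGen.refl
    | tail _ hbc ih => exact Relation.ReflTransGen.head (hsym' _ _ hbc) ih
  exact ⟨θ, fun a b => (hrev _ _ (hroot _ a le_rfl)).trans (hroot _ b le_rfl)⟩

section

variable {T P L K : Type*} [AddCommGroup T] {lp : P → T}

/-- one step along a path of a colour -/
def PStep (F : ForestData T P K (fun p => Equiv.addRight (lp p))) (c : K) (x y : T) : Prop :=
  ∃ γ l, dd F γ c x = some l ∧ y = x + step lp l

/-- signed links between the ends of the paths of a colour -/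
def SLink (F : ForestData T P K (fun p => Equiv.addRight (lp p))) (ll : L → T) (c : K)
    (x y : T) (s : Bool) : Prop :=
  (∃ l : L × Bool, y = x + step ll l ∧ s = true ∧ ∃ β, dd F β c x = none ∧ dd F β c y = none) ∨
  ∃ p : P × Bool, y = x + step lp p ∧ ∃ β γ, dd F β c x = none ∧ dd F γ c y = none ∧
    s = !(xor β γ)

/-- connectivity relation of a colour: paths, links along edges of the same family between two
arbitrary ends, links along edges of the other family between two ends of the same type -/
def CRel (F : ForestData T P K (fun p => Equiv.addRight (lp p))) (ll : L → T) (c : K)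
    (x y : T) : Prop :=
  PStep F c x y ∨
  (∃ l : L × Bool, y = x + step ll l ∧ ∃ β, dd F β c x = none ∧ dd F β c y = none) ∨
  ∃ p : P × Bool, y = x + step lp p ∧ ∃ β γ, dd F β c x = none ∧ dd F γ c y = none

/-- the relation with signs -/
def FRel (F : ForestData T P K (fun p => Equiv.addRight (lp p))) (ll : L → T) (th : T → Bool)
    (c : K) (x y : T) : Prop :=
  (∃ γ l, dd F γ c x = some l ∧ y = x + step lp l) ∨
  (∃ l : L × Bool, y = x + step ll l ∧ th x ≠ th y ∧
    ∃ β, dd F β c x = none ∧ dd F β c y = none) ∨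
  ∃ p : P × Bool, y = x + step lp p ∧ ∃ β γ, dd F β c x = none ∧ dd F γ c y = none ∧
    xor β (th x) ≠ xor γ (th y)

variable (F : ForestData T P K (fun p => Equiv.addRight (lp p))) (ll : L → T)

theorem step_back (lab : P → T) (x y : T) (l : P × Bool) (h : y = x + step lab l) :
    x = y + step lab (flp l) := by
  rw [step_flp, h, add_neg_cancel_right]

theorem PStep.symm {c : K} {x y : T} (h : PStep F c x y) : PStep F c y x := by
  obtain ⟨γ, l, h, rfl⟩ := h
  exact ⟨!γ, flp l, (dd_inv F γ c x l).1 h, step_back _ _ _ _ rfl⟩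

theorem SLink.symm {c : K} {x y : T} {s : Bool} (h : SLink F ll c x y s) :
    SLink F ll c y x s := by
  rcases h with ⟨l, h1, h2, β, h3, h4⟩ | ⟨p, h1, β, γ, h3, h4, h5⟩
  · exact Or.inl ⟨flp l, step_back _ _ _ _ h1, h2, β, h4, h3⟩
  · exact Or.inr ⟨flp p, step_back _ _ _ _ h1, γ, β, h4, h3, by rw [h5, Bool.xor_comm]⟩

theorem CRel.symm {c : K} {x y : T} (h : CRel F ll c x y) : CRel F ll c y x := by
  rcases h with h | ⟨l, h1, β, h3, h4⟩ | ⟨p, h1, β, γ, h3, h4⟩
  · exact Or.inl (PStep.symm F h)
  · exact Or.inr (Or.inl ⟨flp l, step_back _ _ _ _ h1, β, h4, h3⟩)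
  · exact Or.inr (Or.inr ⟨flp p, step_back _ _ _ _ h1, γ, β, h4, h3⟩)

/-- the sign lemma -/
theorem exists_sign (c : K) (hconn : ∀ x y, Relation.ReflTransGen (CRel F ll c) x y) :
    ∃ th : T → Bool, (∀ x l, F.nx c x = some l → th (x + step lp l) = th x) ∧
      ∀ x y, Relation.ReflTransGen (FRel F ll th c) x y := by
  let Q := Quot (PStep F c)
  let R : Q → Q → Bool → Prop := fun a b s => ∃ x y, Quot.mk _ x = a ∧ Quot.mk _ y = b ∧
    SLink F ll c x y s
  obtain ⟨θ, hθ⟩ := exists_pot R (by
    rintro a b s ⟨x, y, h1, h2, h3⟩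
    exact ⟨y, x, h2, h1, SLink.symm F ll h3⟩) (by
    intro a b
    induction a using Quot.inductionOn with
    | _ x =>
    induction b using Quot.inductionOn with
    | _ y =>
    induction hconn x y with
    | refl => exact Relation.ReflTransGen.refl
    | @tail b c' _ hbc ih =>
      rcases hbc with h | ⟨l, h1, β, h3, h4⟩ | ⟨p, h1, β, γ, h3, h4⟩
      · rw [← Quot.sound h]; exact ih
      · exact ih.tail ⟨true, b, c', rfl, rfl, Or.inl ⟨l, h1, rfl, β, h3, h4⟩⟩
      · exact ih.tail ⟨_, b, c', rfl, rfl, Or.inr ⟨p, h1, β, γ, h3, h4, rfl⟩⟩)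
  have hstep : ∀ x y, PStep F c x y → θ (Quot.mk _ x) = θ (Quot.mk _ y) := by
    intro x y h
    rw [Quot.sound h]
  refine ⟨fun x => θ (Quot.mk _ x), fun x l h => (hstep _ _ ⟨true, l, h, rfl⟩).symm, ?_⟩
  set th : T → Bool := fun x => θ (Quot.mk _ x) with hth
  have hsame : ∀ x y, (Quot.mk (PStep F c) x) = Quot.mk _ y →
      Relation.ReflTransGen (FRel F ll th c) x y := by
    intro x y h
    have h1 := Quot.eqvGen_exact h
    clear h
    have h2 : ∀ u v, PStep F c u v → FRel F ll th c u v := fun u v h => Or.inl h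
    induction h1 with
    | rel u v h => exact Relation.ReflTransGen.single (h2 _ _ h)
    | refl u => exact Relation.ReflTransGen.refl
    | symm u v h0 ih =>
      clear h2 h0
      have hs : ∀ u v, FRel F ll th c u v → FRel F ll th c v u := by
        intro u v h
        rcases h with h | ⟨l, h1, h2, β, h3, h4⟩ | ⟨p, h1, β, γ, h3, h4, h5⟩
        · exact Or.inl (PStep.symm F h)
        · exact Or.inr (Or.inl ⟨flp l, step_back _ _ _ _ h1, h2.symm, β, h4, h3⟩)
        · exact Or.inr (Or.inr ⟨flp p, step_back _ _ _ _ h1, γ, β, h4, h3, h5.symm⟩)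
      induction ih with
      | refl => exact Relation.ReflTransGen.refl
      | tail _ hbc ih => exact Relation.ReflTransGen.head (hs _ _ hbc) ih
    | trans u v w _ _ ih1 ih2 => exact ih1.trans ih2
  have key : ∀ a b, Relation.ReflTransGen (fun a b => ∃ s, R a b s ∧ θ b = xor (θ a) s) a b →
      ∀ x y, Quot.mk _ x = a → Quot.mk _ y = b →
        Relation.ReflTransGen (FRel F ll th c) x y := by
    intro a b h
    induction h with
    | refl =>
      intro x y hx hy
      exact hsame x y (hx.trans hy.symm)
    | @tail b b' _ hbc ih =>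
      intro x y hx hy
      obtain ⟨s, ⟨u, v, hu, hv, hl⟩, hs⟩ := hbc
      refine ((ih x u hx hu).tail ?_).trans (hsame v y (hv.trans hy.symm))
      have hs' : th v = xor (th u) s := by
        simp only [hth]
        rw [hu, hv]
        exact hs
      rcases hl with ⟨l, h1, h2, β, h3, h4⟩ | ⟨p, h1, β, γ, h3, h4, h5⟩
      · refine Or.inr (Or.inl ⟨l, h1, ?_, β, h3, h4⟩)
        rw [hs', h2]
        cases th u <;> simp
      · refine Or.inr (Or.inr ⟨p, h1, β, γ, h3, h4, ?_⟩)
        rw [hs', h5]
        cases th u <;> cases β <;> cases γ <;> simp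
  intro x y
  exact key _ _ (hθ _ _) x y rfl rfl

end

/-- two compatible connected families of linear forests give a Hamilton decomposition -/
theorem d2_forest {T P L K1 K2 : Type} [AddCommGroup T] [Countable T] [Countable K1]
    [Countable K2] {lp : P → T} {ll : L → T}
    (F1 : ForestData T P K1 (fun p => Equiv.addRight (lp p)))
    (F2 : ForestData T L K2 (fun l => Equiv.addRight (ll l)))
    (hinj : Function.Injective (Sum.elim lp ll))
    (hneg : ∀ i j, Sum.elim lp ll i ≠ -Sum.elim lp ll j)
    (hrow : ∀ c x y, Relation.ReflTransGen (CRel F1 ll c) x y)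
    (hcol : ∀ d x y, Relation.ReflTransGen (CRel F2 lp d) x y) :
    HasHamiltonDecomposition (SimpleGraph.circulantGraph (Set.range (gens lp ll))) := by
  choose th hth1 hth2 using fun c => exists_sign F1 ll c (hrow c)
  choose rh hrh1 hrh2 using fun d => exists_sign F2 lp d (hcol d)
  exact D2Data.hamilton ⟨F1, F2, th, rh, hth1, hrh1⟩ hinj hneg hth2 hrh2

end Pool.Agent.Helper39.HD
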