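import Pool.Agent.Helper39.HD2.Zig
import Pool.Agent.Helper39.HD2.BiLink

/-!
# The concrete state on `T × ℤ × ℤ`
-/

namespace Pool.Agent.Helper39.HD

open Equiv Block

namespace Bi

variable {V K1 K2 D : Type*} {S : Bi V K1 K2 D}

theorem aper_row (c : K1) : Aper (S.nu (S.row c)) := by
  intro x n hn
  obtain ⟨k, hk, h⟩ := row_tr (S := S) c x
  have hmul : ∀ m : ℤ, (S.nu (S.row c) ^ (n * m)) x = x := by
    intro m
    induction m using Int.induction_on with
    | zero => simp
    | succ i ih => rw [mul_add, mul_one, zpow_apply_add, hn, ih]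
    | pred i ih =>
      have h1 : (S.nu (S.row c) ^ (-n)) x = x := by
        rw [zpow_neg, Perm.inv_eq_iff_eq, hn]
      rw [mul_sub, mul_one, sub_eq_add_neg, zpow_apply_add, h1, ih]
  cases hs : S.rsg c x
  · have h1 := (h n).2 hs
    have h2 : -((k : ℤ) * n) = n * (-k) := by ring
    rw [h2, hmul] at h1
    have h3 := congrArg S.ca h1
    rw [ca_t] at h3
    omega
  · have h1 := (h n).1 hs
    have h2 : (k : ℤ) * n = n * k := by ring
    rw [h2, hmul] at h1
    have h3 := congrArg S.ca h1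
    rw [ca_t] at h3
    omega

end Bi

section pull

variable {T P K : Type*} [AddCommGroup T] {lp : P → T}

/-- labels in the product -/
def embl (lp : P → T) (p : P) : T × ℤ × ℤ := (lp p, 0, 0)

/-- the generator `a` -/
def gA (T : Type*) [AddCommGroup T] : T × ℤ × ℤ := (0, 1, 0)

/-- the generator `b` -/
def gB (T : Type*) [AddCommGroup T] : T × ℤ × ℤ := (0, 0, 1)

/-- pulled back forest data -/
def pb (F : ForestData T P K (fun p => Equiv.addRight (lp p))) :
    ForestData (T × ℤ × ℤ) P K (fun p => Equiv.addRight (embl lp p)) :=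
  F.pullback Prod.fst (Equiv.refl _) (fun _ _ => rfl)

variable (F : ForestData T P K (fun p => Equiv.addRight (lp p)))

theorem pb_nx (k : K) (x : T × ℤ × ℤ) : (pb F).nx k x = F.nx k x.1 := by
  simp [pb, ForestData.pullback]

theorem pb_pv (k : K) (x : T × ℤ × ℤ) : (pb F).pv k x = F.pv k x.1 := by
  simp [pb, ForestData.pullback]

theorem pb_dd (β : Bool) (k : K) (x : T × ℤ × ℤ) : dd (pb F) β k x = dd F β k x.1 := by
  cases β <;> simp [dd, pb_nx, pb_pv]

theorem step_emb (l : P × Bool) : step (embl lp) l = (step lp l, 0, 0) := by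
  rcases l with ⟨l, _ | _⟩
  · simp [step, embl]
  · simp [step, embl]

/-- parity of the first coordinate -/
def levA (x : T × ℤ × ℤ) : Bool := decide (Even x.2.1)

/-- parity of the second coordinate -/
def levB (x : T × ℤ × ℤ) : Bool := decide (Even x.2.2)

theorem even_flip (n : ℤ) : decide (Even (n + 1)) = !decide (Even n) := by
  rw [Bool.eq_iff_iff]
  simp only [decide_eq_true_eq, Bool.not_eq_true', decide_eq_false_iff_not]
  exact Int.even_add_one

theorem hypA : Hyp (pb F) (gA T) (gB T) levA where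
  lev_a x := even_flip x.2.1
  lev_b x := by simp [levA, gB]
  lev_l x l := by simp [levA, embl]
  nx_a k x := by simp [pb_nx, gA]
  pv_a k x := by simp [pb_pv, gA]
  nx_b k x := by simp [pb_nx, gB]
  pv_b k x := by simp [pb_pv, gB]

theorem hypB : Hyp (pb F) (gB T) (gA T) levB where
  lev_a x := even_flip x.2.2
  lev_b x := by simp [levB, gA]
  lev_l x l := by simp [levB, embl]
  nx_a k x := by simp [pb_nx, gB]
  pv_a k x := by simp [pb_pv, gB]
  nx_b k x := by simp [pb_nx, gA]
  pv_b k x := by simp [pb_pv, gA]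

end pull

/-! ### general facts on twisted zigzag permutations -/

namespace Block

variable {Γ L K : Type*} [AddCommGroup Γ] {a b : Γ} {lab : L → Γ}
  {D : ForestData Γ L K (fun l => Equiv.addRight (lab l))} {lev : Γ → Bool} (H : Hyp D a b lev)
  {s : Γ → Bool} {k : K} (hs : ∀ x, s (H.U k x) = s x)

include H hs

theorem Hyp.tw_cases' (x : Γ) : tw (H.U k) s hs x = x + a ∨ tw (H.U k) s hs x = x - a ∨
    ∃ l γ, tw (H.U k) s hs x = x + step lab l ∧ dd D γ k x = some l := by
  rcases tw_cases (h := hs) x with h | h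
  · rcases H.U_cases k x with h1 | ⟨l, h1, h2⟩
    · exact Or.inl (h.trans h1)
    · exact Or.inr (Or.inr ⟨l, _, h.trans h1, h2⟩)
  · rcases H.U_inv_cases k x with h1 | ⟨l, h1, h2⟩
    · exact Or.inr (Or.inl (h.trans h1))
    · exact Or.inr (Or.inr ⟨l, _, h.trans h1, h2⟩)

/-- the twisted permutation reverses under a translation which commutes with `U` and changes the
sign -/
theorem Hyp.tw_flip (hsb : ∀ x, s (x + b) = !s x) (x : Γ) :
    tw (H.U k) s hs (x + b) = (tw (H.U k) s hs)⁻¹ x + b := by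
  cases hx : s x
  · rw [tw_true (by rw [hsb, hx]; rfl), tw_inv_false hx, H.U_b]
  · rw [tw_false (by rw [hsb, hx]; rfl), tw_inv_true hx, Perm.inv_eq_iff_eq, H.U_b]
    rw [show H.U k ((H.U k)⁻¹ x) = x from (H.U k).apply_symm_apply x]

theorem Hyp.tw_a2 (hsa : ∀ x, s (x + a) = s x) (x : Γ) :
    tw (H.U k) s hs (x + a + a) = tw (H.U k) s hs x + a + a := by
  have e : ∀ y : Γ, y + a + a = y + (a + a) := fun y => add_assoc _ _ _
  rw [e, e]
  cases hx : s x
  · rw [tw_false (by rw [← e, hsa, hsa, hx]), tw_false hx, Perm.inv_eq_iff_eq, H.U_a]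
    rw [show H.U k ((H.U k)⁻¹ x) = x from (H.U k).apply_symm_apply x]
  · rw [tw_true (by rw [← e, hsa, hsa, hx]), tw_true hx, H.U_a]

theorem Hyp.tw_tr (x : Γ) : ∃ n : ℕ, 0 < n ∧
    (s x = true → (tw (H.U k) s hs ^ (n : ℤ)) x = x + a + a) ∧
    (s x = false → (tw (H.U k) s hs ^ (-(n : ℤ))) x = x + a + a) := by
  obtain ⟨n, hn, h⟩ := H.two k x
  refine ⟨n, hn, fun hx => ?_, fun hx => ?_⟩
  · rw [tw_zpow_true hx, zpow_natCast, h, add_assoc]
  · rw [tw_zpow_false hx, neg_neg, zpow_natCast, h, add_assoc]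

theorem Hyp.tw_key (x : Γ) : (tw (H.U k) s hs).SameCycle x (x + a) := by
  obtain ⟨n, hn, h⟩ := H.key k x
  rw [tw_sameCycle]
  exact ⟨n, by rw [zpow_natCast, h]⟩

/-- `tw x = x + a` -/
theorem Hyp.tw_add_iff (hla : ∀ l, lab l ≠ a) (hla' : ∀ l, lab l ≠ -a) (h2a : a ≠ -a) (x : Γ) :
    tw (H.U k) s hs x = x + a ↔ s x = true ∧ dd D (lev x) k x = none := by
  cases hx : s x
  · rw [tw_false hx]
    refine ⟨fun h => ?_, fun h => absurd h.1 (by simp)⟩
    exfalso
    rcases H.U_inv_cases k x with h1 | ⟨l, h1, -⟩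
    · rw [h1, sub_eq_add_neg] at h
      exact h2a (add_left_cancel h).symm
    · rw [h1] at h
      have h3 := add_left_cancel h
      rcases l with ⟨l, _ | _⟩
      · simp only [step, Bool.false_eq_true, if_false] at h3
        exact hla' l (by rw [← h3, neg_neg])
      · simp only [step, if_true] at h3
        exact hla l h3
  · rw [tw_true hx, H.U_none_iff hla hla']
    simp

/-- `tw (x + a) = x` -/
theorem Hyp.tw_sub_iff (hla : ∀ l, lab l ≠ a) (hla' : ∀ l, lab l ≠ -a) (h2a : a ≠ -a)
    (hsa : ∀ x, s (x + a) = s x) (x : Γ) :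
    tw (H.U k) s hs (x + a) = x ↔ s x = false ∧ dd D (lev x) k x = none := by
  cases hx : s x
  · rw [tw_false (by rw [hsa, hx]), Perm.inv_eq_iff_eq, eq_comm, H.U_none_iff hla hla']
    simp
  · rw [tw_true (by rw [hsa, hx])]
    refine ⟨fun h => ?_, fun h => absurd h.1 (by simp)⟩
    exfalso
    rcases H.U_cases k (x + a) with h1 | ⟨l, h1, -⟩
    · rw [h1, add_assoc] at h
      have h3 : a + a = 0 := by simpa using h
      exact h2a (eq_neg_of_add_eq_zero_left h3)
    · rw [h1, add_assoc] at h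
      have h3 : a + step lab l = 0 := by simpa using h
      rcases l with ⟨l, _ | _⟩
      · simp only [step, Bool.false_eq_true, if_false] at h3
        exact hla l (by rw [← sub_eq_add_neg] at h3; exact (sub_eq_zero.1 h3).symm)
      · simp only [step, if_true] at h3
        exact hla' l (eq_neg_of_add_eq_zero_right h3)

end Block

end Pool.Agent.Helper39.HD
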