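import Pool.Agent.Helper39.HD2.Graph
import Pool.Agent.Helper39.HD.Final

/-!
# Two generators of infinite order
-/

namespace Pool.Agent.Helper39.HD

open Equiv Block

theorem HasHamiltonDecomposition.map {V W : Type*} {G : SimpleGraph V} {H : SimpleGraph W}
    (e : V ≃ W) (h : ∀ x y, H.Adj (e x) (e y) ↔ G.Adj x y) (hG : HasHamiltonDecomposition G) :
    HasHamiltonDecomposition H := by
  obtain ⟨ι, f, h1, h2, h3⟩ := hG
  refine ⟨ι, fun i n => e (f i n), fun i => e.bijective.comp (h1 i),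
    fun i n => (h _ _).2 (h2 i n), ?_⟩
  intro z hz
  induction z using Sym2.ind with
  | _ x y =>
  have hxy : G.Adj (e.symm x) (e.symm y) := by
    rw [← h, e.apply_symm_apply, e.apply_symm_apply]
    exact hz
  obtain ⟨p, hp, hu⟩ := h3 s(e.symm x, e.symm y) hxy
  have hiff : ∀ p : ι × ℤ, s(e (f p.1 p.2), e (f p.1 (p.2 + 1))) = s(x, y) ↔
      s(f p.1 p.2, f p.1 (p.2 + 1)) = s(e.symm x, e.symm y) := by
    intro p
    rw [Sym2.eq_iff, Sym2.eq_iff]
    simp only [Equiv.eq_symm_apply]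
  exact ⟨p, (hiff p).2 hp, fun q hq => hu q ((hiff q).1 hq)⟩

theorem top2 {Γ : Type} [AddCommGroup Γ] (S : Set Γ) (hfin : S.Finite)
    (hS : ∀ s ∈ S, -s ∉ S) (hgen : AddSubgroup.closure S = ⊤)
    (hrank : ∃ x y : Γ, ∀ i j : ℤ, i • x = j • y → i = 0 ∧ j = 0) (h2 : (Sinf S).ncard = 2)
    (T : AddSubgroup Γ) (hT : AddSubgroup.closure (Sfin S) = T)
    {P L K1 K2 : Type} [Countable K1] [Countable K2] {lp : P → T} {ll : L → T}
    (hinj : Function.Injective (Sum.elim lp ll))
    (hrange : ∀ x : Γ, x ∈ Sfin S ↔ ∃ i, ((Sum.elim lp ll i : T) : Γ) = x)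
    (F1 : ForestData T P K1 (fun p => Equiv.addRight (lp p)))
    (F2 : ForestData T L K2 (fun l => Equiv.addRight (ll l)))
    (hrow : ∀ c x y, Relation.ReflTransGen (CRel F1 ll c) x y)
    (hcol : ∀ d x y, Relation.ReflTransGen (CRel F2 lp d) x y) :
    HasHamiltonDecomposition (SimpleGraph.circulantGraph S) := by
  classical
  obtain ⟨a, b, hab, hSab⟩ := Set.ncard_eq_two.1 h2
  have haS : a ∈ Sinf S := by rw [hSab]; simp
  have hbS : b ∈ Sinf S := by rw [hSab]; simp
  have hnp : ¬ Par a b := by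
    obtain ⟨s, hs, hs'⟩ := exists_not_near S hgen hrank b
    rw [hSab] at hs
    rcases hs with rfl | rfl
    · exact hs'
    · exact absurd (Par.refl _) hs'
  obtain ⟨htor, hTfin⟩ := closure_torsion (P := Sfin S) (hfin.subset (Set.sep_subset _ _))
    (fun s hs => hs.2)
  rw [hT] at htor hTfin
  have hneg : ∀ i j, Sum.elim lp ll i ≠ -Sum.elim lp ll j := by
    intro i j h
    have h1 := ((hrange _).2 ⟨i, rfl⟩).1
    have h3 := ((hrange _).2 ⟨j, rfl⟩).1
    apply hS _ h3
    rw [← AddSubgroup.coe_neg, ← h]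
    exact h1
  have key := d2_forest F1 F2 hinj hneg hrow hcol
  let φ : T × ℤ × ℤ →+ Γ :=
    { toFun := fun x => (x.1 : Γ) + x.2.1 • a + x.2.2 • b
      map_zero' := by simp
      map_add' := fun x y => by
        simp only [Prod.fst_add, Prod.snd_add, AddSubgroup.coe_add, add_zsmul]
        abel }
  have hφ : ∀ x : T × ℤ × ℤ, φ x = (x.1 : Γ) + x.2.1 • a + x.2.2 • b := fun x => rfl
  have hind : ∀ i j : ℤ, i • a + j • b ∈ T → i = 0 ∧ j = 0 := by
    intro i j h
    obtain ⟨n, hn, hnx⟩ := isOfFinAddOrder_iff_zsmul_eq_zero.1 (htor _ h)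
    have h1 : (n * i) • a = (-(n * j)) • b := by
      rw [zsmul_add, smul_smul, smul_smul] at hnx
      rw [neg_smul]
      exact eq_neg_of_add_eq_zero_left hnx
    have h3 : i = 0 := by
      by_contra hi
      by_cases hj : j = 0
      · rw [hj, mul_zero, neg_zero, zero_smul] at h1
        exact zsmul_ne_zero_of_inf haS.2 (mul_ne_zero hn hi) h1
      · exact hnp ⟨_, _, mul_ne_zero hn hi, neg_ne_zero.2 (mul_ne_zero hn hj), h1⟩
    refine ⟨h3, ?_⟩
    by_contra hj
    rw [h3, mul_zero, zero_smul] at h1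
    exact zsmul_ne_zero_of_inf hbS.2 (neg_ne_zero.2 (mul_ne_zero hn hj)) h1.symm
  have hφinj : Function.Injective φ := by
    rw [injective_iff_map_eq_zero]
    intro x hx
    rw [hφ, add_assoc] at hx
    have h1 : x.2.1 • a + x.2.2 • b = ((-x.1 : T) : Γ) := by
      rw [AddSubgroup.coe_neg]
      exact eq_neg_of_add_eq_zero_right hx
    obtain ⟨h3, h4⟩ := hind x.2.1 x.2.2 (by rw [h1]; exact SetLike.coe_mem _)
    rw [h3, h4] at hx
    have h5 : (x.1 : Γ) = 0 := by simpa using hx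
    exact Prod.ext (by exact_mod_cast h5) (Prod.ext h3 h4)
  have hval : ∀ i, φ (gens lp ll i) ∈ S ∧ True := by
    rintro ((_ | p) | (_ | l))
    · refine ⟨?_, trivial⟩
      have : φ (gens lp ll (Sum.inl none)) = a := by
        rw [hφ]; simp [gens, gA]
      rw [this]; exact haS.1
    · refine ⟨?_, trivial⟩
      have : φ (gens lp ll (Sum.inl (some p))) = (lp p : Γ) := by
        rw [hφ]; simp [gens, embl]
      rw [this]
      exact ((hrange _).2 ⟨Sum.inl p, rfl⟩).1
    · refine ⟨?_, trivial⟩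
      have : φ (gens lp ll (Sum.inr none)) = b := by
        rw [hφ]; simp [gens, gB]
      rw [this]; exact hbS.1
    · refine ⟨?_, trivial⟩
      have : φ (gens lp ll (Sum.inr (some l))) = (ll l : Γ) := by
        rw [hφ]; simp [gens, embl]
      rw [this]
      exact ((hrange _).2 ⟨Sum.inr l, rfl⟩).1
  have hsurjS : ∀ s ∈ S, ∃ i, φ (gens lp ll i) = s := by
    intro s hs
    by_cases hf : IsOfFinAddOrder s
    · obtain ⟨i, hi⟩ := (hrange s).1 ⟨hs, hf⟩
      rcases i with p | l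
      · refine ⟨Sum.inl (some p), ?_⟩
        rw [hφ]
        simp only [gens, embl, zero_smul, add_zero]
        exact hi
      · refine ⟨Sum.inr (some l), ?_⟩
        rw [hφ]
        simp only [gens, embl, zero_smul, add_zero]
        exact hi
    · have h3 : s ∈ Sinf S := ⟨hs, hf⟩
      rw [hSab] at h3
      rcases h3 with rfl | rfl
      · exact ⟨Sum.inl none, by rw [hφ]; simp [gens, gA]⟩
      · exact ⟨Sum.inr none, by rw [hφ]; simp [gens, gB]⟩
  have hφsurj : Function.Surjective φ := by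
    intro x
    have h1 : x ∈ AddSubgroup.closure S := by rw [hgen]; trivial
    have h3 : AddSubgroup.closure S ≤ φ.range := by
      rw [AddSubgroup.closure_le]
      intro s hs
      obtain ⟨i, hi⟩ := hsurjS s hs
      exact ⟨_, hi⟩
    exact h3 h1
  let e : (T × ℤ × ℤ) ≃ Γ := Equiv.ofBijective φ ⟨hφinj, hφsurj⟩
  refine key.map e ?_
  intro x y
  have he : ∀ z, e z = φ z := fun z => rfl
  have hmem : ∀ z : T × ℤ × ℤ, φ z ∈ S ↔ z ∈ Set.range (gens lp ll) := by
    intro z
    constructor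
    · intro h
      obtain ⟨i, hi⟩ := hsurjS _ h
      exact ⟨i, hφinj hi⟩
    · rintro ⟨i, rfl⟩
      exact (hval i).1
  rw [SimpleGraph.circulantGraph_adj, SimpleGraph.circulantGraph_adj, he, he, ← map_sub, ← map_sub,
    hmem, hmem, hφinj.eq_iff]

/-- the form with the rows in graph form -/
theorem top2' {Γ : Type} [AddCommGroup Γ] (S : Set Γ) (hfin : S.Finite)
    (hS : ∀ s ∈ S, -s ∉ S) (hgen : AddSubgroup.closure S = ⊤)
    (hrank : ∃ x y : Γ, ∀ i j : ℤ, i • x = j • y → i = 0 ∧ j = 0) (h2 : (Sinf S).ncard = 2)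
    (T : AddSubgroup Γ) (hT : AddSubgroup.closure (Sfin S) = T)
    (P : Set T) (L : Type) (K2 : Type) [Countable K2] (ll : L → T)
    (hinj : Function.Injective (Sum.elim (fun p : P => (p : T)) ll))
    (hrange : ∀ x : Γ, x ∈ Sfin S ↔ ∃ i, ((Sum.elim (fun p : P => (p : T)) ll i : T) : Γ) = x)
    (hrow : ConnForests (SimpleGraph.circulantGraph P) (P.ncard + 1))
    (F2 : ForestData T L K2 (fun l => Equiv.addRight (ll l)))
    (hcol : ∀ d x y, Relation.ReflTransGen (CRel F2 (fun p : P => (p : T)) d) x y) :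
    HasHamiltonDecomposition (SimpleGraph.circulantGraph S) := by
  obtain ⟨htor, hTfin⟩ := closure_torsion (P := Sfin S) (hfin.subset (Set.sep_subset _ _))
    (fun s hs => hs.2)
  rw [hT] at htor hTfin
  have hPS : ∀ p ∈ P, (p : Γ) ∈ S := fun p hp => ((hrange p).2 ⟨Sum.inl ⟨p, hp⟩, rfl⟩).1
  have h0 : (0 : T) ∉ P := by
    intro h
    have h1 := hPS _ h
    apply hS _ h1
    rw [AddSubgroup.coe_zero, neg_zero]
    exact h1
  have hneg : ∀ s ∈ P, -s ∉ P := by
    intro s hs hs'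
    exact hS _ (hPS s hs) (hPS _ hs')
  obtain ⟨D, hD⟩ := ConnForests.forestData h0 hneg hrow ll
  exact top2 S hfin hS hgen hrank h2 T hT hinj hrange D F2 hD hcol

end Pool.Agent.Helper39.HD
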