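import Pool.Agent.Helper39.HD.Blocks

/-!
# Zigzag permutations: further facts
-/

namespace Pool.Agent.Helper39.HD

open Equiv Block

/-- a family of permutations which uses every generator edge exactly once -/
theorem edge_good {Γ D J : Type*} [AddCommGroup Γ] (U : D → Perm Γ) (g : J → Γ)
    (hinj : Function.Injective g) (hneg : ∀ i j, g i ≠ - g j) (h0 : ∀ i, g i ≠ 0)
    (hcases : ∀ d x, ∃ j, U d x = x + g j ∨ x = U d x + g j)
    (huniq : ∀ x j, ∃! p : D × Bool, if p.2 then U p.1 x = x + g j else U p.1 (x + g j) = x) :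
    Function.Injective (edge U) ∧
      Set.range (edge U) = (SimpleGraph.circulantGraph (Set.range g)).edgeSet := by
  have EI : ∀ {j j' : J} {x x' : Γ}, s(x, x + g j) = s(x', x' + g j') → j = j' ∧ x = x' := by
    intro j j' x x' h
    rw [Sym2.eq_iff] at h
    rcases h with ⟨rfl, h⟩ | ⟨h1, h2⟩
    · exact ⟨hinj (add_left_cancel h), rfl⟩
    · exfalso
      apply hneg j j'
      rw [h1, add_assoc] at h2
      have : g j' + g j = 0 := by simpa using h2
      exact eq_neg_of_add_eq_zero_right this
  have hdec : ∀ d x, ∃ j y β, edge U (d, x) = s(y, y + g j) ∧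
      (if β = true then U d y = y + g j else U d (y + g j) = y) ∧
      x = (if β = true then y else y + g j) := by
    intro d x
    obtain ⟨j, h | h⟩ := hcases d x
    · refine ⟨j, x, true, ?_, by simpa using h, by simp⟩
      change s(x, U d x) = _
      rw [h]
    · refine ⟨j, U d x, false, ?_, ?_, ?_⟩
      · change s(x, U d x) = _
        rw [← h, Sym2.eq_swap]
      · simp only [Bool.false_eq_true, if_false]
        rw [← h]
      · simp only [Bool.false_eq_true, if_false]
        exact h
  refine ⟨?_, ?_⟩
  · rintro ⟨d, x⟩ ⟨d', x'⟩ h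
    obtain ⟨j, y, β, h1, h2, h3⟩ := hdec d x
    obtain ⟨j', y', β', h1', h2', h3'⟩ := hdec d' x'
    rw [h1, h1'] at h
    obtain ⟨rfl, rfl⟩ := EI h
    have := (huniq y j).unique (y₁ := (d, β)) (y₂ := (d', β')) h2 h2'
    simp only [Prod.mk.injEq] at this
    obtain ⟨rfl, rfl⟩ := this
    rw [h3, h3']
  · apply Set.Subset.antisymm
    · rintro e ⟨⟨d, x⟩, rfl⟩
      obtain ⟨j, y, β, h1, -, -⟩ := hdec d x
      rw [h1, SimpleGraph.mem_edgeSet, SimpleGraph.circulantGraph_adj]
      refine ⟨?_, Or.inr ⟨j, by simp⟩⟩
      intro h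
      exact h0 j (by simpa using h.symm)
    · intro e he
      induction e using Sym2.ind with
      | _ x y =>
      rw [SimpleGraph.mem_edgeSet, SimpleGraph.circulantGraph_adj] at he
      have key : ∀ j z, s(z, z + g j) ∈ Set.range (edge U) := by
        intro j z
        obtain ⟨⟨d, β⟩, hd, -⟩ := huniq z j
        cases β
        · refine ⟨(d, z + g j), ?_⟩
          change s(z + g j, U d (z + g j)) = s(z, z + g j)
          have hd : U d (z + g j) = z := by simpa using hd
          rw [hd, Sym2.eq_swap]
        · refine ⟨(d, z), ?_⟩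
          change s(z, U d z) = s(z, z + g j)
          have hd : U d z = z + g j := by simpa using hd
          rw [hd]
      rcases he.2 with ⟨j, hj⟩ | ⟨j, hj⟩
      · have := key j y
        rw [hj, add_sub_cancel, Sym2.eq_swap] at this
        exact this
      · have := key j x
        rw [hj, add_sub_cancel] at this
        exact this

namespace Block

variable {Γ L K : Type*} [AddCommGroup Γ] {a b : Γ} {lab : L → Γ}
  {D : ForestData Γ L K (fun l => Equiv.addRight (lab l))} {lev : Γ → Bool} (H : Hyp D a b lev)

theorem Hyp.U_some_iff (hinj : Function.Injective lab) (hneg : ∀ l l', lab l ≠ - lab l')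
    (hla : ∀ l, lab l ≠ a) (hla' : ∀ l, lab l ≠ -a) (k : K) (x : Γ) (l : L × Bool) :
    H.U k x = x + step lab l ↔ dd D (lev x) k x = some l := by
  have hstep : ∀ l : L × Bool, step lab l ≠ a := by
    rintro ⟨l, _ | _⟩ h
    · simp only [step, Bool.false_eq_true, if_false] at h
      exact hla' l (by rw [← h, neg_neg])
    · simp only [step, if_true] at h
      exact hla l h
  have hstep' : ∀ (l : L × Bool) (l' : L), step lab l = lab l' ↔ l = (l', true) := by
    rintro ⟨l, _ | _⟩ l'
    · simp only [step, Bool.false_eq_true, if_false, Prod.mk.injEq, and_false, iff_false]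
      exact fun h => hneg l' l h.symm
    · simp only [step, if_true, Prod.mk.injEq, and_true]
      exact hinj.eq_iff
  rw [H.U_apply]
  constructor
  · intro h
    rcases h' : dd D (lev x) k x with _ | l'
    · rw [uf_none h'] at h
      exact absurd (add_left_cancel h).symm (hstep l)
    · rw [uf_some h'] at h
      have h1 := add_left_cancel h
      congr 1
      rcases l with ⟨l, _ | _⟩
      · have h2 : step lab (flp l') = lab l := by
          rw [step_flp, h1]; simp [step]
        have h3 := (hstep' _ _).1 h2
        rw [← flp_flp l', h3]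
        rfl
      · have h2 : step lab l' = lab l := by rw [h1]; simp [step]
        exact (hstep' _ _).1 h2
  · intro h; exact uf_some h

theorem Hyp.U_none_iff (hla : ∀ l, lab l ≠ a) (hla' : ∀ l, lab l ≠ -a) (k : K) (x : Γ) :
    H.U k x = x + a ↔ dd D (lev x) k x = none := by
  have hstep : ∀ l : L × Bool, step lab l ≠ a := by
    rintro ⟨l, _ | _⟩ h
    · simp only [step, Bool.false_eq_true, if_false] at h
      exact hla' l (by rw [← h, neg_neg])
    · simp only [step, if_true] at h
      exact hla l h
  rw [H.U_apply]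
  constructor
  · intro h
    rcases h' : dd D (lev x) k x with _ | l'
    · rfl
    · rw [uf_some h'] at h
      exact absurd (add_left_cancel h) (hstep l')
  · intro h; exact uf_none h

theorem Hyp.U_cases (k : K) (x : Γ) : H.U k x = x + a ∨ ∃ l, H.U k x = x + step lab l ∧
    dd D (lev x) k x = some l := by
  rw [H.U_apply]
  rcases h : dd D (lev x) k x with _ | l
  · exact Or.inl (uf_none h)
  · exact Or.inr ⟨l, uf_some h, rfl⟩

theorem Hyp.U_inv_cases (k : K) (x : Γ) : (H.U k)⁻¹ x = x - a ∨
    ∃ l, (H.U k)⁻¹ x = x + step lab l ∧ dd D (!lev x) k x = some l := by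
  have h0 : (H.U k)⁻¹ x = vf D a lev k x := rfl
  rw [h0]
  rcases h : dd D (!lev x) k x with _ | l
  · exact Or.inl (vf_none h)
  · exact Or.inr ⟨l, vf_some h, rfl⟩

theorem Hyp.U_inv_none (k : K) (x : Γ) (h : dd D (!lev x) k x = none) :
    (H.U k)⁻¹ x = x - a := vf_none h

theorem Hyp.U_none_unique (hla : ∀ l, lab l ≠ a) (hla' : ∀ l, lab l ≠ -a) (x : Γ) :
    ∃! k, H.U k x = x + a := by
  obtain ⟨k, hk, huniq⟩ := dd_none D (lev x) x
  exact ⟨k, (H.U_none_iff hla hla' k x).2 hk, fun k' hk' => huniq k'
    ((H.U_none_iff hla hla' k' x).1 hk')⟩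

theorem Hyp.U_dart (hinj : Function.Injective lab) (hneg : ∀ l l', lab l ≠ - lab l')
    (hla : ∀ l, lab l ≠ a) (hla' : ∀ l, lab l ≠ -a) (x : Γ) (l : L) :
    ∃! p : K × Bool, if p.2 then H.U p.1 x = x + lab l else H.U p.1 (x + lab l) = x := by
  have hcase := H.U_some_iff hinj hneg hla hla'
  have hiff : ∀ p : K × Bool, (if p.2 then H.U p.1 x = x + lab l else
      H.U p.1 (x + lab l) = x) ↔ dd D (p.2 == lev x) p.1 x = some (l, true) := by
    rintro ⟨k, _ | _⟩
    · simp only [Bool.false_eq_true, if_false]
      have h1 : H.U k (x + lab l) = x ↔ H.U k (x + lab l) = x + lab l + step lab (l, false) := by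
        simp [step]
      rw [h1, hcase, H.lev_l]
      have h2 := dd_inv D (lev x) k (x + lab l) (l, false)
      rw [h2]
      have h3 : x + lab l + step lab (l, false) = x := by simp [step]
      have h4 : (false == lev x) = !lev x := by cases lev x <;> rfl
      rw [h3, h4]
      rfl
    · simp only [if_true]
      have h1 : H.U k x = x + lab l ↔ H.U k x = x + step lab (l, true) := by
        simp [step]
      rw [h1, hcase]
      have h4 : (true == lev x) = lev x := by cases lev x <;> rfl
      rw [h4]
  obtain ⟨p, hp, huniq⟩ := D.dart x (l, true)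
  have hp' : dd D p.2 p.1 x = some (l, true) := hp
  have hbb : ∀ β γ : Bool, ((β == γ) == γ) = β := by decide
  refine ⟨(p.1, p.2 == lev x), ?_, ?_⟩
  · refine (hiff (p.1, p.2 == lev x)).2 ?_
    rw [hbb]
    exact hp'
  · intro p' h'
    have h1 := (hiff p').1 h'
    have h2 := huniq (p'.1, p'.2 == lev x) h1
    rw [← h2]
    refine Prod.ext rfl ?_
    exact (hbb _ _).symm

/-- the end of the path in one of the two directions -/
theorem exists_end (D : ForestData Γ L K (fun l => Equiv.addRight (lab l))) (β : Bool) (k : K) :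
    ∃ E : Γ → Γ, (∀ γ x l, dd D γ k x = some l → E (x + step lab l) = E x) ∧
      ∀ x, dd D β k x = none → E x = x := by
  classical
  let F : (x : Γ) → ((y : Γ) → (∃ l, dd D β k x = some l ∧ y = x + step lab l) → Γ) → Γ :=
    fun x f => if h : ∃ l, dd D β k x = some l then f (x + step lab h.choose)
      ⟨h.choose, h.choose_spec, rfl⟩ else x
  let E : Γ → Γ := (dd_wf D β k).fix F
  have hE : ∀ x, E x = F x fun y _ => E y := fun x => (dd_wf D β k).fix_eq F x
  have h1 : ∀ x l, dd D β k x = some l → E (x + step lab l) = E x := by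
    intro x l hl
    rw [hE x]
    have h : ∃ l, dd D β k x = some l := ⟨l, hl⟩
    have h2 : h.choose = l := by
      exact Option.some.inj (h.choose_spec.symm.trans hl)
    simp only [F]
    rw [dif_pos h, h2]
  refine ⟨E, ?_, ?_⟩
  · intro γ x l hl
    by_cases hγ : γ = β
    · exact h1 x l (hγ ▸ hl)
    · have hγ' : (!γ) = β := by revert hγ; cases γ <;> cases β <;> simp
      have h2 := (dd_inv D γ k x l).1 hl
      rw [hγ'] at h2
      have h3 := h1 _ _ h2
      rw [step_flp, add_neg_cancel_right] at h3
      exact h3.symm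
  · intro x hx
    rw [hE x]
    simp only [F]
    rw [dif_neg]
    rintro ⟨l, hl⟩
    rw [hx] at hl
    simp at hl

end Block

end Pool.Agent.Helper39.HD
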